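import Pool.Agent.SLR.Stmts

set_option autoImplicit false

/-!
# SLR, ASY: optimisation of the parameters
-/

namespace Pool.Agent.SLR

open Module Finset Filter Topology
open scoped Nat

namespace ASYAux

/-- The power of `q` is at most `√n`. -/
theorem pow_le_sqrt (q k n M : ℕ) (hq : 2 ≤ q) (hn : 1 ≤ n)
    (hM : (M : ℝ) ≤ Real.log n / (6 * (k + 1) * Real.log q)) :
    (q : ℝ) ^ (3 * k * M) ≤ Real.sqrt n := by
  have hq1 : (1 : ℝ) < q := by exact_mod_cast (by omega : 1 < q)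
  have hq0 : (0 : ℝ) < q := by linarith
  have hlq : 0 < Real.log q := Real.log_pos hq1
  have hn1 : (1 : ℝ) ≤ n := by exact_mod_cast hn
  have hn0 : (0 : ℝ) < n := by linarith
  have hL : 0 ≤ Real.log n := Real.log_nonneg hn1
  have h1 : (q : ℝ) ^ (3 * k * M) = Real.exp ((3 * k * M : ℕ) * Real.log q) := by
    rw [Real.exp_nat_mul, Real.exp_log hq0]
  have h2 : Real.sqrt n = Real.exp (Real.log n / 2) := by
    rw [← Real.log_sqrt hn0.le, Real.exp_log (Real.sqrt_pos.mpr hn0)]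
  rw [h1, h2, Real.exp_le_exp]
  push_cast
  have hk : (0 : ℝ) ≤ k := Nat.cast_nonneg k
  have hk1 : (0 : ℝ) < (k : ℝ) + 1 := by linarith
  have hd : 0 < 6 * ((k : ℝ) + 1) * Real.log q := by positivity
  rw [le_div_iff₀ hd] at hM
  have hM0 : (0 : ℝ) ≤ M := Nat.cast_nonneg M
  have h3 : 3 * (k : ℝ) * M * Real.log q ≤ 3 * ((k : ℝ) + 1) * M * Real.log q := by
    have : (0 : ℝ) ≤ M * Real.log q := mul_nonneg hM0 hlq.le
    nlinarith
  nlinarith

/-- The lower bound for the exponent. -/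
theorem pow_ge (q k n M t : ℕ) (ε : ℝ) (hq : 2 ≤ q) (hε : 0 < ε)
    (hL0 : 0 ≤ Real.log n)
    (hM : Real.log n / (12 * (k + 1) * Real.log q) ≤ M) (ht : ε * n / 2 ≤ t) :
    Real.exp (ε / (24 * (k + 1)) * (n * Real.log n)) ≤ (q : ℝ) ^ (M * t) := by
  have hq1 : (1 : ℝ) < q := by exact_mod_cast (by omega : 1 < q)
  have hq0 : (0 : ℝ) < q := by linarith
  have hlq : 0 < Real.log q := Real.log_pos hq1
  have h1 : (q : ℝ) ^ (M * t) = Real.exp ((M * t : ℕ) * Real.log q) := by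
    rw [Real.exp_nat_mul, Real.exp_log hq0]
  rw [h1, Real.exp_le_exp]
  push_cast
  have hk : (0 : ℝ) ≤ k := Nat.cast_nonneg k
  have hk1 : (0 : ℝ) < (k : ℝ) + 1 := by linarith
  have hn0 : (0 : ℝ) ≤ n := Nat.cast_nonneg n
  have hd : 0 < 12 * ((k : ℝ) + 1) * Real.log q := by positivity
  have hA : 0 ≤ Real.log n / (12 * (k + 1) * Real.log q) := div_nonneg hL0 hd.le
  have hB : 0 ≤ ε * n / 2 := by positivity
  have h2 : Real.log n / (12 * (k + 1) * Real.log q) * (ε * n / 2) ≤ (M : ℝ) * t :=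
    mul_le_mul hM ht hB (hA.trans hM)
  have h3 : Real.log n / (12 * (k + 1) * Real.log q) * (ε * n / 2) * Real.log q =
      ε / (24 * (k + 1)) * (n * Real.log n) := by
    field_simp
    ring
  calc ε / (24 * (k + 1)) * (n * Real.log n)
      = Real.log n / (12 * (k + 1) * Real.log q) * (ε * n / 2) * Real.log q := h3.symm
    _ ≤ (M : ℝ) * t * Real.log q := mul_le_mul_of_nonneg_right h2 hlq.le

theorem main (q G k d : ℕ) (hq : 2 ≤ q) (hG : 1 ≤ G) (ε : ℝ) (hε : 0 < ε) (n : ℕ)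
    (hn : 1 ≤ n) (a a' : ℝ) (ha : a = ε / (8 * (d * k * G + 1)))
    (ha' : a' = ε / (8 * (k + 1)))
    (e1 : 2 ≤ a * n) (e2 : 8 * G * k ≤ a ^ 2 * a' * Real.sqrt n) (e3 : 4 ≤ ε * n)
    (e4 : 12 * ((k : ℝ) + 1) * Real.log q ≤ Real.log n)
    (e5 : ((d : ℝ) + 1) * Real.log (6 * G) + Real.log 2 ≤ ε / (48 * (k + 1)) * Real.log n)
    (B : ℕ)
    (h : ∀ M b m s : ℕ, 0 < b → 2 * G * q ^ (3 * k * M) * (k * n * n) ≤ b ^ 2 * (m + 1) →
      (s : ℝ) ≤ ε * n →
      B * q ^ (M * s) ≤ 2 * (6 * G) ^ ((d + 1) * n) * (n !) ^ d *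
        q ^ (M * (k * m + d * k * G * b))) :
    (B : ℝ) ≤ (n : ℝ) ^ (-(ε / (48 * (k + 1)) * n)) * ((n ! : ℕ) : ℝ) ^ d := by
  have hq1 : (1 : ℝ) < q := by exact_mod_cast (by omega : 1 < q)
  have hq0 : (0 : ℝ) < q := by linarith
  have hlq : 0 < Real.log q := Real.log_pos hq1
  have hn1 : (1 : ℝ) ≤ n := by exact_mod_cast hn
  have hn0 : (0 : ℝ) < n := by linarith
  have hL : 0 ≤ Real.log n := Real.log_nonneg hn1
  have hk : (0 : ℝ) ≤ k := Nat.cast_nonneg k
  have hk1 : (0 : ℝ) < (k : ℝ) + 1 := by linarith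
  have hGr : (1 : ℝ) ≤ G := by exact_mod_cast hG
  have hdr : (0 : ℝ) ≤ d := Nat.cast_nonneg d
  have hD : (0 : ℝ) < (d : ℝ) * k * G + 1 := by positivity
  have ha0 : 0 < a := by rw [ha]; positivity
  have ha'0 : 0 < a' := by rw [ha']; positivity
  set s : ℕ := ⌊ε * n⌋₊ with hs
  set b : ℕ := ⌊a * n⌋₊ with hb
  set m : ℕ := ⌊a' * n⌋₊ with hm
  set M : ℕ := ⌊Real.log n / (6 * (k + 1) * Real.log q)⌋₊ with hMd
  have s1 : (s : ℝ) ≤ ε * n := Nat.floor_le (by positivity)
  have s2 : ε * n < s + 1 := Nat.lt_floor_add_one _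
  have b1 : (b : ℝ) ≤ a * n := Nat.floor_le (by positivity)
  have b2 : a * n < b + 1 := Nat.lt_floor_add_one _
  have m1 : (m : ℝ) ≤ a' * n := Nat.floor_le (by positivity)
  have m2 : a' * n < m + 1 := Nat.lt_floor_add_one _
  have hd6 : 0 < 6 * ((k : ℝ) + 1) * Real.log q := by positivity
  have M1 : (M : ℝ) ≤ Real.log n / (6 * (k + 1) * Real.log q) :=
    Nat.floor_le (div_nonneg hL hd6.le)
  have M2 : Real.log n / (6 * (k + 1) * Real.log q) < M + 1 := Nat.lt_floor_add_one _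
  have b3 : a * n / 2 ≤ b := by linarith
  have bpos : 0 < b := by
    have : (0 : ℝ) < b := by linarith
    exact_mod_cast this
  -- the condition on the parameters
  have c1 : 2 * G * q ^ (3 * k * M) * (k * n * n) ≤ b ^ 2 * (m + 1) := by
    have hp := pow_le_sqrt q k n M hq hn M1
    have hsq : Real.sqrt n * Real.sqrt n = n := Real.mul_self_sqrt hn0.le
    have hs0 : 0 ≤ Real.sqrt n := Real.sqrt_nonneg _
    have key : (2 * G * q ^ (3 * k * M) * (k * n * n) : ℝ) ≤ b ^ 2 * (m + 1) := by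
      have h1 : (2 * G * q ^ (3 * k * M) * (k * n * n) : ℝ) ≤
          2 * G * Real.sqrt n * (k * n * n) := by
        have : (0 : ℝ) ≤ k * n * n := by positivity
        have h2G : (0 : ℝ) ≤ 2 * G := by positivity
        exact mul_le_mul_of_nonneg_right (mul_le_mul_of_nonneg_left hp h2G) this
      have h2 : (a * n / 2) ^ 2 * (a' * n) ≤ (b : ℝ) ^ 2 * (m + 1) := by
        have h3 : (a * n / 2) ^ 2 ≤ (b : ℝ) ^ 2 := pow_le_pow_left₀ (by positivity) b3 2
        exact mul_le_mul h3 m2.le (by positivity) (by positivity)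
      have h3 : 2 * G * Real.sqrt n * (k * n * n) ≤ (a * n / 2) ^ 2 * (a' * n) := by
        have h4 : (a * n / 2) ^ 2 * (a' * n) =
            (a ^ 2 * a' * Real.sqrt n) * (Real.sqrt n * n * n / 4) := by
          have : (n : ℝ) ^ 3 = Real.sqrt n * Real.sqrt n * n * n := by rw [hsq]; ring
          calc (a * n / 2) ^ 2 * (a' * n) = a ^ 2 * a' * (n : ℝ) ^ 3 / 4 := by ring
            _ = _ := by rw [this]; ring
        rw [h4]
        have h5 : 2 * G * Real.sqrt n * (k * n * n) =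
            (8 * G * k) * (Real.sqrt n * n * n / 4) := by ring
        rw [h5]
        exact mul_le_mul_of_nonneg_right e2 (by positivity)
      linarith
    exact_mod_cast key
  have hB := h M b m s bpos c1 s1
  -- the remaining exponent
  have t0 : (k * m + d * k * G * b : ℕ) ≤ (s : ℕ) ∧
      ε * n / 2 ≤ ((s - (k * m + d * k * G * b) : ℕ) : ℝ) := by
    have hkm : (k : ℝ) * m ≤ ε * n / 8 := by
      have : (k : ℝ) * m ≤ (k + 1) * (a' * n) :=
        mul_le_mul (by linarith) m1 (Nat.cast_nonneg m) hk1.le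
      have h2 : ((k : ℝ) + 1) * (a' * n) = ε * n / 8 := by
        rw [ha']; field_simp
      linarith
    have hdb : (d : ℝ) * k * G * b ≤ ε * n / 8 := by
      have : (d : ℝ) * k * G * b ≤ (d * k * G + 1) * (a * n) :=
        mul_le_mul (by linarith) b1 (Nat.cast_nonneg b) hD.le
      have h2 : ((d : ℝ) * k * G + 1) * (a * n) = ε * n / 8 := by
        rw [ha]; field_simp
      linarith
    have h3 : ((k * m + d * k * G * b : ℕ) : ℝ) ≤ ε * n / 4 := by
      push_cast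
      linarith
    have h4 : ((k * m + d * k * G * b : ℕ) : ℝ) ≤ (s : ℝ) := by linarith
    have h5 : (k * m + d * k * G * b : ℕ) ≤ s := by exact_mod_cast h4
    refine ⟨h5, ?_⟩
    rw [Nat.cast_sub h5]
    linarith
  obtain ⟨t1, t2⟩ := t0
  set r : ℕ := k * m + d * k * G * b with hr
  set t : ℕ := s - r with ht
  have hst : s = t + r := by omega
  have hpq : q ^ (M * s) = q ^ (M * t) * q ^ (M * r) := by
    rw [← pow_add, ← Nat.mul_add, hst]
  have hB2 : (B : ℝ) * (q : ℝ) ^ (M * t) ≤ 2 * (6 * G) ^ ((d + 1) * n) * ((n ! : ℕ) : ℝ) ^ d := by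
    have h1 : B * q ^ (M * t) * q ^ (M * r) ≤
        2 * (6 * G) ^ ((d + 1) * n) * (n !) ^ d * q ^ (M * r) := by
      calc B * q ^ (M * t) * q ^ (M * r) = B * q ^ (M * s) := by
            rw [hpq]; exact Nat.mul_assoc _ _ _
        _ ≤ _ := hB
    have h2 : B * q ^ (M * t) ≤ 2 * (6 * G) ^ ((d + 1) * n) * (n !) ^ d :=
      Nat.le_of_mul_le_mul_right h1 (pow_pos (by omega) _)
    exact_mod_cast h2
  have M3 : Real.log n / (12 * (k + 1) * Real.log q) ≤ M := by
    have h1 : Real.log n / (6 * (k + 1) * Real.log q) =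
        2 * (Real.log n / (12 * (k + 1) * Real.log q)) := by
      field_simp
      ring
    have hd12 : 0 < 12 * ((k : ℝ) + 1) * Real.log q := by positivity
    have h2 : 1 ≤ Real.log n / (12 * (k + 1) * Real.log q) := by
      rw [le_div_iff₀ hd12]
      linarith
    linarith
  have hpow := pow_ge q k n M t ε hq hε hL M3 t2
  -- conclusion
  have hG6 : (0 : ℝ) < 6 * G := by linarith
  have g1 : (2 : ℝ) * (6 * G) ^ ((d + 1) * n) ≤
      Real.exp (ε / (48 * (k + 1)) * (n * Real.log n)) := by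
    have h1 : (2 : ℝ) * (6 * G) ^ ((d + 1) * n) =
        Real.exp (Real.log 2 + ((d + 1) * n : ℕ) * Real.log (6 * G)) := by
      rw [Real.exp_add, Real.exp_log (by norm_num), Real.exp_nat_mul, Real.exp_log hG6]
    rw [h1, Real.exp_le_exp]
    push_cast
    have hl2 : 0 ≤ Real.log 2 := Real.log_nonneg (by norm_num)
    have h2 : Real.log 2 ≤ n * Real.log 2 := by nlinarith
    have h3 : (n : ℝ) * (((d : ℝ) + 1) * Real.log (6 * G) + Real.log 2) ≤
        n * (ε / (48 * (k + 1)) * Real.log n) := mul_le_mul_of_nonneg_left e5 hn0.le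
    nlinarith
  have g2 : (n : ℝ) ^ (-(ε / (48 * (k + 1)) * n)) =
      Real.exp (-(ε / (48 * (k + 1)) * (n * Real.log n))) := by
    rw [Real.rpow_def_of_pos hn0]
    congr 1
    ring
  have hF : (0 : ℝ) ≤ ((n ! : ℕ) : ℝ) ^ d := by positivity
  set X : ℝ := ε / (48 * (k + 1)) * (n * Real.log n) with hX
  have g3 : ε / (24 * (k + 1)) * (n * Real.log n) = X + X := by
    rw [hX]
    field_simp
    ring
  rw [g3] at hpow
  rw [g2]
  have hE : 0 < Real.exp (X + X) := Real.exp_pos _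
  have h1 : (B : ℝ) * Real.exp (X + X) ≤ Real.exp X * ((n ! : ℕ) : ℝ) ^ d := by
    calc (B : ℝ) * Real.exp (X + X) ≤ (B : ℝ) * (q : ℝ) ^ (M * t) :=
          mul_le_mul_of_nonneg_left hpow (Nat.cast_nonneg B)
      _ ≤ 2 * (6 * G) ^ ((d + 1) * n) * ((n ! : ℕ) : ℝ) ^ d := hB2
      _ ≤ Real.exp X * ((n ! : ℕ) : ℝ) ^ d := mul_le_mul_of_nonneg_right g1 hF
  have h2 : Real.exp (-X) * ((n ! : ℕ) : ℝ) ^ d * Real.exp (X + X) =
      Real.exp X * ((n ! : ℕ) : ℝ) ^ d := by
    have : Real.exp (-X) * Real.exp (X + X) = Real.exp X := by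
      rw [← Real.exp_add]
      congr 1
      ring
    calc Real.exp (-X) * ((n ! : ℕ) : ℝ) ^ d * Real.exp (X + X)
        = (Real.exp (-X) * Real.exp (X + X)) * ((n ! : ℕ) : ℝ) ^ d := by ring
      _ = _ := by rw [this]
  rw [← h2] at h1
  exact le_of_mul_le_mul_right h1 hE

end ASYAux

theorem asy_proof : Stmt_ASY := by
  intro q G k d hq hG ε hε
  have hk1 : (0 : ℝ) < (k : ℝ) + 1 := by positivity
  refine ⟨ε / (48 * (k + 1)), by positivity, ?_⟩
  set a : ℝ := ε / (8 * (d * k * G + 1)) with ha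
  set a' : ℝ := ε / (8 * (k + 1)) with ha'
  have ha0 : 0 < a := by rw [ha]; positivity
  have ha'0 : 0 < a' := by rw [ha']; positivity
  have hc : (0 : ℝ) < ε / (48 * (k + 1)) := by positivity
  have T0 : Tendsto (fun n : ℕ => (n : ℝ)) atTop atTop := tendsto_natCast_atTop_atTop
  have T1 : Tendsto (fun n : ℕ => a * (n : ℝ)) atTop atTop := T0.const_mul_atTop ha0
  have T2 : Tendsto (fun n : ℕ => a ^ 2 * a' * Real.sqrt n) atTop atTop :=
    (Real.tendsto_sqrt_atTop.comp T0).const_mul_atTop (by positivity)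
  have T3 : Tendsto (fun n : ℕ => ε * (n : ℝ)) atTop atTop := T0.const_mul_atTop hε
  have T4 : Tendsto (fun n : ℕ => Real.log (n : ℝ)) atTop atTop :=
    Real.tendsto_log_atTop.comp T0
  have T5 : Tendsto (fun n : ℕ => ε / (48 * (k + 1)) * Real.log (n : ℝ)) atTop atTop :=
    T4.const_mul_atTop hc
  filter_upwards [eventually_ge_atTop 1, T1.eventually_ge_atTop 2,
    T2.eventually_ge_atTop (8 * G * k), T3.eventually_ge_atTop 4,
    T4.eventually_ge_atTop (12 * ((k : ℝ) + 1) * Real.log q),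
    T5.eventually_ge_atTop (((d : ℝ) + 1) * Real.log (6 * G) + Real.log 2)]
    with n hn e1 e2 e3 e4 e5 B hB
  exact ASYAux.main q G k d hq hG ε hε n hn a a' ha ha' e1 e2 e3 e4 e5 B hB

end Pool.Agent.SLR
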