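import Pool.Agent.SLR.Stmts

set_option autoImplicit false

namespace Pool.Agent.SLR

open Module Finset Filter Topology
open scoped Nat

namespace BAD_

/-- The number of typical kernel tuples. -/
noncomputable def ff {K : Type} [Field K] {d : ℕ} (P : Pencil K d) (n M b : ℕ)
    (σ : Fin d → Equiv.Perm (Fin n)) (Uf : Fin n → Submodule K (Fin P.k → K)) : ℕ :=
  Nat.card {x : Fin M → Fin n → Fin P.k → K // Typ Uf b M x ∧ ∀ j, P.onPts σ (x j) = 0}

theorem single (hPIN : Stmt_PIN) (hPDM : Stmt_PDM) (hTYP : Stmt_TYP)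
    {K : Type} [Field K] [Finite K] {d : ℕ} (P : Pencil K d) (δ : ℕ)
    (n M b m s : ℕ) (hb : 0 < b)
    (hh : 2 * Nat.card (Submodule K (Fin P.k → K)) * Nat.card K ^ (3 * P.k * M) * (P.k * n * n)
      ≤ b ^ 2 * (m + 1)) (σ : Fin d → Equiv.Perm (Fin n))
    (hσ : δ * n + s ≤ finrank K (LinearMap.ker (P.onPts σ))) :
    ∃ Uf : Fin n → Submodule K (Fin P.k → K),
      Nat.card K ^ (M * (δ * n + s)) ≤ Nat.card K ^ (M * (P.k * m)) * (2 * ff P n M b σ Uf) := by
  classical
  obtain ⟨T, hT, hdep⟩ := hPIN K n P.k m (LinearMap.ker (P.onPts σ))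
  set V' := pin (LinearMap.ker (P.onPts σ)) T with hV'
  refine ⟨fun v => proj V' v, ?_⟩
  have hq : 0 < Nat.card K := Nat.card_pos
  have h1 : 2 * Nat.card (Submodule K (Fin P.k → K)) * Nat.card K ^ (3 * P.k * M) *
      (dep V').card ≤ b ^ 2 := by
    have : (2 * Nat.card (Submodule K (Fin P.k → K)) * Nat.card K ^ (3 * P.k * M) *
      (dep V').card) * (m + 1) ≤ b ^ 2 * (m + 1) := by
      calc _ = 2 * Nat.card (Submodule K (Fin P.k → K)) * Nat.card K ^ (3 * P.k * M) *
            ((dep V').card * (m + 1)) := by ring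
        _ ≤ 2 * Nat.card (Submodule K (Fin P.k → K)) * Nat.card K ^ (3 * P.k * M) *
            (P.k * n * n) := Nat.mul_le_mul_left _ hdep
        _ ≤ _ := hh
    exact Nat.le_of_mul_le_mul_right this (Nat.succ_pos m)
  have h2 := hTYP K n P.k M b V' hb h1
  have h3 : finrank K (LinearMap.ker (P.onPts σ)) ≤ finrank K V' + P.k * m :=
    (hPDM K n P.k (LinearMap.ker (P.onPts σ)) T).trans
      (Nat.add_le_add_left (Nat.mul_le_mul_left _ hT) _)
  have hcard : Nat.card V' = Nat.card K ^ finrank K V' := by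
    exact Module.natCard_eq_pow_finrank
  have h4 : Nat.card K ^ (M * (δ * n + s)) ≤ Nat.card K ^ (M * (P.k * m)) * Nat.card V' ^ M := by
    rw [hcard, ← pow_mul, ← pow_add]
    apply Nat.pow_le_pow_right hq
    calc M * (δ * n + s) ≤ M * (finrank K V' + P.k * m) := Nat.mul_le_mul_left _ (hσ.trans h3)
      _ = _ := by ring
  refine h4.trans (Nat.mul_le_mul_left _ (h2.trans (Nat.mul_le_mul_left _ ?_)))
  unfold ff
  refine Nat.card_le_card_of_injective
    (fun x => ⟨x.1, x.2.2, fun j => (x.2.1 j).1⟩) ?_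
  intro x y hxy
  have h5 : x.1 = y.1 := by simpa using hxy
  exact Subtype.ext h5

theorem colsum {K : Type} [Field K] [Finite K] {d : ℕ} (P : Pencil K d) (n M b : ℕ)
    (Uf : Fin n → Submodule K (Fin P.k → K)) :
    ∑ σ : Fin d → Equiv.Perm (Fin n), ff P n M b σ Uf =
    Nat.card {p : (Fin d → Equiv.Perm (Fin n)) × (Fin M → Fin n → Fin P.k → K) //
        Typ Uf b M p.2 ∧ ∀ j, P.onPts p.1 (p.2 j) = 0} := by
  classical
  unfold ff
  rw [← Nat.card_sigma]
  exact Nat.card_congr (Equiv.subtypeProdEquivSigmaSubtype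
    (fun (σ : Fin d → Equiv.Perm (Fin n)) (x : Fin M → Fin n → Fin P.k → K) =>
      Typ Uf b M x ∧ ∀ j, P.onPts σ (x j) = 0)).symm

end BAD_

theorem bad_proof (hPIN : Stmt_PIN) (hPDM : Stmt_PDM) (hTYP : Stmt_TYP) (hCNT : Stmt_CNT) :
    Stmt_BAD := by
  intro K _ _ d P δ hP n M b m s hb hh
  classical
  have : Finite (Submodule K (Fin P.k → K)) := inferInstance
  let _ : Fintype (Submodule K (Fin P.k → K)) := Fintype.ofFinite _
  have hq : 0 < Nat.card K := Nat.card_pos
  set q := Nat.card K with hqd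
  set G := Nat.card (Submodule K (Fin P.k → K)) with hG
  have hGpos : 0 < G := Nat.card_pos
  set S := {σ : Fin d → Equiv.Perm (Fin n) //
        δ * n + s ≤ finrank K (LinearMap.ker (P.onPts σ))} with hS
  have key : Nat.card S * q ^ (M * (δ * n + s)) ≤
      q ^ (M * (P.k * m)) * (2 * ∑ Uf : Fin n → Submodule K (Fin P.k → K),
        Nat.card {p : (Fin d → Equiv.Perm (Fin n)) × (Fin M → Fin n → Fin P.k → K) //
        Typ Uf b M p.2 ∧ ∀ j, P.onPts p.1 (p.2 j) = 0}) := by
    have e1 : Nat.card S * q ^ (M * (δ * n + s)) = ∑ σ : S, q ^ (M * (δ * n + s)) := by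
      rw [Finset.sum_const, smul_eq_mul, Finset.card_univ, Nat.card_eq_fintype_card]
    rw [e1]
    have e2 : ∀ σ : S, q ^ (M * (δ * n + s)) ≤
        q ^ (M * (P.k * m)) * (2 * ∑ Uf : Fin n → Submodule K (Fin P.k → K),
          BAD_.ff P n M b σ.1 Uf) := by
      intro σ
      obtain ⟨Uf, hUf⟩ := BAD_.single hPIN hPDM hTYP P δ n M b m s hb hh σ.1 σ.2
      refine hUf.trans (Nat.mul_le_mul_left _ (Nat.mul_le_mul_left _ ?_))
      exact Finset.single_le_sum (f := fun Uf => BAD_.ff P n M b σ.1 Uf)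
        (fun _ _ => Nat.zero_le _) (Finset.mem_univ Uf)
    refine (Finset.sum_le_sum fun σ _ => e2 σ).trans ?_
    rw [← Finset.mul_sum, ← Finset.mul_sum]
    refine Nat.mul_le_mul_left _ (Nat.mul_le_mul_left _ ?_)
    have e3 : ∑ σ : S, ∑ Uf : Fin n → Submodule K (Fin P.k → K), BAD_.ff P n M b σ.1 Uf ≤
        ∑ σ : Fin d → Equiv.Perm (Fin n), ∑ Uf : Fin n → Submodule K (Fin P.k → K),
          BAD_.ff P n M b σ Uf := by
      rw [← Finset.sum_subtype (Finset.univ.filter fun σ : Fin d → Equiv.Perm (Fin n) =>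
        δ * n + s ≤ finrank K (LinearMap.ker (P.onPts σ))) (by simp)
        (fun σ => ∑ Uf : Fin n → Submodule K (Fin P.k → K), BAD_.ff P n M b σ Uf)]
      exact Finset.sum_le_sum_of_subset (Finset.filter_subset _ _)
    refine e3.trans ?_
    rw [Finset.sum_comm]
    exact Finset.sum_le_sum fun Uf _ => (BAD_.colsum P n M b Uf).le
  have hcnt : ∑ Uf : Fin n → Submodule K (Fin P.k → K),
        Nat.card {p : (Fin d → Equiv.Perm (Fin n)) × (Fin M → Fin n → Fin P.k → K) //
        Typ Uf b M p.2 ∧ ∀ j, P.onPts p.1 (p.2 j) = 0} ≤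
      G ^ n * ((6 * G) ^ (d * n) * (n !) ^ d * q ^ (M * (δ * n + d * P.k * G * b))) := by
    refine (Finset.sum_le_sum fun Uf _ => hCNT K d P δ hP n M b Uf).trans ?_
    rw [Finset.sum_const, smul_eq_mul, Finset.card_univ, Fintype.card_fun, Fintype.card_fin,
      ← Nat.card_eq_fintype_card]
  have h6 : G ^ n * (6 * G) ^ (d * n) ≤ (6 * G) ^ ((d + 1) * n) := by
    calc G ^ n * (6 * G) ^ (d * n) ≤ (6 * G) ^ n * (6 * G) ^ (d * n) :=
          Nat.mul_le_mul_right _ (Nat.pow_le_pow_left (by omega) _)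
      _ = _ := by rw [← pow_add]; congr 1; ring
  have hfin : (Nat.card S * q ^ (M * s)) * q ^ (M * (δ * n)) ≤
      (2 * (6 * G) ^ ((d + 1) * n) * (n !) ^ d * q ^ (M * (P.k * m + d * P.k * G * b)))
        * q ^ (M * (δ * n)) := by
    calc (Nat.card S * q ^ (M * s)) * q ^ (M * (δ * n))
        = Nat.card S * q ^ (M * (δ * n + s)) := by
          rw [mul_assoc, ← pow_add]; congr 2; ring
      _ ≤ q ^ (M * (P.k * m)) * (2 * (G ^ n * ((6 * G) ^ (d * n) * (n !) ^ d *
            q ^ (M * (δ * n + d * P.k * G * b))))) :=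
          key.trans (Nat.mul_le_mul_left _ (Nat.mul_le_mul_left _ hcnt))
      _ = (G ^ n * (6 * G) ^ (d * n)) * (2 * (n !) ^ d * (q ^ (M * (P.k * m)) *
            q ^ (M * (δ * n + d * P.k * G * b)))) := by ring
      _ ≤ (6 * G) ^ ((d + 1) * n) * (2 * (n !) ^ d * (q ^ (M * (P.k * m)) *
            q ^ (M * (δ * n + d * P.k * G * b)))) := Nat.mul_le_mul_right _ h6
      _ = _ := by
          rw [← pow_add]
          have : M * (P.k * m) + M * (δ * n + d * P.k * G * b) =
            M * (P.k * m + d * P.k * G * b) + M * (δ * n) := by ring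
          rw [this, pow_add]
          ring
  exact Nat.le_of_mul_le_mul_right hfin (pow_pos hq _)

end Pool.Agent.SLR
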