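import Pool.Agent.SLR.Stmts

set_option autoImplicit false

namespace Pool.Agent.SLR

open Module Finset Filter Topology MeasureTheory
open scoped Nat ENNReal

theorem bcl_card_Om (d n : ℕ) : Fintype.card (Om d n) = (n !) ^ d := by
  have h : Fintype.card (Om d n) = Fintype.card (Fin d → Equiv.Perm (Fin n)) := by
    rw [← Nat.card_eq_fintype_card, ← Nat.card_eq_fintype_card]
    rfl
  rw [h, Fintype.card_fun, Fintype.card_perm, Fintype.card_fin, Fintype.card_fin]

theorem bcl_pow (c : ℝ) (n : ℕ) (hn : (2 : ℝ) ≤ (n : ℝ) ^ c) :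
    (n : ℝ) ^ (-(c * n)) ≤ (1 / 2 : ℝ) ^ n := by
  have h1 : (n : ℝ) ^ (-(c * n)) = (((n : ℝ) ^ c) ^ n)⁻¹ := by
    rw [Real.rpow_neg (Nat.cast_nonneg n), Real.rpow_mul (Nat.cast_nonneg n), Real.rpow_natCast]
  rw [h1, one_div, inv_pow]
  exact inv_anti₀ (by positivity) (pow_le_pow_left₀ (by norm_num) hn n)

theorem bcl_measure (d : ℕ) (S : ∀ n : ℕ, Set (Om d n)) (n : ℕ) :
    ((law d) {ω | ω n ∈ S n}).toReal = (Nat.card (S n) : ℝ) / ((n ! : ℕ) : ℝ) ^ d := by
  classical
  have hmp : MeasurePreserving (Function.eval n) (law d)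
      ((PMF.uniformOfFintype (Om d n)).toMeasure) := by
    unfold law
    exact measurePreserving_eval_infinitePi _ n
  have hS : MeasurableSet (S n) := MeasurableSet.of_discrete
  have h1 : (law d) {ω | ω n ∈ S n} = ((PMF.uniformOfFintype (Om d n)).toMeasure) (S n) :=
    hmp.measure_preimage hS.nullMeasurableSet
  rw [h1, PMF.toMeasure_uniformOfFintype_apply _ hS, ENNReal.toReal_div, bcl_card_Om,
    ENNReal.toReal_natCast, ENNReal.toReal_natCast, Nat.card_eq_fintype_card]
  push_cast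
  rfl

theorem bcl_proof : Stmt_BCL := by
  intro d S c hc hS
  have hprob : IsProbabilityMeasure (law d) := by unfold law; infer_instance
  have hsum : Summable fun n : ℕ => ((law d) {ω | ω n ∈ S n}).toReal := by
    refine Summable.of_norm_bounded_eventually_nat (g := fun n => (1 / 2 : ℝ) ^ n)
      (summable_geometric_of_lt_one (by norm_num) (by norm_num)) ?_
    have h2 : ∀ᶠ n : ℕ in atTop, (2 : ℝ) ≤ (n : ℝ) ^ c :=
      ((tendsto_rpow_atTop hc).comp tendsto_natCast_atTop_atTop).eventually_ge_atTop 2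
    filter_upwards [hS, h2] with n h1 h2
    rw [Real.norm_of_nonneg ENNReal.toReal_nonneg, bcl_measure]
    have hpos : (0 : ℝ) < ((n ! : ℕ) : ℝ) ^ d := by
      have : (0 : ℝ) < ((n ! : ℕ) : ℝ) := by exact_mod_cast Nat.factorial_pos n
      positivity
    rw [div_le_iff₀ hpos]
    exact h1.trans (mul_le_mul_of_nonneg_right (bcl_pow c n h2) hpos.le)
  have htop : (∑' n : ℕ, (law d) {ω | ω n ∈ S n}) ≠ ∞ := by
    have h := hsum.tsum_ofReal_ne_top
    have e : (fun n : ℕ => ENNReal.ofReal ((law d) {ω | ω n ∈ S n}).toReal) =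
        fun n : ℕ => (law d) {ω | ω n ∈ S n} := by
      funext n
      exact ENNReal.ofReal_toReal (measure_ne_top _ _)
    rwa [e] at h
  exact ae_eventually_notMem htop

end Pool.Agent.SLR
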