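import Pool.Agent.SLR.Stmts

set_option autoImplicit false

namespace Pool.Agent.SLR

open Module Finset

namespace CHB_

theorem fib {A B : Type} [AddCommGroup A] [AddCommGroup B] [Finite A] [Finite B] (f : A →+ B)
    (hf : Function.Surjective f) (b : B) :
    Nat.card {a // f a = b} * Nat.card B = Nat.card A := by
  classical
  haveI := Fintype.ofFinite A
  haveI := Fintype.ofFinite B
  have key : ∀ b', Nat.card {a // f a = b'} = Nat.card {a // f a = b} := by
    intro b'
    obtain ⟨t, ht⟩ := hf (b' - b)
    refine Nat.card_congr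
      { toFun := fun a => ⟨a.1 - t, ?_⟩
        invFun := fun a => ⟨a.1 + t, ?_⟩
        left_inv := ?_
        right_inv := ?_ }
    · rw [map_sub, a.2, ht]; abel
    · rw [map_add, a.2, ht]; abel
    · intro a
      apply Subtype.ext
      simp
    · intro a
      apply Subtype.ext
      simp
  have h1 : Nat.card A = ∑ b', Nat.card {a // f a = b'} := by
    rw [← Nat.card_sigma]
    exact Nat.card_congr (Equiv.sigmaFiberEquiv f).symm
  rw [h1, Finset.sum_congr rfl (fun b' _ => key b'), Finset.sum_const, smul_eq_mul,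
    Finset.card_univ, Nat.card_eq_fintype_card (α := B)]
  ring

variable {K : Type} [Field K] [Finite K] {n k : ℕ}

theorem fib1 (M : ℕ) (V : Submodule K (Fin n → Fin k → K)) (U : Submodule K (Fin k → K))
    (v : Fin n) (hv : proj V v = U) (c : Fin M → Fin k → K) (hc : ∀ j, c j ∈ U) :
    Nat.card {x : Fin M → V // ∀ j, (x j : Fin n → Fin k → K) v = c j} * Nat.card U ^ M
      = Nat.card V ^ M := by
  classical
  subst hv
  have hmem : ∀ y : V, (y : Fin n → Fin k → K) v ∈ proj V v := fun y =>
    Submodule.mem_map.2 ⟨y, y.2, rfl⟩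
  let f : (Fin M → V) →+ (Fin M → proj V v) :=
    { toFun := fun x j => ⟨(x j : Fin n → Fin k → K) v, hmem (x j)⟩
      map_zero' := by
        funext j
        apply Subtype.ext
        rfl
      map_add' := by
        intro x y
        funext j
        apply Subtype.ext
        rfl }
  have hf : Function.Surjective f := by
    intro b
    have h1 : ∀ j, ∃ y : V, (y : Fin n → Fin k → K) v = (b j : Fin k → K) := by
      intro j
      obtain ⟨y, hy, hy'⟩ := Submodule.mem_map.1 (b j).2
      exact ⟨⟨y, hy⟩, hy'⟩
    choose y hy using h1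
    refine ⟨y, ?_⟩
    funext j
    apply Subtype.ext
    exact hy j
  have h2 := fib f hf (fun j => ⟨c j, hc j⟩)
  have h3 : Nat.card {x : Fin M → V // ∀ j, (x j : Fin n → Fin k → K) v = c j}
      = Nat.card {x : Fin M → V // f x = fun j => ⟨c j, hc j⟩} := by
    apply Nat.card_congr
    apply Equiv.subtypeEquivRight
    intro x
    constructor
    · intro h
      funext j
      apply Subtype.ext
      exact h j
    · intro h j
      have := congrArg Subtype.val (congrFun h j)
      exact this
  rw [h3]
  have e1 : Nat.card (Fin M → proj V v) = Nat.card (proj V v) ^ M := by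
    rw [Nat.card_fun, Nat.card_eq_fintype_card (α := Fin M), Fintype.card_fin]
  have e2 : Nat.card (Fin M → V) = Nat.card V ^ M := by
    rw [Nat.card_fun, Nat.card_eq_fintype_card (α := Fin M), Fintype.card_fin]
  rw [e1, e2] at h2
  exact h2

theorem fib2 (M : ℕ) (V : Submodule K (Fin n → Fin k → K)) (U : Submodule K (Fin k → K))
    (v w : Fin n) (hv : proj V v = U) (hw : proj V w = U) (hd : (v, w) ∉ dep V)
    (c : Fin M → Fin k → K) (hc : ∀ j, c j ∈ U) :
    Nat.card {x : Fin M → V // (∀ j, (x j : Fin n → Fin k → K) v = c j) ∧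
      ∀ j, (x j : Fin n → Fin k → K) w = c j} * (Nat.card U ^ M) ^ 2
      = Nat.card V ^ M := by
  classical
  have hd' : proj V v ≤ proj (pin V {w}) v := by
    by_contra h
    exact hd (Finset.mem_filter.2 ⟨Finset.mem_univ _, h⟩)
  have hmemv : ∀ y : V, (y : Fin n → Fin k → K) v ∈ U := fun y => by
    rw [← hv]; exact Submodule.mem_map.2 ⟨y, y.2, rfl⟩
  have hmemw : ∀ y : V, (y : Fin n → Fin k → K) w ∈ U := fun y => by
    rw [← hw]; exact Submodule.mem_map.2 ⟨y, y.2, rfl⟩
  let f : (Fin M → V) →+ (Fin M → U × U) :=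
    { toFun := fun x j => (⟨(x j : Fin n → Fin k → K) v, hmemv (x j)⟩,
        ⟨(x j : Fin n → Fin k → K) w, hmemw (x j)⟩)
      map_zero' := by
        funext j
        rfl
      map_add' := by
        intro x y
        funext j
        rfl }
  have hf : Function.Surjective f := by
    intro b
    have h1 : ∀ j, ∃ y : V, (y : Fin n → Fin k → K) v = ((b j).1 : Fin k → K) ∧
        (y : Fin n → Fin k → K) w = ((b j).2 : Fin k → K) := by
      intro j
      have hb2 : ((b j).2 : Fin k → K) ∈ proj V w := by rw [hw]; exact (b j).2.2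
      obtain ⟨y, hy, hy'⟩ := Submodule.mem_map.1 hb2
      have hy2 : y w = ((b j).2 : Fin k → K) := hy'
      have hyv : y v ∈ proj V v := Submodule.mem_map.2 ⟨y, hy, rfl⟩
      have hb1 : ((b j).1 : Fin k → K) - y v ∈ proj V v := by
        apply Submodule.sub_mem
        · rw [hv]; exact (b j).1.2
        · exact hyv
      obtain ⟨z, hz, hz'⟩ := Submodule.mem_map.1 (hd' hb1)
      have hz2 : z v = ((b j).1 : Fin k → K) - y v := hz'
      obtain ⟨hzV, hzw⟩ := hz
      refine ⟨⟨y + z, V.add_mem hy hzV⟩, ?_, ?_⟩
      · change y v + z v = _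
        rw [hz2]
        abel
      · change y w + z w = _
        rw [hzw w (Finset.mem_singleton_self w), hy2, add_zero]
    choose y hy using h1
    refine ⟨y, ?_⟩
    funext j
    apply Prod.ext
    · apply Subtype.ext
      exact (hy j).1
    · apply Subtype.ext
      exact (hy j).2
  have h2 := fib f hf (fun j => (⟨c j, hc j⟩, ⟨c j, hc j⟩))
  have h3 : Nat.card {x : Fin M → V // (∀ j, (x j : Fin n → Fin k → K) v = c j) ∧
      ∀ j, (x j : Fin n → Fin k → K) w = c j}
      = Nat.card {x : Fin M → V // f x = fun j => (⟨c j, hc j⟩, ⟨c j, hc j⟩)} := by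
    apply Nat.card_congr
    apply Equiv.subtypeEquivRight
    intro x
    constructor
    · intro h
      funext j
      apply Prod.ext
      · apply Subtype.ext
        exact h.1 j
      · apply Subtype.ext
        exact h.2 j
    · intro h
      constructor
      · intro j
        have := congrArg (fun p => Subtype.val (Prod.fst p)) (congrFun h j)
        exact this
      · intro j
        have := congrArg (fun p => Subtype.val (Prod.snd p)) (congrFun h j)
        exact this
  rw [h3]
  have e1 : Nat.card (Fin M → U × U) = (Nat.card U ^ M) ^ 2 := by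
    rw [Nat.card_fun, Nat.card_eq_fintype_card (α := Fin M), Fintype.card_fin, Nat.card_prod]
    ring
  have e2 : Nat.card (Fin M → V) = Nat.card V ^ M := by
    rw [Nat.card_fun, Nat.card_eq_fintype_card (α := Fin M), Fintype.card_fin]
  rw [e1, e2] at h2
  exact h2

end CHB_

open CHB_ in
theorem chb_proof : Stmt_CHB := by
  intro K _ _ n k M V U C hU c
  classical
  haveI : Fintype (Fin M → V) := Fintype.ofFinite _
  by_cases hc : ∀ j, c j ∈ U
  swap
  · have hempty : ∀ x : Fin M → V,
        Nat.card {v : Fin n // v ∈ C ∧ ∀ j, (x j : Fin n → Fin k → K) v = c j} = 0 := by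
      intro x
      haveI : IsEmpty {v : Fin n // v ∈ C ∧ ∀ j, (x j : Fin n → Fin k → K) v = c j} := by
        refine ⟨fun v => hc fun j => ?_⟩
        rw [← v.2.2 j, ← hU v.1 v.2.1]
        exact Submodule.mem_map.2 ⟨x j, (x j).2, rfl⟩
      exact Nat.card_of_isEmpty
    have h0 : Nat.card {x : Fin M → V // 2 * C.card <
        Nat.card {v : Fin n // v ∈ C ∧ ∀ j, (x j : Fin n → Fin k → K) v = c j} *
          Nat.card U ^ M} = 0 := by
      haveI : IsEmpty {x : Fin M → V // 2 * C.card <
        Nat.card {v : Fin n // v ∈ C ∧ ∀ j, (x j : Fin n → Fin k → K) v = c j} *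
          Nat.card U ^ M} := by
        refine ⟨fun x => ?_⟩
        have := x.2
        rw [hempty x.1] at this
        omega
      exact Nat.card_of_isEmpty
    rw [h0]
    omega
  -- main case
  set u : ℕ := Nat.card U ^ M with hu
  set W : ℕ := Nat.card V ^ M with hW
  set m : ℕ := C.card with hm
  let N : (Fin M → V) → ℕ := fun x =>
    (C.filter fun v => ∀ j, (x j : Fin n → Fin k → K) v = c j).card
  have hN : ∀ x : Fin M → V,
      Nat.card {v : Fin n // v ∈ C ∧ ∀ j, (x j : Fin n → Fin k → K) v = c j} = N x := by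
    intro x
    rw [Nat.card_eq_fintype_card, Fintype.card_subtype]
    congr 1
    ext v
    simp
  have hWcard : (Fintype.card (Fin M → V)) = W := by
    rw [← Nat.card_eq_fintype_card, Nat.card_fun, Nat.card_eq_fintype_card (α := Fin M),
      Fintype.card_fin]
  -- first moment
  have hS1 : (∑ x, N x) * u = m * W := by
    have h1 : ∑ x, N x = ∑ v ∈ C, Nat.card {x : Fin M → V //
        ∀ j, (x j : Fin n → Fin k → K) v = c j} := by
      simp only [N, Finset.card_filter]
      rw [Finset.sum_comm]
      apply Finset.sum_congr rfl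
      intro v _
      rw [Nat.card_eq_fintype_card, Fintype.card_subtype, Finset.card_filter]
    rw [h1, Finset.sum_mul, Finset.sum_congr rfl (fun v hv => fib1 M V U v (hU v hv) c hc),
      Finset.sum_const, smul_eq_mul]
  -- second moment
  have hS2 : (∑ x, N x ^ 2) * u ^ 2 ≤ m ^ 2 * W + (dep V).card * W * u ^ 2 := by
    have h1 : ∑ x, N x ^ 2 = ∑ p ∈ C ×ˢ C, Nat.card {x : Fin M → V //
        (∀ j, (x j : Fin n → Fin k → K) p.1 = c j) ∧
        ∀ j, (x j : Fin n → Fin k → K) p.2 = c j} := by
      have h2 : ∀ x : Fin M → V, N x ^ 2 = ∑ p ∈ C ×ˢ C,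
          if ((∀ j, (x j : Fin n → Fin k → K) p.1 = c j) ∧
            ∀ j, (x j : Fin n → Fin k → K) p.2 = c j) then 1 else 0 := by
        intro x
        rw [← Finset.card_filter, pow_two]
        simp only [N]
        rw [← Finset.card_product]
        congr 1
        ext p
        simp only [Finset.mem_product, Finset.mem_filter]
        tauto
      rw [Finset.sum_congr rfl (fun x _ => h2 x), Finset.sum_comm]
      apply Finset.sum_congr rfl
      intro v _
      rw [Nat.card_eq_fintype_card, Fintype.card_subtype, Finset.card_filter]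
    rw [h1, Finset.sum_mul]
    have hbd : ∀ p ∈ C ×ˢ C, Nat.card {x : Fin M → V //
        (∀ j, (x j : Fin n → Fin k → K) p.1 = c j) ∧
        ∀ j, (x j : Fin n → Fin k → K) p.2 = c j} * u ^ 2 ≤
        W + (if p ∈ dep V then W * u ^ 2 else 0) := by
      intro p hp
      rw [Finset.mem_product] at hp
      by_cases hd : p ∈ dep V
      · rw [if_pos hd]
        have h3 : Nat.card {x : Fin M → V //
            (∀ j, (x j : Fin n → Fin k → K) p.1 = c j) ∧
            ∀ j, (x j : Fin n → Fin k → K) p.2 = c j} ≤ W := by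
          rw [Nat.card_eq_fintype_card, ← hWcard]
          exact Fintype.card_subtype_le _
        calc _ ≤ W * u ^ 2 := Nat.mul_le_mul_right _ h3
          _ ≤ _ := Nat.le_add_left _ _
      · rw [if_neg hd, add_zero]
        exact le_of_eq (fib2 M V U p.1 p.2 (hU _ hp.1) (hU _ hp.2) hd c hc)
    refine (Finset.sum_le_sum hbd).trans ?_
    rw [Finset.sum_add_distrib, Finset.sum_const, Finset.card_product, smul_eq_mul,
      ← Finset.sum_filter, Finset.sum_const, smul_eq_mul]
    have h4 : ((C ×ˢ C).filter fun p => p ∈ dep V).card ≤ (dep V).card := by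
      apply Finset.card_le_card
      intro p hp
      exact (Finset.mem_filter.1 hp).2
    have h5 : ((C ×ˢ C).filter fun p => p ∈ dep V).card * (W * u ^ 2) ≤
        (dep V).card * (W * u ^ 2) := Nat.mul_le_mul_right _ h4
    calc C.card * C.card * W + ((C ×ˢ C).filter fun p => p ∈ dep V).card * (W * u ^ 2)
        ≤ C.card * C.card * W + (dep V).card * (W * u ^ 2) := Nat.add_le_add_left h5 _
      _ = m ^ 2 * W + (dep V).card * W * u ^ 2 := by rw [← hm]; ring
  -- Chebyshev over the integers
  have hcheb : (∑ x, ((N x : ℤ) * u - m) ^ 2) ≤ ((dep V).card : ℤ) * W * u ^ 2 := by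
    have e1 : (∑ x, ((N x : ℤ) * u - m) ^ 2) = (∑ x, (N x : ℤ) ^ 2) * u ^ 2
        - 2 * m * ((∑ x, (N x : ℤ)) * u) + m ^ 2 * (Fintype.card (Fin M → V)) := by
      have : ∀ x : Fin M → V, ((N x : ℤ) * u - m) ^ 2 = (N x : ℤ) ^ 2 * u ^ 2
          - 2 * m * ((N x : ℤ) * u) + m ^ 2 := by
        intro x; ring
      rw [Finset.sum_congr rfl (fun x _ => this x), Finset.sum_add_distrib,
        Finset.sum_sub_distrib, Finset.sum_const, ← Finset.mul_sum, ← Finset.sum_mul,
        ← Finset.sum_mul, Finset.card_univ, nsmul_eq_mul]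
      ring
    have hS1' : (∑ x, (N x : ℤ)) * u = m * W := by exact_mod_cast hS1
    have hS2' : (∑ x, (N x : ℤ) ^ 2) * u ^ 2 ≤ m ^ 2 * W + (dep V).card * W * u ^ 2 := by
      exact_mod_cast hS2
    rw [e1, hS1', hWcard]
    nlinarith [hS2']
  -- Markov
  have hfin : Nat.card {x : Fin M → V // 2 * m < N x * u}
      = (Finset.univ.filter fun x : Fin M → V => 2 * m < N x * u).card := by
    rw [Nat.card_eq_fintype_card, Fintype.card_subtype]
  have hmarkov : ((Finset.univ.filter fun x : Fin M → V => 2 * m < N x * u).card : ℤ) * m ^ 2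
      ≤ ∑ x, ((N x : ℤ) * u - m) ^ 2 := by
    calc ((Finset.univ.filter fun x : Fin M → V => 2 * m < N x * u).card : ℤ) * m ^ 2
        = ∑ x ∈ Finset.univ.filter (fun x : Fin M → V => 2 * m < N x * u), (m : ℤ) ^ 2 := by
          rw [Finset.sum_const, nsmul_eq_mul]
      _ ≤ ∑ x ∈ Finset.univ.filter (fun x : Fin M → V => 2 * m < N x * u),
            ((N x : ℤ) * u - m) ^ 2 := by
          apply Finset.sum_le_sum
          intro x hx
          have h6 : 2 * m < N x * u := (Finset.mem_filter.1 hx).2
          have h7 : (m : ℤ) ≤ (N x : ℤ) * u - m := by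
            have : (2 * m : ℤ) < (N x : ℤ) * u := by exact_mod_cast h6
            linarith
          have h8 : (0 : ℤ) ≤ m := Int.natCast_nonneg m
          exact pow_le_pow_left₀ h8 h7 2
      _ ≤ ∑ x, ((N x : ℤ) * u - m) ^ 2 := by
          apply Finset.sum_le_sum_of_subset_of_nonneg (Finset.filter_subset _ _)
          intro x _ _
          positivity
  have hset : Nat.card {x : Fin M → V // 2 * m <
      Nat.card {v : Fin n // v ∈ C ∧ ∀ j, (x j : Fin n → Fin k → K) v = c j} * u}
      = Nat.card {x : Fin M → V // 2 * m < N x * u} := by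
    apply Nat.card_congr
    apply Equiv.subtypeEquivRight
    intro x
    rw [hN x]
  rw [hset, hfin]
  have hfinal : ((Finset.univ.filter fun x : Fin M → V => 2 * m < N x * u).card : ℤ) * m ^ 2
      ≤ ((dep V).card : ℤ) * W * u ^ 2 := hmarkov.trans hcheb
  have hu2 : Nat.card U ^ (2 * M) = u ^ 2 := by
    rw [hu, ← pow_mul]
    congr 1
    ring
  rw [hu2]
  exact_mod_cast hfinal

end Pool.Agent.SLR
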