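import Pool.Agent.SLR.Stmts

set_option autoImplicit false

namespace Pool.Agent.SLR

open Module Finset
open scoped Nat

namespace CNT_

lemma card_mul_le {α β : Type} [Finite α] [Finite β] (f : α → β) (w c : ℕ)
    (h : ∀ b, Nat.card {a // f a = b} * w ≤ c) : Nat.card α * w ≤ Nat.card β * c := by
  classical
  cases nonempty_fintype α
  cases nonempty_fintype β
  have h1 : Nat.card α = ∑ b, Nat.card {a // f a = b} := by
    rw [← Nat.card_sigma]
    exact (Nat.card_congr (Equiv.sigmaFiberEquiv f)).symm
  rw [h1, Finset.sum_mul]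
  calc ∑ b, Nat.card {a // f a = b} * w ≤ ∑ b : β, c := Finset.sum_le_sum (fun b _ => h b)
    _ = Nat.card β * c := by simp [Nat.card_eq_fintype_card]

end CNT_

open CNT_ in
theorem cnt_proof (hLIN : Stmt_LIN) (hFIB : Stmt_FIB) (hFAC : Stmt_FAC) (hCXY : Stmt_CXY) :
    Stmt_CNT := by
  intro K _ _ d P δ hP n M b Uf
  classical
  haveI : Finite (Submodule K (Fin P.k → K)) :=
    Finite.of_injective (fun U => (U : Set (Fin P.k → K))) SetLike.coe_injective
  set q := Nat.card K with hqdef
  set G := Nat.card (Submodule K (Fin P.k → K)) with hG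
  have hq : 0 < q := Nat.card_pos
  let X := {p : (Fin d → Equiv.Perm (Fin n)) × (Fin M → Fin n → Fin P.k → K) //
        Typ Uf b M p.2 ∧ ∀ j, P.onPts p.1 (p.2 j) = 0}
  let F : X → (Fin d → Fin n → Submodule K (Fin P.k → K)) := fun p i v => Uf (p.1.1 i v)
  set E := 6 ^ n * n ! * q ^ (P.k * M * b * G) with hE
  set S := ∑ v, finrank K (Uf v) with hS
  have key : ∀ u, Nat.card {p : X // F p = u} * 1 ≤ E ^ d * q ^ (M * (δ * n)) := by
    intro u
    rw [mul_one]
    rcases isEmpty_or_nonempty {p : X // F p = u} with he | ⟨⟨p0, hp0⟩⟩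
    · rw [Nat.card_of_isEmpty]
      exact Nat.zero_le _
    -- the sums of the dimensions
    have hu : ∀ i, ∑ v, finrank K (u i v) = S := by
      intro i
      rw [← hp0, hS]
      exact Equiv.sum_comp (p0.1.1 i) (fun v => finrank K (Uf v))
    have hlin : S ≤ ∑ v, finrank K (P.img (Uf v) (fun i => u i v)) + δ * n := by
      have := hLIN K d P δ hP n p0.1.1 Uf
      rw [← hp0]
      exact this
    let Su := {p : (Fin M → Fin n → Fin P.k → K) × (Fin d → Fin M → Fin n → Fin P.k → K) //
      (∀ j v, p.1 j v ∈ Uf v) ∧ (∀ i j v, p.2 i j v ∈ u i v) ∧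
      ∀ j v, P.a0 (p.1 j v) + ∑ i, P.a i (p.2 i j v) = 0}
    let h : {p : X // F p = u} → Su := fun p =>
      ⟨(p.1.1.2, fun i j v => p.1.1.2 j (p.1.1.1 i v)), fun j v => p.1.2.1.1 j v, fun i j v => by
        have h1 := p.1.2.1.1 j (p.1.1.1 i v)
        have h2 : Uf (p.1.1.1 i v) = u i v := by
          have := congrFun (congrFun p.2 i) v
          exact this
        rw [← h2]
        exact h1, fun j v => by
        have h1 := congrFun (p.1.2.2 j) v
        exact h1⟩
    have hfib : ∀ s : Su, Nat.card {p // h p = s} * q ^ (M * S * d) ≤ E ^ d := by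
      intro s
      rcases isEmpty_or_nonempty {p // h p = s} with he | ⟨⟨p1, hp1⟩⟩
      · rw [Nat.card_of_isEmpty, zero_mul]
        exact Nat.zero_le _
      have htyp : Typ Uf b M s.1.1 := by
        rw [← hp1]
        exact p1.1.2.1
      let Λ := Submodule K (Fin P.k → K) × (Fin M → Fin P.k → K)
      let f : Fin n → Λ := fun v => (Uf v, fun j => s.1.1 j v)
      let g : Fin d → Fin n → Λ := fun i v => (u i v, fun j => s.1.2 i j v)
      set Φ := ∏ᶠ t : Λ, (Nat.card {v // f v = t})! with hΦ
      have hfac : Φ * q ^ (M * S) ≤ E := by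
        have h1 := hFAC K n P.k M b Uf s.1.1 htyp
        have h2 : Φ = ∏ᶠ t : Submodule K (Fin P.k → K) × (Fin M → Fin P.k → K),
            (Nat.card {v // Uf v = t.1 ∧ ∀ j, s.1.1 j v = t.2 j})! := by
          apply finprod_congr
          intro t
          congr 1
          apply Nat.card_congr
          apply Equiv.subtypeEquivRight
          intro v
          constructor
          · intro h
            exact ⟨congrArg Prod.fst h, fun j => congrFun (congrArg Prod.snd h) j⟩
          · rintro ⟨h1, h2⟩
            exact Prod.ext h1 (funext h2)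
        rw [h2]
        exact h1
      have hcard : Nat.card {p // h p = s} ≤ Φ ^ d := by
        let e : {p // h p = s} → (∀ i : Fin d, {σ : Equiv.Perm (Fin n) // ∀ v, f (σ v) = g i v}) :=
          fun p i => ⟨p.1.1.1.1 i, fun v => by
            have h1 : h p.1 = s := p.2
            have h2 : p.1.1.1.2 = s.1.1 := congrArg (fun t : Su => t.1.1) h1
            have h3 : (fun i j v => p.1.1.1.2 j (p.1.1.1.1 i v)) = s.1.2 :=
              congrArg (fun t : Su => t.1.2) h1
            have h4 : Uf (p.1.1.1.1 i v) = u i v := congrFun (congrFun p.1.2 i) v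
            apply Prod.ext
            · exact h4
            · funext j
              change s.1.1 j (p.1.1.1.1 i v) = s.1.2 i j v
              rw [← h3, ← h2]⟩
        have he : Function.Injective e := by
          intro p p' hpp
          have h1 : p.1.1.1.1 = p'.1.1.1.1 := by
            funext i
            exact congrArg Subtype.val (congrFun hpp i)
          have h2 : p.1.1.1.2 = p'.1.1.1.2 := by
            have a1 : p.1.1.1.2 = s.1.1 := congrArg (fun t : Su => t.1.1) p.2
            have a2 : p'.1.1.1.2 = s.1.1 := congrArg (fun t : Su => t.1.1) p'.2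
            rw [a1, a2]
          apply Subtype.ext
          apply Subtype.ext
          apply Subtype.ext
          exact Prod.ext h1 h2
        calc Nat.card {p // h p = s}
            ≤ Nat.card (∀ i : Fin d, {σ : Equiv.Perm (Fin n) // ∀ v, f (σ v) = g i v}) :=
              Nat.card_le_card_of_injective e he
          _ = ∏ i : Fin d, Nat.card {σ : Equiv.Perm (Fin n) // ∀ v, f (σ v) = g i v} :=
              Nat.card_pi
          _ ≤ ∏ i : Fin d, Φ := Finset.prod_le_prod' (fun i _ => hFIB n Λ f (g i))
          _ = Φ ^ d := by simp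
      calc Nat.card {p // h p = s} * q ^ (M * S * d) ≤ Φ ^ d * q ^ (M * S * d) :=
            Nat.mul_le_mul_right _ hcard
        _ = (Φ * q ^ (M * S)) ^ d := by rw [mul_pow, ← pow_mul]
        _ ≤ E ^ d := Nat.pow_le_pow_left hfac d
    have h1 := card_mul_le h (q ^ (M * S * d)) (E ^ d) hfib
    have h2 := hCXY K d P n M Uf u
    set I := ∑ v, finrank K (P.img (Uf v) (fun i => u i v)) with hI
    have h3 : ∑ v, (finrank K (Uf v) + ∑ i, finrank K (u i v)) = S + d * S := by
      rw [Finset.sum_add_distrib, Finset.sum_comm]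
      rw [Finset.sum_congr rfl (fun i _ => hu i)]
      simp [hS]
    rw [h3] at h2
    have h4 : Nat.card {p : X // F p = u} * q ^ (M * S * d) * q ^ (M * I) ≤
        q ^ (M * (S + d * S)) * E ^ d := by
      calc Nat.card {p : X // F p = u} * q ^ (M * S * d) * q ^ (M * I)
          ≤ Nat.card Su * E ^ d * q ^ (M * I) := Nat.mul_le_mul_right _ h1
        _ = Nat.card Su * q ^ (M * I) * E ^ d := by ring
        _ = q ^ (M * (S + d * S)) * E ^ d := by rw [h2]
    have h5 : Nat.card {p : X // F p = u} * q ^ (M * I) ≤ q ^ (M * S) * E ^ d := by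
      have h6 : 0 < q ^ (M * S * d) := pow_pos hq _
      apply Nat.le_of_mul_le_mul_left _ h6
      calc q ^ (M * S * d) * (Nat.card {p : X // F p = u} * q ^ (M * I))
          = Nat.card {p : X // F p = u} * q ^ (M * S * d) * q ^ (M * I) := by ring
        _ ≤ q ^ (M * (S + d * S)) * E ^ d := h4
        _ = q ^ (M * S * d) * (q ^ (M * S) * E ^ d) := by
            rw [← mul_assoc, ← pow_add]
            congr 2
            ring
    have h7 : q ^ (M * S) ≤ q ^ (M * (δ * n)) * q ^ (M * I) := by
      rw [← pow_add]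
      apply Nat.pow_le_pow_right hq
      rw [← mul_add]
      apply Nat.mul_le_mul_left
      omega
    have h8 : 0 < q ^ (M * I) := pow_pos hq _
    apply Nat.le_of_mul_le_mul_right _ h8
    calc Nat.card {p : X // F p = u} * q ^ (M * I) ≤ q ^ (M * S) * E ^ d := h5
      _ ≤ q ^ (M * (δ * n)) * q ^ (M * I) * E ^ d := Nat.mul_le_mul_right _ h7
      _ = E ^ d * q ^ (M * (δ * n)) * q ^ (M * I) := by ring
  have h1 := card_mul_le F 1 _ key
  rw [mul_one] at h1
  have h2 : Nat.card (Fin d → Fin n → Submodule K (Fin P.k → K)) = G ^ (d * n) := by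
    rw [Nat.card_pi]
    simp only [Nat.card_pi, Finset.prod_const, Finset.card_univ, Fintype.card_fin]
    rw [← pow_mul, mul_comm n d]
  rw [h2] at h1
  refine h1.trans (le_of_eq ?_)
  rw [hE]
  rw [mul_pow, mul_pow, ← pow_mul, ← pow_mul, mul_pow]
  rw [show M * (δ * n + d * P.k * G * b) = P.k * M * b * G * d + M * (δ * n) by ring, pow_add,
    mul_comm n d]
  ring

end Pool.Agent.SLR
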