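import Pool.Agent.SLR.Stmts2

set_option autoImplicit false

namespace Pool.Agent.SLR

open Module Finset Filter Topology
open scoped Nat

/-- projection of the product `F`-set to the first factor -/
theorem prodPerm_lift {d m n : ℕ} (τ : Fin d → Equiv.Perm (Fin m))
    (σ : Fin d → Equiv.Perm (Fin n)) (w : FreeGroup (Fin d)) (y : Fin m) (v : Fin n) :
    FreeGroup.lift (prodPerm τ σ) w (finProdFinEquiv (y, v))
      = finProdFinEquiv (FreeGroup.lift τ w y, FreeGroup.lift σ w v) := by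
  induction w using FreeGroup.induction_on generalizing y v with
  | C1 => simp
  | of i => simp [prodPerm]
  | inv_of i _ =>
    simp only [map_inv, FreeGroup.lift_apply_of]
    rw [Equiv.Perm.inv_eq_iff_eq]
    simp [prodPerm]
  | mul a b ha hb =>
    simp only [map_mul, Equiv.Perm.mul_apply, ha, hb]

/-- the number of fixed points of `w` on the product is at most `n` times the number on the first
factor -/
theorem prodPerm_fix {d m n : ℕ} (τ : Fin d → Equiv.Perm (Fin m))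
    (σ : Fin d → Equiv.Perm (Fin n)) (w : FreeGroup (Fin d)) :
    Nat.card {v : Fin (m * n) // FreeGroup.lift (prodPerm τ σ) w v = v}
      ≤ Nat.card {y : Fin m // FreeGroup.lift τ w y = y} * n := by
  have h : Nat.card ({y : Fin m // FreeGroup.lift τ w y = y} × Fin n)
      = Nat.card {y : Fin m // FreeGroup.lift τ w y = y} * n := by simp
  rw [← h]
  refine Nat.card_le_card_of_injective
    (fun v => (⟨(finProdFinEquiv.symm v.1).1, ?_⟩, (finProdFinEquiv.symm v.1).2)) ?_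
  · have h1 := v.2
    obtain ⟨⟨y, u⟩, hv⟩ := finProdFinEquiv.surjective v.1
    rw [← hv] at h1 ⊢
    rw [prodPerm_lift, finProdFinEquiv.apply_eq_iff_eq] at h1
    rw [Equiv.symm_apply_apply]
    exact (Prod.ext_iff.1 h1).1
  · intro a b hab
    have h0 := Prod.ext_iff.1 hab
    have h1 : (finProdFinEquiv.symm a.1).1 = (finProdFinEquiv.symm b.1).1 :=
      congrArg Subtype.val h0.1
    have h2 : (finProdFinEquiv.symm a.1).2 = (finProdFinEquiv.symm b.1).2 := h0.2
    exact Subtype.ext (finProdFinEquiv.symm.injective (Prod.ext h1 h2))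

/-- `n^(-c n) → 0` -/
theorem tendsto_small (c : ℝ) (hc : 0 < c) :
    Tendsto (fun n : ℕ => (n : ℝ) ^ (-(c * n))) atTop (𝓝 0) := by
  have h1 : ∀ᶠ n : ℕ in atTop, (n : ℝ) ^ (-(c * n)) ≤ Real.exp (-(c * n)) := by
    filter_upwards [eventually_ge_atTop 3] with n hn
    have hn' : (3 : ℝ) ≤ n := by exact_mod_cast hn
    have hn0 : (0 : ℝ) < n := by linarith
    rw [Real.rpow_def_of_pos hn0]
    apply Real.exp_le_exp.2
    have hl : 1 ≤ Real.log n := by
      rw [Real.le_log_iff_exp_le hn0]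
      have := Real.exp_one_lt_d9
      linarith
    nlinarith [mul_pos hc hn0]
  have h2 : Tendsto (fun n : ℕ => Real.exp (-(c * n))) atTop (𝓝 0) := by
    apply Real.tendsto_exp_atBot.comp
    apply tendsto_neg_atTop_atBot.comp
    exact Tendsto.const_mul_atTop hc tendsto_natCast_atTop_atTop
  refine tendsto_of_tendsto_of_tendsto_of_le_of_le' tendsto_const_nhds h2 ?_ h1
  exact Eventually.of_forall fun n => by positivity

theorem cov_proof {K : Type} [Field K] [Countable K] {d : ℕ}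
    (r : ∀ k l : ℕ, Matrix (Fin k) (Fin l) (FreeGroup (Fin d) →₀ K) → ℕ)
    (h1 : ∀ (k l : ℕ) (A : Matrix (Fin k) (Fin l) (FreeGroup (Fin d) →₀ K)) (n : ℕ)
        (σ : Fin d → Equiv.Perm (Fin n)), (mat A σ).rank ≤ r k l A * n)
    (h3 : ∀ (k l : ℕ) (A : Matrix (Fin k) (Fin l) (FreeGroup (Fin d) →₀ K)) (m : ℕ), 0 < m →
        ∀ (τ : Fin d → Equiv.Perm (Fin m)) (ε : ℝ), 0 < ε → ∃ c : ℝ, 0 < c ∧
        ∀ᶠ n : ℕ in atTop,
        (Nat.card {σ : Fin d → Equiv.Perm (Fin n) //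
            ((mat A (prodPerm τ σ)).rank : ℝ) ≤ (r k l A - ε) * (m * n : ℕ)} : ℝ)
          ≤ (n : ℝ) ^ (-(c * n)) * ((n ! : ℕ) : ℝ) ^ d)
    (m : ℕ → ℕ) (hm : ∀ j, 0 < m j) (τ : ∀ j : ℕ, Fin d → Equiv.Perm (Fin (m j))) :
    ∃ (n : ℕ → ℕ) (σ : ∀ j : ℕ, Fin d → Equiv.Perm (Fin (n j))), (∀ j, 0 < n j) ∧
      (∀ (j : ℕ) (w : FreeGroup (Fin d)),
        (Nat.card {v : Fin (m j * n j) // FreeGroup.lift (prodPerm (τ j) (σ j)) w v = v} : ℝ)
            / (m j * n j : ℕ)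
          ≤ (Nat.card {y : Fin (m j) // FreeGroup.lift (τ j) w y = y} : ℝ) / m j) ∧
      ∀ (k l : ℕ) (A : Matrix (Fin k) (Fin l) (FreeGroup (Fin d) →₀ K)),
        Tendsto (fun j : ℕ => ((mat A (prodPerm (τ j) (σ j))).rank : ℝ) / (m j * n j : ℕ)) atTop
          (𝓝 (r k l A : ℝ)) := by
  classical
  -- enumeration of all matrices
  let X : Type := Σ k : ℕ, Σ l : ℕ, Matrix (Fin k) (Fin l) (FreeGroup (Fin d) →₀ K)
  have : ∀ k l : ℕ, Countable (Matrix (Fin k) (Fin l) (FreeGroup (Fin d) →₀ K)) := fun k l =>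
    inferInstanceAs (Countable (Fin k → Fin l → (FreeGroup (Fin d) →₀ K)))
  have hX : Countable X := by
    unfold X
    infer_instance
  have : Nonempty X := ⟨⟨0, 0, fun _ _ => 0⟩⟩
  obtain ⟨e, he⟩ := exists_surjective_nat X
  -- choice for every `j`
  have hj : ∀ j : ℕ, ∃ (n : ℕ) (σ : Fin d → Equiv.Perm (Fin n)), 0 < n ∧
      ∀ i ≤ j, (r (e i).1 (e i).2.1 (e i).2.2 - 1 / ((j : ℝ) + 1)) * (m j * n : ℕ)
        < ((mat (e i).2.2 (prodPerm (τ j) σ)).rank : ℝ) := by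
    intro j
    have hb : ∀ i : ℕ, ∀ᶠ n : ℕ in atTop,
        ((j : ℝ) + 2) * (Nat.card {σ : Fin d → Equiv.Perm (Fin n) //
          ((mat (e i).2.2 (prodPerm (τ j) σ)).rank : ℝ)
            ≤ (r (e i).1 (e i).2.1 (e i).2.2 - 1 / ((j : ℝ) + 1)) * (m j * n : ℕ)} : ℝ)
          ≤ ((n ! : ℕ) : ℝ) ^ d := by
      intro i
      obtain ⟨c, hc, h⟩ := h3 (e i).1 (e i).2.1 (e i).2.2 (m j) (hm j) (τ j) (1 / ((j : ℝ) + 1))
        (by positivity)
      have h4 := (tendsto_small c hc).eventually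
        (Iio_mem_nhds (show (0 : ℝ) < 1 / ((j : ℝ) + 2) by positivity))
      filter_upwards [h, h4] with n hn hn4
      have hn5 : (n : ℝ) ^ (-(c * n)) < 1 / ((j : ℝ) + 2) := hn4
      have hpos : (0 : ℝ) < ((n ! : ℕ) : ℝ) ^ d := by positivity
      calc ((j : ℝ) + 2) * _ ≤ ((j : ℝ) + 2) * ((n : ℝ) ^ (-(c * n)) * ((n ! : ℕ) : ℝ) ^ d) := by
            gcongr
        _ ≤ ((j : ℝ) + 2) * ((1 / ((j : ℝ) + 2)) * ((n ! : ℕ) : ℝ) ^ d) := by
            gcongr
        _ = ((n ! : ℕ) : ℝ) ^ d := by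
            field_simp
    have hb2 : ∀ᶠ n : ℕ in atTop, ∀ i ∈ Finset.range (j + 1),
        ((j : ℝ) + 2) * (Nat.card {σ : Fin d → Equiv.Perm (Fin n) //
          ((mat (e i).2.2 (prodPerm (τ j) σ)).rank : ℝ)
            ≤ (r (e i).1 (e i).2.1 (e i).2.2 - 1 / ((j : ℝ) + 1)) * (m j * n : ℕ)} : ℝ)
          ≤ ((n ! : ℕ) : ℝ) ^ d := by
      rw [Finset.eventually_all]
      exact fun i _ => hb i
    obtain ⟨n, hn, hn0⟩ := (hb2.and (eventually_gt_atTop 0)).exists
    by_contra hcon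
    push Not at hcon
    have hall : ∀ σ : Fin d → Equiv.Perm (Fin n), ∃ i ∈ Finset.range (j + 1),
        ((mat (e i).2.2 (prodPerm (τ j) σ)).rank : ℝ)
            ≤ (r (e i).1 (e i).2.1 (e i).2.2 - 1 / ((j : ℝ) + 1)) * (m j * n : ℕ) := by
      intro σ
      obtain ⟨i, hi, h⟩ := hcon n σ hn0
      exact ⟨i, Finset.mem_range.2 (by omega), h⟩
    have hcard : Fintype.card (Fin d → Equiv.Perm (Fin n)) = (n !) ^ d := by
      rw [Fintype.card_fun, Fintype.card_perm, Fintype.card_fin, Fintype.card_fin]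
    have hsum : ((n !) ^ d : ℕ) ≤ ∑ i ∈ Finset.range (j + 1),
        Nat.card {σ : Fin d → Equiv.Perm (Fin n) //
          ((mat (e i).2.2 (prodPerm (τ j) σ)).rank : ℝ)
            ≤ (r (e i).1 (e i).2.1 (e i).2.2 - 1 / ((j : ℝ) + 1)) * (m j * n : ℕ)} := by
      rw [← hcard, ← Finset.card_univ]
      have hsub : (Finset.univ : Finset (Fin d → Equiv.Perm (Fin n))) ⊆
          (Finset.range (j + 1)).biUnion fun i => Finset.univ.filter fun σ =>
            ((mat (e i).2.2 (prodPerm (τ j) σ)).rank : ℝ)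
            ≤ (r (e i).1 (e i).2.1 (e i).2.2 - 1 / ((j : ℝ) + 1)) * (m j * n : ℕ) := by
        intro σ _
        obtain ⟨i, hi, h⟩ := hall σ
        exact Finset.mem_biUnion.2 ⟨i, hi, Finset.mem_filter.2 ⟨Finset.mem_univ _, h⟩⟩
      refine (Finset.card_le_card hsub).trans (Finset.card_biUnion_le.trans (le_of_eq ?_))
      refine Finset.sum_congr rfl fun i _ => ?_
      rw [Nat.card_eq_fintype_card, Fintype.card_subtype]
    have hsum' : (((n !) ^ d : ℕ) : ℝ) ≤ ∑ i ∈ Finset.range (j + 1),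
        (Nat.card {σ : Fin d → Equiv.Perm (Fin n) //
          ((mat (e i).2.2 (prodPerm (τ j) σ)).rank : ℝ)
            ≤ (r (e i).1 (e i).2.1 (e i).2.2 - 1 / ((j : ℝ) + 1)) * (m j * n : ℕ)} : ℝ) := by
      exact_mod_cast hsum
    have hpos : (0 : ℝ) < ((n ! : ℕ) : ℝ) ^ d := by positivity
    have hj2 : (0 : ℝ) < (j : ℝ) + 2 := by positivity
    have hsum2 : ((j : ℝ) + 2) * (((n !) ^ d : ℕ) : ℝ) ≤ ((j : ℝ) + 1) * ((n ! : ℕ) : ℝ) ^ d := by
      calc ((j : ℝ) + 2) * (((n !) ^ d : ℕ) : ℝ) ≤ ((j : ℝ) + 2) * ∑ i ∈ Finset.range (j + 1), _ :=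
            mul_le_mul_of_nonneg_left hsum' hj2.le
        _ = ∑ i ∈ Finset.range (j + 1), ((j : ℝ) + 2) * _ := Finset.mul_sum _ _ _
        _ ≤ ∑ _i ∈ Finset.range (j + 1), ((n ! : ℕ) : ℝ) ^ d := Finset.sum_le_sum hn
        _ = ((j : ℝ) + 1) * ((n ! : ℕ) : ℝ) ^ d := by
            rw [Finset.sum_const, Finset.card_range, nsmul_eq_mul]
            push_cast
            ring
    push_cast at hsum2
    nlinarith
  choose n σ hn0 hgood using hj
  refine ⟨n, σ, hn0, ?_, ?_⟩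
  · intro j w
    have hmj : (0 : ℝ) < m j := by exact_mod_cast hm j
    have hnj : (0 : ℝ) < n j := by exact_mod_cast hn0 j
    have h := prodPerm_fix (τ j) (σ j) w
    have h' : (Nat.card {v : Fin (m j * n j) // FreeGroup.lift (prodPerm (τ j) (σ j)) w v = v} : ℝ)
        ≤ (Nat.card {y : Fin (m j) // FreeGroup.lift (τ j) w y = y} : ℝ) * n j := by
      exact_mod_cast h
    push_cast
    rw [div_le_div_iff₀ (by positivity) hmj]
    nlinarith
  · intro k l A
    obtain ⟨i, hi⟩ := he ⟨k, l, A⟩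
    rw [Metric.tendsto_atTop]
    intro ε hε
    obtain ⟨N, hN⟩ := exists_nat_one_div_lt hε
    refine ⟨max N i, fun j hj => ?_⟩
    have hji : i ≤ j := (le_max_right _ _).trans hj
    have hjN : N ≤ j := (le_max_left _ _).trans hj
    have h5 := hgood j i hji
    rw [hi] at h5
    have hmj : (0 : ℝ) < m j := by exact_mod_cast hm j
    have hnj : (0 : ℝ) < n j := by exact_mod_cast hn0 j
    have hmn : (0 : ℝ) < (m j * n j : ℕ) := by
      push_cast
      positivity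
    have h6 : ((mat A (prodPerm (τ j) (σ j))).rank : ℝ) ≤ r k l A * (m j * n j : ℕ) := by
      exact_mod_cast h1 k l A (m j * n j) (prodPerm (τ j) (σ j))
    have h7 : 1 / ((j : ℝ) + 1) ≤ 1 / ((N : ℝ) + 1) := by
      have : (N : ℝ) ≤ j := by exact_mod_cast hjN
      gcongr
    rw [Real.dist_eq, abs_sub_lt_iff]
    constructor
    · have : ((mat A (prodPerm (τ j) (σ j))).rank : ℝ) / (m j * n j : ℕ) ≤ r k l A := by
        rw [div_le_iff₀ hmn]; exact h6
      linarith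
    · have : (r k l A - 1 / ((j : ℝ) + 1) : ℝ)
          < ((mat A (prodPerm (τ j) (σ j))).rank : ℝ) / (m j * n j : ℕ) := by
        rw [lt_div_iff₀ hmn]; exact h5
      linarith

end Pool.Agent.SLR
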