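import Pool.Agent.SLR.Stmts

set_option autoImplicit false

/-!
# SLR, module CXY: the number of solutions with values in given subspaces
-/

open scoped BigOperators
open Module

namespace Pool.Agent.SLR

namespace CXY_

variable {K : Type} [Field K] [Finite K] {d : ℕ}

/-- The linear map `(a, y) ↦ a0 a + ∑ a i (y i)`. -/
noncomputable def phi (P : Pencil K d) (A : Submodule K (Fin P.k → K))
    (B : Fin d → Submodule K (Fin P.k → K)) :
    (A × (∀ i, B i)) →ₗ[K] (Fin P.l → K) :=
  (P.a0.comp A.subtype).coprod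
    (∑ i, ((P.a i).comp (B i).subtype).comp (LinearMap.proj i))

omit [Finite K] in
lemma phi_apply (P : Pencil K d) (A : Submodule K (Fin P.k → K))
    (B : Fin d → Submodule K (Fin P.k → K)) (x : A × (∀ i, B i)) :
    phi P A B x = P.a0 (x.1 : Fin P.k → K) + ∑ i, P.a i (x.2 i : Fin P.k → K) := by
  simp [phi, LinearMap.coprod_apply, LinearMap.sum_apply]

omit [Finite K] in
lemma range_phi (P : Pencil K d) (A : Submodule K (Fin P.k → K))
    (B : Fin d → Submodule K (Fin P.k → K)) :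
    LinearMap.range (phi P A B) = P.img A B := by
  apply le_antisymm
  · rintro _ ⟨x, rfl⟩
    rw [phi_apply]
    refine Submodule.add_mem_sup ⟨x.1, x.1.2, rfl⟩ ?_
    exact Submodule.sum_mem _ fun i _ =>
      Submodule.mem_iSup_of_mem i ⟨x.2 i, (x.2 i).2, rfl⟩
  · unfold Pencil.img
    refine sup_le ?_ (iSup_le fun i => ?_)
    · rintro _ ⟨a, ha, rfl⟩
      refine ⟨(⟨a, ha⟩, 0), ?_⟩
      rw [phi_apply]
      simp
    · rintro _ ⟨y, hy, rfl⟩
      refine ⟨(0, Pi.single i ⟨y, hy⟩), ?_⟩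
      rw [phi_apply]
      have h : ∀ l, P.a l (((Pi.single i (⟨y, hy⟩ : B i) : ∀ i, B i) l : B l) : Fin P.k → K) =
          if l = i then P.a i y else 0 := by
        intro l
        by_cases hl : l = i
        · subst hl
          simp
        · simp [hl]
      simp only [h, Finset.sum_ite_eq', Finset.mem_univ, if_true]
      simp

lemma card_T (P : Pencil K d) (A : Submodule K (Fin P.k → K))
    (B : Fin d → Submodule K (Fin P.k → K)) :
    Nat.card {r : (Fin P.k → K) × (Fin d → Fin P.k → K) // r.1 ∈ A ∧ (∀ i, r.2 i ∈ B i) ∧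
      P.a0 r.1 + ∑ i, P.a i (r.2 i) = 0} * Nat.card K ^ finrank K (P.img A B) =
      Nat.card K ^ (finrank K A + ∑ i, finrank K (B i)) := by
  have e : {r : (Fin P.k → K) × (Fin d → Fin P.k → K) // r.1 ∈ A ∧ (∀ i, r.2 i ∈ B i) ∧
      P.a0 r.1 + ∑ i, P.a i (r.2 i) = 0} ≃ LinearMap.ker (phi P A B) :=
    { toFun := fun r => ⟨(⟨r.1.1, r.2.1⟩, fun i => ⟨r.1.2 i, r.2.2.1 i⟩), by
        rw [LinearMap.mem_ker, phi_apply]
        exact r.2.2.2⟩
      invFun := fun s => ⟨((s.1.1 : Fin P.k → K), fun i => (s.1.2 i : Fin P.k → K)),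
        s.1.1.2, fun i => (s.1.2 i).2, by
          have := s.2
          rw [LinearMap.mem_ker, phi_apply] at this
          exact this⟩
      left_inv := fun r => rfl
      right_inv := fun s => rfl }
  rw [Nat.card_congr e, Module.natCard_eq_pow_finrank (K := K), ← pow_add, ← range_phi,
    add_comm, LinearMap.finrank_range_add_finrank_ker, Module.finrank_prod,
    Module.finrank_pi_fintype]

end CXY_

open CXY_ in
theorem cxy_proof : Stmt_CXY := by
  intro K _ _ d P n M Uf u
  have e : {p : (Fin M → Fin n → Fin P.k → K) × (Fin d → Fin M → Fin n → Fin P.k → K) //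
      (∀ j v, p.1 j v ∈ Uf v) ∧ (∀ i j v, p.2 i j v ∈ u i v) ∧
      ∀ j v, P.a0 (p.1 j v) + ∑ i, P.a i (p.2 i j v) = 0} ≃
      (Fin M → ∀ v : Fin n, {r : (Fin P.k → K) × (Fin d → Fin P.k → K) // r.1 ∈ Uf v ∧
        (∀ i, r.2 i ∈ u i v) ∧ P.a0 r.1 + ∑ i, P.a i (r.2 i) = 0}) :=
    { toFun := fun p j v => ⟨(p.1.1 j v, fun i => p.1.2 i j v), p.2.1 j v,
        fun i => p.2.2.1 i j v, p.2.2.2 j v⟩
      invFun := fun r => ⟨(fun j v => (r j v).1.1, fun i j v => (r j v).1.2 i),
        fun j v => (r j v).2.1, fun i j v => (r j v).2.2.1 i, fun j v => (r j v).2.2.2⟩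
      left_inv := fun p => rfl
      right_inv := fun r => rfl }
  rw [Nat.card_congr e, Nat.card_pi, Finset.prod_const, Finset.card_univ, Fintype.card_fin,
    Nat.card_pi, mul_comm M, pow_mul, ← mul_pow, ← Finset.prod_pow_eq_pow_sum,
    ← Finset.prod_mul_distrib]
  rw [Finset.prod_congr rfl fun v _ => card_T P (Uf v) (fun i => u i v),
    Finset.prod_pow_eq_pow_sum, ← pow_mul, mul_comm M]

end Pool.Agent.SLR
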