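import Pool.Agent.SLR.Stmts

set_option autoImplicit false

/-! SLR, module EXD: the defect exists. -/

open Module

namespace Pool.Agent.SLR

theorem exd_proof : Stmt_EXD := by
  classical
  intro K _ d P
  let p : ℕ → Prop := fun m => ∃ U : Submodule K (Fin P.k → K),
    finrank K (P.img U (fun _ => U)) + m = finrank K U
  have h0 : p 0 := by
    refine ⟨⊥, ?_⟩
    have : P.img ⊥ (fun _ => (⊥ : Submodule K (Fin P.k → K))) = ⊥ := by
      simp [Pencil.img]
    rw [this]
    simp
  have hb : ∀ U : Submodule K (Fin P.k → K), finrank K U ≤ P.k := by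
    intro U
    have := Submodule.finrank_le U
    simpa using this
  refine ⟨Nat.findGreatest p P.k, ?_, Nat.findGreatest_spec (P := p) (Nat.zero_le _) h0⟩
  intro U
  by_contra hcon
  push Not at hcon
  have h1 : p (finrank K U - finrank K (P.img U (fun _ => U))) := ⟨U, by omega⟩
  have h2 := Nat.le_findGreatest (P := p) (n := P.k)
    (le_trans (Nat.sub_le _ _) (hb U)) h1
  omega

end Pool.Agent.SLR
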