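import Pool.Agent.SLR.Stmts

set_option autoImplicit false

namespace Pool.Agent.SLR

open Module Finset
open scoped Nat

namespace EXT_

variable {K K1 : Type} [Field K] [Field K1] [Algebra K K1]

/-- coordinates with respect to a basis -/
noncomputable def phi {m : ℕ} (b : Basis (Fin m) K K1) (k : ℕ) :
    (Fin k → K1) →ₗ[K] (Fin m → Fin k → K) where
  toFun x j a := b.repr (x a) j
  map_add' x y := by
    funext j a
    simp
  map_smul' c x := by
    funext j a
    simp

lemma phi_apply {m : ℕ} (b : Basis (Fin m) K K1) (k : ℕ) (x : Fin k → K1) (j : Fin m)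
    (a : Fin k) : phi b k x j a = b.repr (x a) j := rfl

lemma phi_inj {m : ℕ} (b : Basis (Fin m) K K1) (k : ℕ) : Function.Injective (phi b k) := by
  intro x y h
  funext a
  apply b.repr.injective
  ext j
  exact congrFun (congrFun h j) a

lemma phi_vecMul {m : ℕ} (b : Basis (Fin m) K K1) (k l : ℕ) (M : Matrix (Fin k) (Fin l) K)
    (x : Fin k → K1) :
    (M.vecMulLinear.compLeft (Fin m)) (phi b k x) =
      phi b l ((M.map (algebraMap K K1)).vecMulLinear x) := by
  funext j c
  rw [phi_apply, LinearMap.compLeft_apply]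
  simp only [Function.comp_apply, Matrix.vecMulLinear_apply, Matrix.vecMul, dotProduct,
    phi_apply, Matrix.map_apply]
  rw [map_sum]
  rw [Finsupp.finsetSum_apply]
  apply Finset.sum_congr rfl
  intro a _
  rw [mul_comm (x a), ← Algebra.smul_def, map_smul, Finsupp.smul_apply, smul_eq_mul, mul_comm]

end EXT_

open EXT_ in
theorem ext_proof (hFLT : Stmt_FLT) : Stmt_EXT := by
  intro K K1 _ _ _ _ d k l M0 M δ hP
  set m := finrank K K1 with hm
  have hmpos : 0 < m := finrank_pos
  let b : Basis (Fin m) K K1 := finBasis K K1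
  let P1 := penc (M0.map (algebraMap K K1)) (fun i => (M i).map (algebraMap K K1))
  change ∀ U : Submodule K1 (Fin k → K1), finrank K1 U ≤ finrank K1 (P1.img U (fun _ => U)) + δ
  intro U
  set T := P1.img U (fun _ => U) with hT
  let W : Submodule K (Fin m → Fin k → K) := (U.restrictScalars K).map (phi b k)
  have h1 := hFLT K d (penc M0 M) δ hP m W
  have hW : finrank K W = m * finrank K1 U := by
    have e : finrank K W = finrank K (U.restrictScalars K) :=
      (LinearEquiv.finrank_eq (Submodule.equivMapOfInjective (phi b k) (phi_inj b k)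
        (U.restrictScalars K))).symm
    rw [e]
    exact (finrank_mul_finrank K K1 U).symm
  have hTT : finrank K ((T.restrictScalars K).map (phi b l)) = m * finrank K1 T := by
    have e : finrank K ((T.restrictScalars K).map (phi b l)) = finrank K (T.restrictScalars K) :=
      (LinearEquiv.finrank_eq (Submodule.equivMapOfInjective (phi b l) (phi_inj b l)
        (T.restrictScalars K))).symm
    rw [e]
    exact (finrank_mul_finrank K K1 T).symm
  have hle : (W.map ((penc M0 M).a0.compLeft (Fin m)) ⊔
      ⨆ i, W.map (((penc M0 M).a i).compLeft (Fin m)) : Submodule K (Fin m → Fin l → K)) ≤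
      (T.restrictScalars K).map (phi b l) := by
    apply sup_le
    · rintro _ ⟨_, ⟨u, hu, rfl⟩, rfl⟩
      refine ⟨P1.a0 u, ?_, (phi_vecMul b k l M0 u).symm⟩
      exact (le_sup_left : U.map P1.a0 ≤ T) (Submodule.mem_map_of_mem hu)
    · apply iSup_le
      intro i
      rintro _ ⟨_, ⟨u, hu, rfl⟩, rfl⟩
      refine ⟨P1.a i u, ?_, (phi_vecMul b k l (M i) u).symm⟩
      have h2 : U.map (P1.a i) ≤ T :=
        le_trans (le_iSup (fun i => U.map (P1.a i)) i) le_sup_right
      exact h2 (Submodule.mem_map_of_mem hu)
  have hfin := Submodule.finrank_mono hle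
  rw [hTT] at hfin
  have h3 : m * finrank K1 U ≤ m * (finrank K1 T + δ) := by
    calc m * finrank K1 U = finrank K W := hW.symm
      _ ≤ _ := h1
      _ ≤ m * finrank K1 T + δ * m := Nat.add_le_add_right hfin _
      _ = m * (finrank K1 T + δ) := by ring
  exact Nat.le_of_mul_le_mul_left h3 hmpos

end Pool.Agent.SLR
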