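import Pool.Agent.SLR.Stmts

set_option autoImplicit false

namespace Pool.Agent.SLR

open Module Finset
open scoped Nat

namespace FAC_

lemma pow_self_le (n : ℕ) : n ^ n ≤ 3 ^ n * n ! := by
  have h1 : (n : ℝ) ^ n / (n ! : ℝ) ≤ Real.exp n :=
    Real.pow_div_factorial_le_exp (n : ℝ) (Nat.cast_nonneg n) n
  have h2 : Real.exp n ≤ 3 ^ n := by
    have h3 : Real.exp (n : ℝ) = (Real.exp 1) ^ n := by
      rw [← Real.exp_nat_mul, mul_one]
    rw [h3]
    apply pow_le_pow_left₀ (Real.exp_pos 1).le
    have := Real.exp_one_lt_d9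
    linarith
  have hpos : (0 : ℝ) < (n ! : ℝ) := by exact_mod_cast Nat.factorial_pos n
  have h4 : (n : ℝ) ^ n ≤ 3 ^ n * (n ! : ℝ) := by
    rw [← div_le_iff₀ hpos]
    exact le_trans h1 h2
  exact_mod_cast h4

end FAC_

open FAC_

theorem fac_proof : Stmt_FAC := by
  classical
  intro K _ _ n k M b Uf x hTyp
  obtain ⟨_, hT⟩ := hTyp
  let _ : Fintype (Submodule K (Fin k → K)) := Fintype.ofFinite _
  let _ : Fintype (Fin M → Fin k → K) := Fintype.ofFinite _
  set q := Nat.card K with hq
  have hq1 : 1 ≤ q := Nat.card_pos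
  let N : Submodule K (Fin k → K) → (Fin M → Fin k → K) → ℕ := fun U c =>
    Nat.card {v // Uf v = U ∧ ∀ j, x j v = c j}
  let Cc : Submodule K (Fin k → K) → ℕ := fun U => Nat.card {v // Uf v = U}
  -- the classes
  have hNsum : ∀ U, ∑ c, N U c = Cc U := by
    intro U
    show ∑ c : Fin M → Fin k → K, Nat.card {v // Uf v = U ∧ ∀ j, x j v = c j} =
      Nat.card {v // Uf v = U}
    have h1 : Nat.card {v // Uf v = U} = (univ.filter fun v => Uf v = U).card := by
      rw [Nat.card_eq_fintype_card, Fintype.card_subtype]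
    have h2 : ∀ c : Fin M → Fin k → K, Nat.card {v // Uf v = U ∧ ∀ j, x j v = c j} =
        ((univ.filter fun v => Uf v = U).filter fun v => (fun j => x j v) = c).card := by
      intro c
      rw [Nat.card_eq_fintype_card, Fintype.card_subtype, Finset.filter_filter]
      congr 1
      ext v
      simp only [Finset.mem_filter, Finset.mem_univ, true_and, funext_iff]
    rw [h1, Finset.sum_congr rfl (fun c _ => h2 c)]
    exact (Finset.card_eq_sum_card_fiberwise (fun v _ => Finset.mem_coe.2 (Finset.mem_univ _))).symm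
  have hCsum : ∑ U, Cc U = n := by
    have h2 : ∀ U, Cc U = ((univ : Finset (Fin n)).filter fun v => Uf v = U).card := by
      intro U
      show Nat.card {v // Uf v = U} = _
      rw [Nat.card_eq_fintype_card, Fintype.card_subtype]
    rw [Finset.sum_congr rfl (fun U _ => h2 U)]
    have h3 := (Finset.card_eq_sum_card_fiberwise (s := (univ : Finset (Fin n)))
      (t := (univ : Finset (Submodule K (Fin k → K)))) (f := Uf)
      (fun v _ => Finset.mem_coe.2 (Finset.mem_univ _)))
    rw [← h3, Finset.card_univ, Fintype.card_fin]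
  have hCn : ∀ U, Cc U ≤ n := by
    intro U
    rw [← hCsum]
    exact Finset.single_le_sum (f := Cc) (fun _ _ => Nat.zero_le _) (Finset.mem_univ U)
  have hNC : ∀ U c, N U c ≤ Cc U := by
    intro U c
    rw [← hNsum U]
    exact Finset.single_le_sum (f := N U) (fun _ _ => Nat.zero_le _) (Finset.mem_univ c)
  -- the power of `q`
  have hcardU : ∀ U : Submodule K (Fin k → K), Nat.card U = q ^ finrank K U :=
    fun U => Module.natCard_eq_pow_finrank
  have hqpow : q ^ (M * ∑ v, finrank K (Uf v)) =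
      ∏ U : Submodule K (Fin k → K), ((Nat.card U) ^ M) ^ Cc U := by
    have h1 : q ^ (M * ∑ v, finrank K (Uf v)) = ∏ v, (Nat.card (Uf v)) ^ M := by
      rw [Finset.mul_sum, ← Finset.prod_pow_eq_pow_sum]
      refine Finset.prod_congr rfl fun v _ => ?_
      rw [hcardU, ← pow_mul, mul_comm]
    rw [h1, ← Finset.prod_fiberwise (s := (univ : Finset (Fin n))) (g := Uf)]
    refine Finset.prod_congr rfl fun U _ => ?_
    have h2 : ∀ v ∈ univ.filter (fun v => Uf v = U), (Nat.card (Uf v)) ^ M = (Nat.card U) ^ M := by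
      intro v hv
      rw [(Finset.mem_filter.1 hv).2]
    rw [Finset.prod_congr rfl h2, Finset.prod_const]
    congr 1
    show _ = Nat.card {v // Uf v = U}
    rw [Nat.card_eq_fintype_card, Fintype.card_subtype]
  -- the estimate for one subspace
  have hU : ∀ U : Submodule K (Fin k → K), (∏ c, (N U c)!) * ((Nat.card U) ^ M) ^ Cc U ≤
      (2 * n) ^ Cc U * q ^ (k * M * b) := by
    intro U
    have hUpos : 1 ≤ Nat.card U := Nat.card_pos
    by_cases hb : b < Cc U
    · have h1 : ((Nat.card U) ^ M) ^ Cc U = ∏ c, ((Nat.card U) ^ M) ^ N U c := by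
        rw [Finset.prod_pow_eq_pow_sum, hNsum]
      have h2 : (∏ c, (N U c)!) * ((Nat.card U) ^ M) ^ Cc U ≤ ∏ c, (2 * n) ^ N U c := by
        rw [h1, ← Finset.prod_mul_distrib]
        refine Finset.prod_le_prod' fun c _ => ?_
        calc (N U c)! * ((Nat.card U) ^ M) ^ N U c
            ≤ (N U c) ^ (N U c) * ((Nat.card U) ^ M) ^ N U c :=
              Nat.mul_le_mul_right _ (Nat.factorial_le_pow _)
          _ = (N U c * (Nat.card U) ^ M) ^ N U c := (mul_pow _ _ _).symm
          _ ≤ (2 * Cc U) ^ N U c := Nat.pow_le_pow_left (hT U hb c) _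
          _ ≤ (2 * n) ^ N U c := Nat.pow_le_pow_left (Nat.mul_le_mul_left 2 (hCn U)) _
      rw [Finset.prod_pow_eq_pow_sum, hNsum] at h2
      refine le_trans h2 ?_
      exact Nat.le_mul_of_pos_right _ (Nat.pow_pos hq1)
    · have hb' : Cc U ≤ b := Nat.not_lt.1 hb
      have h1 : (∏ c, (N U c)!) ≤ (2 * n) ^ Cc U := by
        have h2 : (∏ c, (N U c)!) ≤ ∏ c, (2 * n) ^ N U c := by
          refine Finset.prod_le_prod' fun c _ => ?_
          refine le_trans (Nat.factorial_le_pow _) ?_
          apply Nat.pow_le_pow_left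
          have h3 := hNC U c
          have h4 := hCn U
          omega
        rwa [Finset.prod_pow_eq_pow_sum, hNsum] at h2
      have h2 : ((Nat.card U) ^ M) ^ Cc U ≤ q ^ (k * M * b) := by
        have h3 : Nat.card U ≤ q ^ k := by
          rw [hcardU]
          apply Nat.pow_le_pow_right hq1
          have := Submodule.finrank_le U
          simpa using this
        calc ((Nat.card U) ^ M) ^ Cc U ≤ ((q ^ k) ^ M) ^ Cc U :=
              Nat.pow_le_pow_left (Nat.pow_le_pow_left h3 M) _
          _ ≤ ((q ^ k) ^ M) ^ b :=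
              Nat.pow_le_pow_right (Nat.pow_pos (Nat.pow_pos hq1)) hb'
          _ = q ^ (k * M * b) := by rw [← pow_mul, ← pow_mul, mul_assoc]
      exact Nat.mul_le_mul h1 h2
  -- conclusion
  rw [finprod_eq_prod_of_fintype, Fintype.prod_prod_type, hqpow]
  have h1 : (∏ U : Submodule K (Fin k → K), ∏ c : Fin M → Fin k → K,
      (Nat.card {v // Uf v = (U, c).1 ∧ ∀ j, x j v = (U, c).2 j})!) =
      ∏ U, ∏ c, (N U c)! := rfl
  rw [h1, ← Finset.prod_mul_distrib]
  refine le_trans (Finset.prod_le_prod' fun U _ => hU U) ?_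
  rw [Finset.prod_mul_distrib, Finset.prod_pow_eq_pow_sum, hCsum, Finset.prod_const,
    Finset.card_univ, ← pow_mul, Nat.card_eq_fintype_card]
  apply Nat.mul_le_mul_right
  calc (2 * n) ^ n = 2 ^ n * n ^ n := mul_pow _ _ _
    _ ≤ 2 ^ n * (3 ^ n * n !) := Nat.mul_le_mul_left _ (pow_self_le n)
    _ = 6 ^ n * n ! := by
      rw [← mul_assoc, ← mul_pow]
      norm_num

end Pool.Agent.SLR
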