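import Pool.Agent.SLR.Stmts

set_option autoImplicit false

namespace Pool.Agent.SLR

open Module Finset Filter Topology
open scoped Nat

theorem fib_proof : Stmt_FIB := by
  classical
  intro n Λ _ f g
  haveI : Fintype Λ := Fintype.ofFinite Λ
  rw [finprod_eq_prod_of_fintype]
  by_cases h : ∃ σ₀ : Equiv.Perm (Fin n), ∀ v, f (σ₀ v) = g v
  · obtain ⟨σ₀, h₀⟩ := h
    have h1 : Nat.card {σ : Equiv.Perm (Fin n) // ∀ v, f (σ v) = g v} ≤
        Nat.card {τ : Equiv.Perm (Fin n) // f ∘ τ = f} := by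
      refine Nat.card_le_card_of_injective
        (fun σ : {σ : Equiv.Perm (Fin n) // ∀ v, f (σ v) = g v} =>
          (⟨σ.1 * σ₀⁻¹, ?_⟩ : {τ : Equiv.Perm (Fin n) // f ∘ τ = f})) ?_
      · funext v
        have h2 := σ.2 (σ₀⁻¹ v)
        have h3 := h₀ (σ₀⁻¹ v)
        rw [show σ₀ (σ₀⁻¹ v) = v from σ₀.apply_symm_apply v] at h3
        simp only [Function.comp_apply, Equiv.Perm.mul_apply]
        rw [h2, h3]
      · intro σ τ hστ
        have h2 := congrArg Subtype.val hστ
        simp only at h2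
        exact Subtype.ext (mul_right_cancel h2)
    refine h1.trans (le_of_eq ?_)
    rw [Nat.card_eq_fintype_card, DomMulAct.stabilizer_card]
    refine Finset.prod_congr rfl fun t _ => ?_
    rw [Nat.card_eq_fintype_card]
  · have h1 : IsEmpty {σ : Equiv.Perm (Fin n) // ∀ v, f (σ v) = g v} :=
      ⟨fun σ => h ⟨σ.1, σ.2⟩⟩
    rw [Nat.card_of_isEmpty]
    exact Nat.zero_le _

end Pool.Agent.SLR
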