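import Pool.Agent.SLR.Stmts

set_option autoImplicit false

/-!
# FIN: the theorem for pencils over finite fields
-/

namespace Pool.Agent.SLR

open Module Finset Filter Topology
open scoped Nat

theorem fin_proof (hB : Stmt_BAD) (hA : Stmt_ASY) : Stmt_FIN := by
  intro K _ _ d P δ hδ ε hε
  have hq : 2 ≤ Nat.card K := Finite.one_lt_card
  haveI : Finite (Submodule K (Fin P.k → K)) :=
    Finite.of_injective (fun U : Submodule K (Fin P.k → K) => (U : Set (Fin P.k → K)))
      SetLike.coe_injective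
  have hG : 1 ≤ Nat.card (Submodule K (Fin P.k → K)) := Nat.card_pos
  obtain ⟨c, hc, hev⟩ := hA (Nat.card K) (Nat.card (Submodule K (Fin P.k → K))) P.k d hq hG ε hε
  refine ⟨c, hc, ?_⟩
  filter_upwards [hev] with n hn
  apply hn
  intro M b m s hb h1 h2
  refine le_trans ?_ (hB K d P δ hδ n M b m s hb h1)
  refine Nat.mul_le_mul_right _ ?_
  refine Nat.card_le_card_of_injective
    (fun σ : {σ : Fin d → Equiv.Perm (Fin n) //
      (δ + ε) * n ≤ (finrank K (LinearMap.ker (P.onPts σ)) : ℝ)} =>
      (⟨σ.1, ?_⟩ : {σ : Fin d → Equiv.Perm (Fin n) //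
        δ * n + s ≤ finrank K (LinearMap.ker (P.onPts σ))})) ?_
  · have h3 := σ.2
    have h4 : ((δ * n + s : ℕ) : ℝ) ≤ (finrank K (LinearMap.ker (P.onPts σ.1)) : ℝ) := by
      push_cast
      linarith
    exact_mod_cast h4
  · intro σ τ h
    apply Subtype.ext
    exact congrArg (fun x => x.1) h

end Pool.Agent.SLR
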