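import Pool.Agent.SLR.Stmts

set_option autoImplicit false

namespace Pool.Agent.SLR

open Module Finset Filter Topology
open scoped Nat

namespace FIX_

/-- The one by one matrix `w - 1`. -/
noncomputable def Aw {d : ℕ} (w : FreeGroup (Fin d)) :
    Matrix (Fin 1) (Fin 1) (FreeGroup (Fin d) →₀ ℚ) :=
  Matrix.of fun _ _ => Finsupp.single w 1 - Finsupp.single 1 1

lemma mat_apply {d : ℕ} (w : FreeGroup (Fin d)) {n : ℕ} (σ : Fin d → Equiv.Perm (Fin n))
    (p q : Fin 1 × Fin n) :
    mat (Aw w) σ p q = (if FreeGroup.lift σ w q.2 = p.2 then 1 else 0) -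
      (if q.2 = p.2 then 1 else 0) := by
  unfold mat Aw
  simp only [Matrix.of_apply]
  rw [Finsupp.sum_sub_index]
  · rw [Finsupp.sum_single_index, Finsupp.sum_single_index]
    · simp
    · simp
    · simp
  · intro a b c
    split_ifs
    · rfl
    · simp

lemma rank_le {d : ℕ} (w : FreeGroup (Fin d)) {n : ℕ} (σ : Fin d → Equiv.Perm (Fin n)) :
    (mat (Aw w) σ).rank + Nat.card {v : Fin n // FreeGroup.lift σ w v = v} ≤ n := by
  classical
  set D : Fin 1 × Fin n → ℚ := fun q => if FreeGroup.lift σ w q.2 = q.2 then 0 else 1 with hD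
  have h1 : mat (Aw w) σ = mat (Aw w) σ * Matrix.diagonal D := by
    ext p q
    rw [Matrix.mul_diagonal, hD]
    simp only
    split_ifs with h
    · rw [mat_apply, h]
      simp
    · simp
  have h2 : (mat (Aw w) σ).rank ≤ (Matrix.diagonal D).rank := by
    conv_lhs => rw [h1]
    exact Matrix.rank_mul_le_right _ _
  rw [Matrix.rank_diagonal] at h2
  have h3 : Fintype.card {i // D i ≠ 0} = Nat.card {v : Fin n // ¬ FreeGroup.lift σ w v = v} := by
    rw [← Nat.card_eq_fintype_card]
    refine Nat.card_congr ⟨fun x => ⟨x.1.2, ?_⟩, fun v => ⟨(0, v.1), ?_⟩, ?_, ?_⟩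
    · intro h
      refine x.2 ?_
      simp [hD, h]
    · simp [hD, v.2]
    · intro x
      apply Subtype.ext
      apply Prod.ext
      · exact Subsingleton.elim _ _
      · rfl
    · intro v
      rfl
  have h4 : Nat.card {v : Fin n // FreeGroup.lift σ w v = v} +
      Nat.card {v : Fin n // ¬ FreeGroup.lift σ w v = v} = n := by
    rw [Nat.card_eq_fintype_card, Nat.card_eq_fintype_card]
    have := Fintype.card_subtype_compl (fun v : Fin n => FreeGroup.lift σ w v = v)
    have h5 := Fintype.card_subtype_le (fun v : Fin n => FreeGroup.lift σ w v = v)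
    rw [Fintype.card_fin] at this h5
    omega
  omega

lemma rank_pos {d : ℕ} (w : FreeGroup (Fin d)) {n : ℕ} (σ : Fin d → Equiv.Perm (Fin n))
    (h : FreeGroup.lift σ w ≠ 1) : 0 < (mat (Aw w) σ).rank := by
  rw [Nat.pos_iff_ne_zero]
  intro h0
  rw [Matrix.rank, Submodule.finrank_eq_zero, LinearMap.range_eq_bot] at h0
  have h0' : mat (Aw w) σ = 0 := by
    refine Matrix.ext fun i j => ?_
    have h5 : (mat (Aw w) σ).mulVec (Pi.single j 1) i = 0 := by
      have h6 : (mat (Aw w) σ).mulVecLin (Pi.single j 1) = 0 := by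
        rw [h0]
        rfl
      rw [Matrix.mulVecLin_apply] at h6
      rw [h6]
      rfl
    rw [Matrix.mulVec_single_one] at h5
    exact h5
  apply h
  ext v : 1
  by_contra hv
  have hv' : FreeGroup.lift σ w v ≠ v := hv
  have h1 := congrFun (congrFun h0' (0, FreeGroup.lift σ w v)) (0, v)
  rw [mat_apply] at h1
  simp [Ne.symm hv'] at h1

end FIX_

open FIX_ in
theorem fix_proof (hM : Stmt_MAIN1) (hR : Stmt_RFN) : Stmt_FIX := by
  intro d w hw ε hε
  obtain ⟨r, hr, hm⟩ := hM ℚ d 1 1 (Aw w)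
  obtain ⟨n₁, σ₁, h₁⟩ := hR d w hw
  have hr1 : 1 ≤ r := by
    by_contra hc
    have h0 : r = 0 := by omega
    have h2 := hr n₁ σ₁
    have h3 := rank_pos w σ₁ h₁
    rw [h0, zero_mul] at h2
    omega
  obtain ⟨c, hc, hev⟩ := hm ε hε
  refine ⟨c, hc, ?_⟩
  filter_upwards [hev] with n hn
  refine le_trans ?_ hn
  have key : ∀ σ : Fin d → Equiv.Perm (Fin n),
      ε * n ≤ (Nat.card {v : Fin n // FreeGroup.lift σ w v = v} : ℝ) →
      ((mat (Aw w) σ).rank : ℝ) ≤ (r - ε) * n := by
    intro σ hσ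
    have h2 := rank_le w σ
    have h3 : ((mat (Aw w) σ).rank : ℝ) +
        (Nat.card {v : Fin n // FreeGroup.lift σ w v = v} : ℝ) ≤ n := by exact_mod_cast h2
    have h4 : (1 : ℝ) ≤ r := by exact_mod_cast hr1
    have h5 : (1 : ℝ) * n ≤ r * n := mul_le_mul_of_nonneg_right h4 (Nat.cast_nonneg n)
    rw [sub_mul]
    linarith
  have hcard : Nat.card {σ : Fin d → Equiv.Perm (Fin n) //
      ε * n ≤ (Nat.card {v : Fin n // FreeGroup.lift σ w v = v} : ℝ)} ≤
      Nat.card {σ : Fin d → Equiv.Perm (Fin n) //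
        ((mat (Aw w) σ).rank : ℝ) ≤ (r - ε) * n} := by
    refine Nat.card_le_card_of_injective (fun x => ⟨x.1, key x.1 x.2⟩) ?_
    intro x y hxy
    apply Subtype.ext
    have h6 := congrArg Subtype.val hxy
    exact h6
  exact_mod_cast hcard

end Pool.Agent.SLR
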