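import Pool.Agent.SLR.Stmts

set_option autoImplicit false

namespace Pool.Agent.SLR

open Module

/-- `x ↦ (0, x)` -/
def cz (K : Type) [Field K] (m k : ℕ) : (Fin m → Fin k → K) →ₗ[K] (Fin (m + 1) → Fin k → K) where
  toFun x := Fin.cons 0 x
  map_add' x y := by
    funext i
    refine Fin.cases ?_ (fun i => ?_) i
    · simp
    · simp
  map_smul' c x := by
    funext i
    refine Fin.cases ?_ (fun i => ?_) i
    · simp
    · simp

theorem finrank_split {K : Type} [Field K] (m k : ℕ) (W : Submodule K (Fin (m + 1) → Fin k → K)) :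
    finrank K W = finrank K (W.map (LinearMap.proj (0 : Fin (m + 1)) :
      (Fin (m + 1) → Fin k → K) →ₗ[K] (Fin k → K))) + finrank K (W.comap (cz K m k)) := by
  let f : W →ₗ[K] (Fin k → K) := (LinearMap.proj (0 : Fin (m + 1)) :
      (Fin (m + 1) → Fin k → K) →ₗ[K] (Fin k → K)).domRestrict W
  have h1 := LinearMap.finrank_range_add_finrank_ker f
  have hr : LinearMap.range f = W.map (LinearMap.proj (0 : Fin (m + 1)) :
      (Fin (m + 1) → Fin k → K) →ₗ[K] (Fin k → K)) := by
    ext y
    constructor
    · rintro ⟨w, rfl⟩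
      exact ⟨w.1, w.2, rfl⟩
    · rintro ⟨w, hw, rfl⟩
      exact ⟨⟨w, hw⟩, rfl⟩
  let g : (W.comap (cz K m k)) →ₗ[K] LinearMap.ker f :=
    { toFun := fun x => ⟨⟨cz K m k x.1, x.2⟩, by
        rw [LinearMap.mem_ker]
        show (Fin.cons 0 x.1 : Fin (m + 1) → Fin k → K) 0 = 0
        simp⟩
      map_add' := fun x y => by
        apply Subtype.ext
        apply Subtype.ext
        exact (cz K m k).map_add x.1 y.1
      map_smul' := fun c x => by
        apply Subtype.ext
        apply Subtype.ext
        exact (cz K m k).map_smul c x.1 }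
  have hg : Function.Bijective g := by
    constructor
    · intro x y hxy
      have h2 : cz K m k x.1 = cz K m k y.1 := congrArg (fun z => z.1.1) hxy
      apply Subtype.ext
      funext i
      have h3 := congrFun h2 i.succ
      simpa [cz] using h3
    · rintro ⟨⟨w, hw⟩, hk⟩
      have h0 : w 0 = 0 := hk
      have hc : cz K m k (Fin.tail w) = w := by
        show (Fin.cons 0 (Fin.tail w) : Fin (m + 1) → Fin k → K) = w
        rw [← h0]
        exact Fin.cons_self_tail w
      refine ⟨⟨Fin.tail w, ?_⟩, ?_⟩
      · show cz K m k (Fin.tail w) ∈ W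
        rw [hc]
        exact hw
      · apply Subtype.ext
        apply Subtype.ext
        exact hc
  have h4 := (LinearEquiv.ofBijective g hg).finrank_eq
  rw [← h1, hr, h4]

theorem flt_proof : Stmt_FLT := by
  intro K _ d P δ hδ m
  induction m with
  | zero =>
    intro W
    have : finrank K W ≤ finrank K (Fin 0 → Fin P.k → K) := Submodule.finrank_le W
    have h0 : finrank K (Fin 0 → Fin P.k → K) = 0 := Module.finrank_zero_of_subsingleton
    omega
  | succ m ih =>
    intro W
    set Y : Submodule K (Fin (m + 1) → Fin P.l → K) := W.map (P.a0.compLeft (Fin (m + 1))) ⊔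
      ⨆ i, W.map ((P.a i).compLeft (Fin (m + 1))) with hY
    rw [finrank_split m P.k W, finrank_split m P.l Y]
    have h1 : Y.map (LinearMap.proj (0 : Fin (m + 1)) :
        (Fin (m + 1) → Fin P.l → K) →ₗ[K] (Fin P.l → K)) =
        P.img (W.map (LinearMap.proj (0 : Fin (m + 1)) :
        (Fin (m + 1) → Fin P.k → K) →ₗ[K] (Fin P.k → K))) (fun _ =>
          W.map (LinearMap.proj (0 : Fin (m + 1)) :
        (Fin (m + 1) → Fin P.k → K) →ₗ[K] (Fin P.k → K))) := by
      rw [hY, Submodule.map_sup, Submodule.map_iSup]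
      unfold Pencil.img
      congr 1
      · rw [← Submodule.map_comp, ← Submodule.map_comp]
        rfl
      · congr 1
        funext i
        rw [← Submodule.map_comp, ← Submodule.map_comp]
        rfl
    have h2 := hδ (W.map (LinearMap.proj (0 : Fin (m + 1)) :
        (Fin (m + 1) → Fin P.k → K) →ₗ[K] (Fin P.k → K)))
    rw [← h1] at h2
    have h3 := ih (W.comap (cz K m P.k))
    have key : ∀ (f : (Fin P.k → K) →ₗ[K] (Fin P.l → K)),
        W.map (f.compLeft (Fin (m + 1))) ≤ Y →
        (W.comap (cz K m P.k)).map (f.compLeft (Fin m)) ≤ Y.comap (cz K m P.l) := by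
      rintro f hf _ ⟨x, hx, rfl⟩
      rw [Submodule.mem_comap]
      apply hf
      refine ⟨cz K m P.k x, hx, ?_⟩
      funext i
      refine Fin.cases ?_ (fun i => ?_) i
      · simp [cz, LinearMap.compLeft]
      · simp [cz, LinearMap.compLeft]
    have h4 : (W.comap (cz K m P.k)).map (P.a0.compLeft (Fin m)) ⊔
        ⨆ i, (W.comap (cz K m P.k)).map ((P.a i).compLeft (Fin m)) ≤ Y.comap (cz K m P.l) := by
      apply sup_le
      · exact key P.a0 le_sup_left
      · apply iSup_le
        intro i
        exact key (P.a i) (le_trans (le_iSup (fun i => W.map ((P.a i).compLeft (Fin (m + 1)))) i)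
          le_sup_right)
    have h5 := Submodule.finrank_mono h4
    rw [mul_add, mul_one]
    omega

end Pool.Agent.SLR
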