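import Pool.Agent.SLR.Stmts

set_option autoImplicit false

/-!
# SLR, module FRF: a finitely generated subring of a field has a homomorphism to a finite field
-/

open Module

namespace Pool.Agent.SLR

namespace FRF_

/-- A field which is a finitely generated abelian group is finite. -/
lemma finite_of_fin (κ : Type) [Field κ] [Module.Finite ℤ κ] : Finite κ := by
  obtain ⟨p, hp⟩ := CharP.exists κ
  by_cases h0 : p = 0
  · subst h0
    have : CharZero κ := CharP.charP_to_charZero κ
    exfalso
    have h1 : IsField ℤ := isField_of_isIntegral_of_isField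
      (R := ℤ) (S := κ) (by
        intro a b h
        simpa using h) (Field.toIsField κ)
    have h2 := h1.mul_inv_cancel (a := 2) (by norm_num)
    obtain ⟨b, hb⟩ := h2
    omega
  · have ht : Module.IsTorsion ℤ κ := by
      intro x
      refine ⟨⟨(p : ℤ), ?_⟩, ?_⟩
      · rw [mem_nonZeroDivisors_iff_ne_zero]
        exact_mod_cast h0
      · rw [Submonoid.mk_smul, zsmul_eq_mul]
        simp
    exact Module.finite_of_fg_torsion κ ht

lemma jacobson_int : IsJacobsonRing ℤ := by
  rw [isJacobsonRing_iff_prime_eq]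
  intro P hP
  by_cases h0 : P = ⊥
  · subst h0
    rw [eq_bot_iff]
    intro x hx
    rw [Ideal.mem_jacobson_bot] at hx
    have h1 := Int.isUnit_iff.1 (hx x)
    have h2 : 0 ≤ x * x := mul_self_nonneg x
    have h3 : x * x = 0 := by omega
    have h4 : x = 0 := mul_self_eq_zero.1 h3
    simp [h4]
  · have hm : P.IsMaximal := IsPrime.to_maximal_ideal h0
    exact Ideal.jacobson_eq_self_of_isMaximal

end FRF_

open FRF_ in
theorem frf_proof : Stmt_FRF := by
  intro K _ S
  have hft : Algebra.FiniteType ℤ (Algebra.adjoin ℤ (S : Set K)) :=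
    (Subalgebra.fg_iff_finiteType _).1 (Subalgebra.fg_adjoin_finset S)
  have hj : IsJacobsonRing ℤ := jacobson_int
  obtain ⟨m, hm⟩ := Ideal.exists_maximal (Algebra.adjoin ℤ (S : Set K))
  let _ : Field ((Algebra.adjoin ℤ (S : Set K)) ⧸ m) := Ideal.Quotient.field m
  have hft2 : Algebra.FiniteType ℤ ((Algebra.adjoin ℤ (S : Set K)) ⧸ m) := inferInstance
  have hfin : Module.Finite ℤ ((Algebra.adjoin ℤ (S : Set K)) ⧸ m) :=
    finite_of_finite_type_of_isJacobsonRing ℤ _
  exact ⟨(Algebra.adjoin ℤ (S : Set K)) ⧸ m, inferInstance, finite_of_fin _,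
    ⟨Ideal.Quotient.mk m⟩⟩

end Pool.Agent.SLR
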