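import Pool.Agent.SLR.Stmts2

set_option autoImplicit false

namespace Pool.Agent.SLR

open Module Finset Filter Topology
open scoped Nat

/-- `ω n : d`-tuple of permutations of `Fin n`. The sequence of `F`-sets is a sofic approximation of
the free group `F`: the proportion of fixed points of `w` tends to `1` if `w = 1`, and to `0` otherwise. -/
def IsSofic {d : ℕ} (ω : ∀ n : ℕ, Om d n) : Prop :=
  ∀ w : FreeGroup (Fin d), Tendsto (fun n : ℕ =>
    (Nat.card {v : Fin n // FreeGroup.lift (ω n) w v = v} : ℝ) / n) atTop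
      (𝓝 (if w = 1 then 1 else 0))

/-- auxiliary: from the quantitative statements to almost sure statements. -/
theorem ae_rank (hB : Stmt_BCL) {K : Type} [Field K] {d k l : ℕ}
    (A : Matrix (Fin k) (Fin l) (FreeGroup (Fin d) →₀ K)) (r : ℕ)
    (h1 : ∀ (n : ℕ) (σ : Fin d → Equiv.Perm (Fin n)), (mat A σ).rank ≤ r * n)
    (h2 : ∀ ε : ℝ, 0 < ε → ∃ c : ℝ, 0 < c ∧ ∀ᶠ n : ℕ in atTop,
      (Nat.card {σ : Fin d → Equiv.Perm (Fin n) // ((mat A σ).rank : ℝ) ≤ (r - ε) * n} : ℝ)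
        ≤ (n : ℝ) ^ (-(c * n)) * ((n ! : ℕ) : ℝ) ^ d) :
    ∀ᵐ ω ∂(law d), Tendsto (fun n : ℕ => ((mat A (ω n)).rank : ℝ) / n) atTop (𝓝 (r : ℝ)) := by
  have h3 : ∀ j : ℕ, ∀ᵐ ω ∂(law d), ∀ᶠ n : ℕ in atTop,
      ¬ (((mat A (ω n)).rank : ℝ) ≤ (r - 1 / (j + 1)) * n) := by
    intro j
    obtain ⟨c, hc, h⟩ := h2 (1 / (j + 1)) (by positivity)
    exact hB d (fun n => {σ : Om d n | ((mat A σ).rank : ℝ) ≤ (r - 1 / (j + 1)) * n}) c hc h
  rw [← MeasureTheory.ae_all_iff] at h3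
  filter_upwards [h3] with ω hω
  rw [Metric.tendsto_atTop]
  intro ε hε
  obtain ⟨j, hj⟩ := exists_nat_one_div_lt hε
  have h4 := hω j
  rw [eventually_atTop] at h4
  obtain ⟨N, hN⟩ := h4
  refine ⟨max N 1, fun n hn => ?_⟩
  have hn1 : (0 : ℝ) < n := by
    have : 1 ≤ n := le_trans (le_max_right _ _) hn
    exact_mod_cast this
  have h5 := hN n (le_trans (le_max_left _ _) hn)
  push Not at h5
  have h6 : ((mat A (ω n)).rank : ℝ) ≤ r * n := by exact_mod_cast h1 n (ω n)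
  rw [Real.dist_eq, abs_sub_lt_iff]
  constructor
  · have : ((mat A (ω n)).rank : ℝ) / n ≤ r := by
      rw [div_le_iff₀ hn1]; exact h6
    linarith
  · have : (r - 1 / (j + 1) : ℝ) < ((mat A (ω n)).rank : ℝ) / n := by
      rw [lt_div_iff₀ hn1]; exact h5
    linarith

theorem ae_sofic (hB : Stmt_BCL) (hF : Stmt_FIX) (d : ℕ) : ∀ᵐ ω ∂(law d), IsSofic ω := by
  unfold IsSofic
  rw [MeasureTheory.ae_all_iff]
  intro w
  by_cases hw : w = 1
  · refine Filter.Eventually.of_forall fun ω => ?_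
    subst hw
    simp only [if_true]
    refine tendsto_const_nhds.congr' ?_
    filter_upwards [eventually_gt_atTop 0] with n hn
    have : Nat.card {v : Fin n // (FreeGroup.lift (ω n)) 1 v = v} = n := by
      simp
    rw [this]
    have : (n : ℝ) ≠ 0 := by exact_mod_cast hn.ne'
    field_simp
  · simp only [if_neg hw]
    have h3 : ∀ j : ℕ, ∀ᵐ (ω : ∀ n : ℕ, Om d n) ∂(law d), ∀ᶠ n : ℕ in atTop,
        ¬ ((1 / ((j : ℝ) + 1)) * n ≤ (Nat.card {v : Fin n // FreeGroup.lift (ω n) w v = v} : ℝ)) := by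
      intro j
      obtain ⟨c, hc, h⟩ := hF d w hw (1 / ((j : ℝ) + 1)) (by positivity)
      exact hB d (fun n => {σ : Om d n | (1 / ((j : ℝ) + 1)) * n ≤
        (Nat.card {v : Fin n // FreeGroup.lift (β := Equiv.Perm (Fin n)) σ w v = v} : ℝ)}) c hc h
    rw [← MeasureTheory.ae_all_iff] at h3
    filter_upwards [h3] with ω hω
    rw [Metric.tendsto_atTop]
    intro ε hε
    obtain ⟨j, hj⟩ := exists_nat_one_div_lt hε
    have h4 := hω j
    rw [eventually_atTop] at h4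
    obtain ⟨N, hN⟩ := h4
    refine ⟨max N 1, fun n hn => ?_⟩
    have hn1 : (0 : ℝ) < n := by
      have : 1 ≤ n := le_trans (le_max_right _ _) hn
      exact_mod_cast this
    have h5 := hN n (le_trans (le_max_left _ _) hn)
    push Not at h5
    rw [Real.dist_eq, sub_zero, abs_of_nonneg (by positivity)]
    rw [div_lt_iff₀ hn1]
    calc (Nat.card {v : Fin n // FreeGroup.lift (ω n) w v = v} : ℝ) < (1 / ((j : ℝ) + 1)) * n := h5
      _ ≤ ε * n := by gcongr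

/-- Main theorem (assembled from the modules). -/
theorem main_of (hB : Stmt_BCL) (hF : Stmt_FIX) (hM : Stmt_MAIN2) (K : Type) [Field K] (d : ℕ) :
    ∃ r : ∀ k l : ℕ, Matrix (Fin k) (Fin l) (FreeGroup (Fin d) →₀ K) → ℕ,
      (∀ (k l : ℕ) (A : Matrix (Fin k) (Fin l) (FreeGroup (Fin d) →₀ K)) (n : ℕ)
        (σ : Fin d → Equiv.Perm (Fin n)), (mat A σ).rank ≤ r k l A * n) ∧
      (∀ (k l : ℕ) (A : Matrix (Fin k) (Fin l) (FreeGroup (Fin d) →₀ K)) (ε : ℝ), 0 < ε →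
        ∃ c : ℝ, 0 < c ∧ ∀ᶠ n : ℕ in atTop,
        (Nat.card {σ : Fin d → Equiv.Perm (Fin n) //
            ((mat A σ).rank : ℝ) ≤ (r k l A - ε) * n} : ℝ)
          ≤ (n : ℝ) ^ (-(c * n)) * ((n ! : ℕ) : ℝ) ^ d) ∧
      (∀ (k l : ℕ) (A : Matrix (Fin k) (Fin l) (FreeGroup (Fin d) →₀ K)) (m : ℕ), 0 < m →
        ∀ (τ : Fin d → Equiv.Perm (Fin m)) (ε : ℝ), 0 < ε → ∃ c : ℝ, 0 < c ∧
        ∀ᶠ n : ℕ in atTop,
        (Nat.card {σ : Fin d → Equiv.Perm (Fin n) //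
            ((mat A (prodPerm τ σ)).rank : ℝ) ≤ (r k l A - ε) * (m * n : ℕ)} : ℝ)
          ≤ (n : ℝ) ^ (-(c * n)) * ((n ! : ℕ) : ℝ) ^ d) ∧
      (∀ (k l : ℕ) (A : Matrix (Fin k) (Fin l) (FreeGroup (Fin d) →₀ K)),
        ∀ᵐ ω ∂(law d), IsSofic ω ∧
          Tendsto (fun n : ℕ => ((mat A (ω n)).rank : ℝ) / n) atTop (𝓝 (r k l A : ℝ))) ∧
      (Countable K → ∀ᵐ ω ∂(law d), IsSofic ω ∧
        ∀ (k l : ℕ) (A : Matrix (Fin k) (Fin l) (FreeGroup (Fin d) →₀ K)),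
          Tendsto (fun n : ℕ => ((mat A (ω n)).rank : ℝ) / n) atTop (𝓝 (r k l A : ℝ))) := by
  choose r h1 h2 h3 using hM K d
  refine ⟨r, h1, h2, h3, ?_, ?_⟩
  · intro k l A
    filter_upwards [ae_sofic hB hF d, ae_rank hB A (r k l A) (h1 k l A) (h2 k l A)] with ω a b
    exact ⟨a, b⟩
  · intro hK
    have h4 : ∀ᵐ ω ∂(law d), ∀ (k l : ℕ) (A : Matrix (Fin k) (Fin l) (FreeGroup (Fin d) →₀ K)),
          Tendsto (fun n : ℕ => ((mat A (ω n)).rank : ℝ) / n) atTop (𝓝 (r k l A : ℝ)) := by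
      rw [MeasureTheory.ae_all_iff]
      intro k
      rw [MeasureTheory.ae_all_iff]
      intro l
      have : Countable (Matrix (Fin k) (Fin l) (FreeGroup (Fin d) →₀ K)) :=
        inferInstanceAs (Countable (Fin k → Fin l → (FreeGroup (Fin d) →₀ K)))
      rw [MeasureTheory.ae_all_iff]
      intro A
      exact ae_rank hB A (r k l A) (h1 k l A) (h2 k l A)
    filter_upwards [ae_sofic hB hF d, h4] with ω a b
    exact ⟨a, b⟩

end Pool.Agent.SLR
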