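import Pool.Agent.SLR.Stmts

set_option autoImplicit false

namespace Pool.Agent.SLR

open Module Finset

theorem lin_proof (hL : Stmt_LING) : Stmt_LIN := by
  intro K _ d P δ hP n σ U
  classical
  have h := fun v : Fin n => hL K d P δ hP (Equiv.Perm (Fin n)) σ (fun g => U (g v))
  have h2 := Finset.sum_le_sum fun v (_ : v ∈ (Finset.univ : Finset (Fin n))) => h v
  have key : ∀ F : Fin n → ℕ, ∑ v : Fin n, ∑ g : Equiv.Perm (Fin n), F (g v)
      = Fintype.card (Equiv.Perm (Fin n)) * ∑ v, F v := by
    intro F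
    rw [Finset.sum_comm]
    have : ∀ g : Equiv.Perm (Fin n), ∑ v, F (g v) = ∑ v, F v := fun g => Equiv.sum_comp g F
    simp_rw [this]
    simp
  have k1 := key (fun v => finrank K (U v))
  have k2 := key (fun v => finrank K (P.img (U v) (fun i => U (σ i v))))
  rw [Finset.sum_add_distrib] at h2
  have k2' : ∑ v : Fin n, ∑ g : Equiv.Perm (Fin n),
      finrank K (P.img (U (g v)) (fun i => U ((σ i * g) v)))
      = Fintype.card (Equiv.Perm (Fin n)) * ∑ v, finrank K (P.img (U v) (fun i => U (σ i v))) := k2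
  rw [k1, k2'] at h2
  have hpos : 0 < Fintype.card (Equiv.Perm (Fin n)) := Fintype.card_pos
  refine Nat.le_of_mul_le_mul_left ?_ hpos
  refine h2.trans (le_of_eq ?_)
  simp only [Finset.sum_const, Finset.card_univ, Fintype.card_fin, smul_eq_mul]
  ring

end Pool.Agent.SLR
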