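import Pool.Agent.SLR.Stmts

/-!
# (LNZ) linearization of matrices over the group algebra of a free group
-/

set_option autoImplicit false

namespace Pool.Agent.SLR

open Module Finset

namespace LNZaux

variable {K : Type} [Field K] {d : ℕ}

/-- Families of maps which are computed by a linear pencil. -/
def Rep (R T : Type) [AddCommGroup R] [Module K R] [AddCommGroup T] [Module K T]
    (F : ∀ n : ℕ, (Fin d → Equiv.Perm (Fin n)) → (Fin n → R) → (Fin n → T)) : Prop :=
  ∃ (E L : Type) (_ : AddCommGroup E) (_ : Module K E) (_ : FiniteDimensional K E)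
    (_ : AddCommGroup L) (_ : Module K L) (_ : FiniteDimensional K L)
    (a0 : E →ₗ[K] L) (a : Fin d → (E →ₗ[K] L)) (r : E →ₗ[K] R) (t : E →ₗ[K] T),
    ∀ (n : ℕ) (σ : Fin d → Equiv.Perm (Fin n)) (z : Fin n → R), ∃ x : Fin n → E,
      (∀ v, a0 (x v) + ∑ i, a i (x (σ i v)) = 0) ∧ (∀ v, r (x v) = z v) ∧
      (∀ v, t (x v) = F n σ z v) ∧
      ∀ y : Fin n → E, (∀ v, a0 (y v) + ∑ i, a i (y (σ i v)) = 0) → (∀ v, r (y v) = z v) → y = x

variable {R T : Type} [AddCommGroup R] [Module K R] [AddCommGroup T] [Module K T]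

lemma rep_pure [FiniteDimensional K R] (B : R →ₗ[K] T) :
    Rep (K := K) (d := d) R T (fun _ _ z v => B (z v)) := by
  refine ⟨R, PUnit, inferInstance, inferInstance, inferInstance, inferInstance, inferInstance,
    inferInstance, 0, fun _ => 0, LinearMap.id, B, ?_⟩
  intro n σ z
  exact ⟨z, fun v => Subsingleton.elim _ _, fun v => rfl, fun v => rfl,
    fun y _ hy => funext fun v => hy v⟩

lemma rep_of [FiniteDimensional K T]
    {F : ∀ n : ℕ, (Fin d → Equiv.Perm (Fin n)) → (Fin n → R) → (Fin n → T)}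
    (hF : Rep (K := K) R T F) (j : Fin d) :
    Rep (K := K) R T (fun n σ z v => F n σ z (σ j v)) := by
  obtain ⟨E, L, _, _, _, _, _, _, a0, a, r, t, h⟩ := hF
  refine ⟨E × T, L × T, inferInstance, inferInstance, inferInstance, inferInstance, inferInstance,
    inferInstance, (a0.comp (LinearMap.fst K E T)).prod (LinearMap.snd K E T),
    fun i => ((a i).comp (LinearMap.fst K E T)).prod
      (if i = j then -(t.comp (LinearMap.fst K E T)) else 0),
    r.comp (LinearMap.fst K E T), LinearMap.snd K E T, ?_⟩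
  intro n σ z
  obtain ⟨x, hx1, hx2, hx3, hx4⟩ := h n σ z
  have key : ∀ (y : Fin n → E × T) (v : Fin n),
      ((a0.comp (LinearMap.fst K E T)).prod (LinearMap.snd K E T)) (y v) +
        ∑ i, (((a i).comp (LinearMap.fst K E T)).prod
          (if i = j then -(t.comp (LinearMap.fst K E T)) else 0)) (y (σ i v)) =
      (a0 (y v).1 + ∑ i, a i (y (σ i v)).1, (y v).2 - t (y (σ j v)).1) := by
    intro y v
    refine Prod.ext ?_ ?_
    · simp [Prod.fst_sum]
    · simp only [Prod.snd_add, Prod.snd_sum, LinearMap.prod_apply]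
      rw [Finset.sum_eq_single j]
      · simp [sub_eq_add_neg]
      · intro i _ hi
        simp [hi]
      · simp
  refine ⟨fun v => (x v, F n σ z (σ j v)), ?_, hx2, fun v => rfl, ?_⟩
  · intro v
    refine (key (fun v => (x v, F n σ z (σ j v))) v).trans ?_
    refine Prod.ext (hx1 v) ?_
    simp [hx3]
  · intro y hy1 hy2
    have hy3 : (fun v => (y v).1) = x := by
      refine hx4 _ (fun v => ?_) hy2
      have := congrArg Prod.fst ((key y v).symm.trans (hy1 v))
      simpa using this
    funext v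
    refine Prod.ext (congrFun hy3 v) ?_
    have := congrArg Prod.snd ((key y v).symm.trans (hy1 v))
    simp only [Prod.snd_zero, sub_eq_zero] at this
    show (y v).2 = F n σ z (σ j v)
    rw [this, ← hx3, ← hy3]

lemma rep_inv [FiniteDimensional K T]
    {F : ∀ n : ℕ, (Fin d → Equiv.Perm (Fin n)) → (Fin n → R) → (Fin n → T)}
    (hF : Rep (K := K) R T F) (j : Fin d) :
    Rep (K := K) R T (fun n σ z v => F n σ z ((σ j)⁻¹ v)) := by
  obtain ⟨E, L, _, _, _, _, _, _, a0, a, r, t, h⟩ := hF
  refine ⟨E × T, L × T, inferInstance, inferInstance, inferInstance, inferInstance, inferInstance,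
    inferInstance, (a0.comp (LinearMap.fst K E T)).prod (-(t.comp (LinearMap.fst K E T))),
    fun i => ((a i).comp (LinearMap.fst K E T)).prod
      (if i = j then LinearMap.snd K E T else 0),
    r.comp (LinearMap.fst K E T), LinearMap.snd K E T, ?_⟩
  intro n σ z
  obtain ⟨x, hx1, hx2, hx3, hx4⟩ := h n σ z
  have key : ∀ (y : Fin n → E × T) (v : Fin n),
      ((a0.comp (LinearMap.fst K E T)).prod (-(t.comp (LinearMap.fst K E T)))) (y v) +
        ∑ i, (((a i).comp (LinearMap.fst K E T)).prod
          (if i = j then LinearMap.snd K E T else 0)) (y (σ i v)) =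
      (a0 (y v).1 + ∑ i, a i (y (σ i v)).1, (y (σ j v)).2 - t (y v).1) := by
    intro y v
    refine Prod.ext ?_ ?_
    · simp [Prod.fst_sum]
    · simp only [Prod.snd_add, Prod.snd_sum, LinearMap.prod_apply]
      rw [Finset.sum_eq_single j]
      · simp [sub_eq_add_neg, add_comm]
      · intro i _ hi
        simp [hi]
      · simp
  refine ⟨fun v => (x v, F n σ z ((σ j)⁻¹ v)), ?_, hx2, fun v => rfl, ?_⟩
  · intro v
    refine (key (fun v => (x v, F n σ z ((σ j)⁻¹ v))) v).trans ?_
    refine Prod.ext (hx1 v) ?_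
    simp [hx3]
  · intro y hy1 hy2
    have hy3 : (fun v => (y v).1) = x := by
      refine hx4 _ (fun v => ?_) hy2
      have := congrArg Prod.fst ((key y v).symm.trans (hy1 v))
      simpa using this
    funext v
    refine Prod.ext (congrFun hy3 v) ?_
    have := congrArg Prod.snd ((key y ((σ j)⁻¹ v)).symm.trans (hy1 ((σ j)⁻¹ v)))
    have hjj : σ j ((σ j)⁻¹ v) = v := by simp
    simp only [Prod.snd_zero, sub_eq_zero, hjj] at this
    show (y v).2 = F n σ z ((σ j)⁻¹ v)
    rw [this, ← hx3, ← hy3]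

lemma rep_add [FiniteDimensional K R]
    {F G : ∀ n : ℕ, (Fin d → Equiv.Perm (Fin n)) → (Fin n → R) → (Fin n → T)}
    (hF : Rep (K := K) R T F) (hG : Rep (K := K) R T G) :
    Rep (K := K) R T (fun n σ z v => F n σ z v + G n σ z v) := by
  obtain ⟨E, L, _, _, _, _, _, _, a0, a, r, t, h⟩ := hF
  obtain ⟨E', L', _, _, _, _, _, _, b0, b, s, u, h'⟩ := hG
  refine ⟨E × E', L × L' × R, inferInstance, inferInstance, inferInstance, inferInstance,
    inferInstance, inferInstance,
    (a0.comp (LinearMap.fst K E E')).prod ((b0.comp (LinearMap.snd K E E')).prod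
      (r.comp (LinearMap.fst K E E') - s.comp (LinearMap.snd K E E'))),
    fun i => ((a i).comp (LinearMap.fst K E E')).prod (((b i).comp (LinearMap.snd K E E')).prod 0),
    r.comp (LinearMap.fst K E E'), t.comp (LinearMap.fst K E E') + u.comp (LinearMap.snd K E E'),
    ?_⟩
  intro n σ z
  obtain ⟨x, hx1, hx2, hx3, hx4⟩ := h n σ z
  obtain ⟨x', hx1', hx2', hx3', hx4'⟩ := h' n σ z
  have key : ∀ (y : Fin n → E × E') (v : Fin n),
      ((a0.comp (LinearMap.fst K E E')).prod ((b0.comp (LinearMap.snd K E E')).prod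
        (r.comp (LinearMap.fst K E E') - s.comp (LinearMap.snd K E E')))) (y v) +
        ∑ i, (((a i).comp (LinearMap.fst K E E')).prod
          (((b i).comp (LinearMap.snd K E E')).prod 0)) (y (σ i v)) =
      (a0 (y v).1 + ∑ i, a i (y (σ i v)).1, b0 (y v).2 + ∑ i, b i (y (σ i v)).2,
        r (y v).1 - s (y v).2) := by
    intro y v
    refine Prod.ext ?_ (Prod.ext ?_ ?_)
    · simp [Prod.fst_sum]
    · simp [Prod.fst_sum, Prod.snd_sum]
    · simp [Prod.snd_sum]
  refine ⟨fun v => (x v, x' v), ?_, hx2, ?_, ?_⟩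
  · intro v
    refine (key (fun v => (x v, x' v)) v).trans ?_
    refine Prod.ext (hx1 v) (Prod.ext (hx1' v) ?_)
    simp [hx2, hx2']
  · intro v
    simp [hx3, hx3']
  · intro y hy1 hy2
    have e : ∀ v, (a0 (y v).1 + ∑ i, a i (y (σ i v)).1, b0 (y v).2 + ∑ i, b i (y (σ i v)).2,
        r (y v).1 - s (y v).2) = (0 : L × L' × R) := fun v => (key y v).symm.trans (hy1 v)
    have e1 : (fun v => (y v).1) = x :=
      hx4 _ (fun v => congrArg Prod.fst (e v)) hy2
    have e2 : (fun v => (y v).2) = x' := by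
      refine hx4' _ (fun v => congrArg (fun p => p.2.1) (e v)) (fun v => ?_)
      have e3 := congrArg (fun p => p.2.2) (e v)
      simp only [Prod.snd_zero, sub_eq_zero] at e3
      rw [← e3]
      exact hy2 v
    funext v
    exact Prod.ext (congrFun e1 v) (congrFun e2 v)

lemma rep_word [FiniteDimensional K T] (w : FreeGroup (Fin d)) :
    ∀ F : ∀ n : ℕ, (Fin d → Equiv.Perm (Fin n)) → (Fin n → R) → (Fin n → T),
    Rep (K := K) R T F →
      Rep (K := K) R T (fun n σ z v => F n σ z (FreeGroup.lift σ w v)) := by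
  induction w using FreeGroup.induction_on with
  | C1 => intro F hF; simpa using hF
  | of j => intro F hF; simpa using rep_of hF j
  | inv_of j _ => intro F hF; simpa using rep_inv hF j
  | mul x y hx hy =>
    intro F hF
    simpa using hy _ (hx F hF)

lemma rep_sum [FiniteDimensional K R] {ι : Type} (s : Finset ι)
    (F : ι → ∀ n : ℕ, (Fin d → Equiv.Perm (Fin n)) → (Fin n → R) → (Fin n → T))
    (hF : ∀ i ∈ s, Rep (K := K) R T (F i)) :
    Rep (K := K) R T (fun n σ z v => ∑ i ∈ s, F i n σ z v) := by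
  classical
  induction s using Finset.induction_on with
  | empty => simpa using rep_pure (K := K) (d := d) (0 : R →ₗ[K] T)
  | insert i s hi ih =>
    simp only [Finset.sum_insert hi]
    exact rep_add (hF i (Finset.mem_insert_self i s))
      (ih fun j hj => hF j (Finset.mem_insert_of_mem hj))

/-- the coefficient of `A` at a word -/
def coef {k l : ℕ} (A : Matrix (Fin k) (Fin l) (FreeGroup (Fin d) →₀ K)) (w : FreeGroup (Fin d)) :
    (Fin k → K) →ₗ[K] (Fin l → K) where
  toFun z j := ∑ i, A i j w * z i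
  map_add' x y := by
    funext j
    simp [mul_add, Finset.sum_add_distrib]
  map_smul' c x := by
    funext j
    simp only [Pi.smul_apply, smul_eq_mul, RingHom.id_apply, Finset.mul_sum]
    exact Finset.sum_congr rfl fun i _ => by ring

lemma vecMul_mat {k l : ℕ} (A : Matrix (Fin k) (Fin l) (FreeGroup (Fin d) →₀ K)) {n : ℕ}
    (σ : Fin d → Equiv.Perm (Fin n)) (W : Finset (FreeGroup (Fin d)))
    (hW : ∀ i j, (A i j).support ⊆ W) (z : Fin n → Fin k → K) (j : Fin l) (v : Fin n) :
    Matrix.vecMul (fun p : Fin k × Fin n => z p.2 p.1) (mat A σ) (j, v) =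
      (∑ w ∈ W, coef A w (z (FreeGroup.lift σ w v))) j := by
  rw [Matrix.vecMul, dotProduct, Fintype.sum_prod_type, Finset.sum_apply]
  simp only [coef, LinearMap.coe_mk, AddHom.coe_mk]
  refine Eq.trans ?_ Finset.sum_comm
  refine Finset.sum_congr rfl fun i _ => ?_
  have h1 : ∀ u : Fin n, mat A σ (i, u) (j, v) =
      ∑ w ∈ W, if FreeGroup.lift σ w v = u then A i j w else 0 := by
    intro u
    simp only [mat, Matrix.of_apply]
    rw [Finsupp.sum, Finset.sum_subset (hW i j)]
    intro w _ hw
    have : A i j w = 0 := Finsupp.notMem_support_iff.1 hw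
    simp [this]
  simp only [h1, Finset.mul_sum]
  rw [Finset.sum_comm]
  refine Finset.sum_congr rfl fun w _ => ?_
  rw [Finset.sum_eq_single (FreeGroup.lift σ w v)]
  · simp [mul_comm]
  · intro u _ hu
    simp [Ne.symm hu]
  · simp

end LNZaux

open LNZaux

theorem lnz : Stmt_LNZ := by
  intro K _ d k l A
  classical
  let W : Finset (FreeGroup (Fin d)) :=
    Finset.univ.biUnion fun p : Fin k × Fin l => (A p.1 p.2).support
  have hW : ∀ i j, (A i j).support ⊆ W := fun i j =>
    Finset.subset_biUnion_of_mem (fun p : Fin k × Fin l => (A p.1 p.2).support)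
      (Finset.mem_univ (i, j))
  have hrep : Rep (K := K) (Fin k → K) (Fin l → K)
      (fun (n : ℕ) (σ : Fin d → Equiv.Perm (Fin n)) z v =>
        ∑ w ∈ W, coef A w (z (FreeGroup.lift σ w v))) := by
    refine rep_sum W (fun w n σ z v => coef A w (z (FreeGroup.lift σ w v))) fun w _ => ?_
    exact rep_word w (fun n σ z v => coef A w (z v)) (rep_pure (coef A w))
  obtain ⟨E, L, _, _, _, _, _, _, a0, a, r, t, h⟩ := hrep
  let eE : E ≃ₗ[K] (Fin (finrank K E) → K) := (finBasis K E).equivFun
  let eL : (L × (Fin l → K)) ≃ₗ[K] (Fin (finrank K (L × (Fin l → K))) → K) :=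
    (finBasis K (L × (Fin l → K))).equivFun
  let P : Pencil K d :=
    { k := finrank K E
      l := finrank K (L × (Fin l → K))
      a0 := eL.toLinearMap ∘ₗ (a0.prod t) ∘ₗ eE.symm.toLinearMap
      a := fun i => eL.toLinearMap ∘ₗ ((a i).prod 0) ∘ₗ eE.symm.toLinearMap }
  refine ⟨P, ?_⟩
  intro n σ
  have hker : ∀ x : Fin n → Fin P.k → K, x ∈ LinearMap.ker (P.onPts σ) ↔
      (∀ v, a0 (eE.symm (x v)) + ∑ i, a i (eE.symm (x (σ i v))) = 0) ∧
        ∀ v, t (eE.symm (x v)) = 0 := by
    intro x
    rw [LinearMap.mem_ker, funext_iff, ← forall_and]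
    refine forall_congr' fun v => ?_
    have e1 : (P.onPts σ) x v =
        eL (a0 (eE.symm (x v)) + ∑ i, a i (eE.symm (x (σ i v))), t (eE.symm (x v))) := by
      have e2 : (P.onPts σ) x v = eL ((a0.prod t) (eE.symm (x v))) +
          ∑ i, eL (((a i).prod (0 : E →ₗ[K] (Fin l → K))) (eE.symm (x (σ i v)))) := rfl
      rw [e2, ← map_sum, ← map_add]
      congr 1
      refine Prod.ext ?_ ?_
      · simp [Prod.fst_sum]
      · simp [Prod.snd_sum]
    rw [e1]
    show eL _ = 0 ↔ _
    rw [LinearEquiv.map_eq_zero_iff, Prod.ext_iff]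
    rfl
  let Φ : (Fin n → Fin P.k → K) →ₗ[K] (Fin k × Fin n → K) :=
    { toFun := fun x p => r (eE.symm (x p.2)) p.1
      map_add' := fun x y => by
        funext p
        simp
      map_smul' := fun c x => by
        funext p
        simp }
  have hΦinj : Function.Injective (Φ.domRestrict (LinearMap.ker (P.onPts σ))) := by
    rintro ⟨x, hx⟩ ⟨y, hy⟩ hxy
    have hxy' : ∀ p : Fin k × Fin n, r (eE.symm (x p.2)) p.1 = r (eE.symm (y p.2)) p.1 :=
      fun p => congrFun hxy p
    have hx' := ((hker x).1 hx).1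
    have hy' := ((hker y).1 hy).1
    obtain ⟨x0, _, _, _, h4⟩ := h n σ (fun v => r (eE.symm (x v)))
    have e1 := h4 (fun v => eE.symm (x v)) hx' (fun v => rfl)
    have e2 := h4 (fun v => eE.symm (y v)) hy' (fun v => by
      funext i
      exact (hxy' (i, v)).symm)
    refine Subtype.ext (funext fun v => eE.symm.injective ?_)
    exact congrFun (e1.trans e2.symm) v
  have hrange : LinearMap.range (Φ.domRestrict (LinearMap.ker (P.onPts σ))) =
      LinearMap.ker (mat A σ).vecMulLinear := by
    ext z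
    rw [LinearMap.mem_range, LinearMap.mem_ker]
    have hz : (mat A σ).vecMulLinear z = 0 ↔ ∀ v : Fin n,
        ∑ w ∈ W, coef A w ((fun (u : Fin n) (i : Fin k) => z (i, u)) (FreeGroup.lift σ w v)) = 0 := by
      have e : ∀ j v, (mat A σ).vecMulLinear z (j, v) =
        (∑ w ∈ W, coef A w ((fun (u : Fin n) (i : Fin k) => z (i, u)) (FreeGroup.lift σ w v))) j :=
        fun j v => vecMul_mat A σ W hW (fun u i => z (i, u)) j v
      constructor
      · intro h0 v
        funext j
        rw [← e j v, h0]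
        rfl
      · intro h0
        funext p
        rw [e p.1 p.2, h0 p.2]
        rfl
    rw [hz]
    constructor
    · rintro ⟨⟨x, hx⟩, hxz⟩ v
      have hx' := (hker x).1 hx
      have hz' : ∀ p : Fin k × Fin n, r (eE.symm (x p.2)) p.1 = z p := fun p => congrFun hxz p
      obtain ⟨x0, _, _, h3, h4⟩ := h n σ (fun (u : Fin n) (i : Fin k) => z (i, u))
      have e1 := h4 (fun v => eE.symm (x v)) hx'.1 (fun v => by
        funext i
        exact hz' (i, v))
      refine (h3 v).symm.trans ?_
      rw [← e1]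
      exact hx'.2 v
    · intro h0
      obtain ⟨x0, h1, h2, h3, _⟩ := h n σ (fun (u : Fin n) (i : Fin k) => z (i, u))
      refine ⟨⟨fun v => eE (x0 v), (hker _).2 ⟨fun v => by simpa using h1 v, fun v => ?_⟩⟩, ?_⟩
      · rw [eE.symm_apply_apply]
        exact (h3 v).trans (h0 v)
      · funext p
        show r (eE.symm (eE (x0 p.2))) p.1 = z p
        rw [eE.symm_apply_apply, h2]
  have e1 : finrank K (LinearMap.ker (P.onPts σ)) =
      finrank K (LinearMap.ker (mat A σ).vecMulLinear) := by
    rw [← hrange]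
    exact (LinearMap.finrank_range_of_inj hΦinj).symm
  have e2 : (mat A σ).rank = finrank K (LinearMap.range (mat A σ).vecMulLinear) := by
    rw [← Matrix.rank_transpose, Matrix.rank, Matrix.mulVecLin_transpose]
  have e3 := LinearMap.finrank_range_add_finrank_ker (mat A σ).vecMulLinear
  rw [e1, e2, add_comm, e3]
  simp

end Pool.Agent.SLR
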