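import Pool.Agent.SLR.Stmts

set_option autoImplicit false

namespace Pool.Agent.SLR

open Module

variable {K : Type} [Field K] {d : ℕ}

theorem Pencil.val_mem_img (P : Pencil K d) (U : Submodule K (Fin P.k → K)) {n : ℕ}
    (σ : Fin d → Equiv.Perm (Fin n)) (x : Fin n → U) (v : Fin n) :
    P.a0 (x v : Fin P.k → K) + ∑ i, P.a i (x (σ i v) : Fin P.k → K) ∈ P.img U (fun _ => U) := by
  unfold Pencil.img
  refine Submodule.add_mem _ (Submodule.mem_sup_left (Submodule.mem_map_of_mem (x v).2)) ?_
  refine Submodule.sum_mem _ fun i _ => Submodule.mem_sup_right ?_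
  exact Submodule.mem_iSup_of_mem i (Submodule.mem_map_of_mem (x (σ i v)).2)

/-- The restriction of `onPts` to vectors with all entries in `U`. -/
def Pencil.resPts (P : Pencil K d) (U : Submodule K (Fin P.k → K)) {n : ℕ}
    (σ : Fin d → Equiv.Perm (Fin n)) : (Fin n → U) →ₗ[K] (Fin n → P.img U (fun _ => U)) where
  toFun x v := ⟨_, P.val_mem_img U σ x v⟩
  map_add' x y := by
    funext v
    apply Subtype.ext
    simp only [Pi.add_apply, Submodule.coe_add, map_add, Finset.sum_add_distrib]
    abel
  map_smul' c x := by
    funext v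
    apply Subtype.ext
    simp only [Pi.smul_apply, Submodule.coe_smul, map_smul, RingHom.id_apply, smul_add,
      Finset.smul_sum]

theorem low_proof : Stmt_LOW := by
  intro K _ d P δ hδ n σ
  obtain ⟨-, U, hU⟩ := hδ
  have h1 := LinearMap.finrank_range_add_finrank_ker (P.resPts U σ)
  have h2 : finrank K (LinearMap.range (P.resPts U σ)) ≤ n * finrank K (P.img U (fun _ => U)) := by
    refine (Submodule.finrank_le _).trans ?_
    rw [Module.finrank_pi_fintype]
    simp
  have h3 : finrank K (Fin n → U) = n * finrank K U := by
    rw [Module.finrank_pi_fintype]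
    simp
  have h4 : finrank K (LinearMap.ker (P.resPts U σ)) ≤ finrank K (LinearMap.ker (P.onPts σ)) := by
    let ι : (Fin n → U) →ₗ[K] (Fin n → Fin P.k → K) :=
      { toFun := fun x v => (x v : Fin P.k → K)
        map_add' := fun x y => rfl
        map_smul' := fun c x => rfl }
    have hι : ∀ x, x ∈ LinearMap.ker (P.resPts U σ) → ι x ∈ LinearMap.ker (P.onPts σ) := by
      intro x hx
      rw [LinearMap.mem_ker] at hx ⊢
      funext v
      have := congrArg Subtype.val (congrFun hx v)
      exact this
    refine LinearMap.finrank_le_finrank_of_injective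
      (f := ι.restrict hι) ?_
    intro x y hxy
    apply Subtype.ext
    funext v
    apply Subtype.ext
    have := congrArg Subtype.val hxy
    exact congrFun this v
  rw [h3] at h1
  have h5 : δ * n = n * finrank K U - n * finrank K (P.img U (fun _ => U)) := by
    rw [← hU, Nat.mul_add, Nat.add_sub_cancel_left, Nat.mul_comm]
  omega

end Pool.Agent.SLR
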