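import Pool.Agent.SLR.Stmts2

set_option autoImplicit false

namespace Pool.Agent.SLR

open Module Finset Filter Topology
open scoped Nat

theorem card_sub_le {α : Type} [Finite α] {p q : α → Prop} (h : ∀ a, p a → q a) :
    Nat.card {a // p a} ≤ Nat.card {a // q a} :=
  Nat.card_le_card_of_injective (Subtype.map id h)
    (Subtype.map_injective h Function.injective_id)

theorem main2_proof (hLNZ : Stmt_LNZ) (hEXD : Stmt_EXD) (hLOW : Stmt_LOW) (hSPC : Stmt_SPC)
    (hFIN : Stmt_FIN) (hTWI : Stmt_TWI) : Stmt_MAIN2 := by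
  intro K _ d k l A
  obtain ⟨P, hP⟩ := hLNZ K d k l A
  obtain ⟨δ, hδ⟩ := hEXD K d P
  have hδk : δ ≤ k := by
    have h1 := hLOW K d P δ hδ 1 (fun _ => 1)
    have h2 := hP 1 (fun _ => 1)
    omega
  -- pencils with a bound on the defect
  have key : ∀ (Q : Pencil K d) (D : ℕ), Q.DefLE D → ∀ ε : ℝ, 0 < ε → ∃ c : ℝ, 0 < c ∧
      ∀ᶠ n : ℕ in atTop, (Nat.card {σ : Fin d → Equiv.Perm (Fin n) //
        (D + ε) * n ≤ (finrank K (LinearMap.ker (Q.onPts σ)) : ℝ)} : ℝ)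
        ≤ (n : ℝ) ^ (-(c * n)) * ((n ! : ℕ) : ℝ) ^ d := by
    intro Q D hQ ε hε
    obtain ⟨K', _, _, Q', hQ', hle⟩ := hSPC K d Q D hQ
    obtain ⟨c, hc, h⟩ := hFIN K' d Q' D hQ' ε hε
    refine ⟨c, hc, ?_⟩
    filter_upwards [h] with n hn
    refine le_trans ?_ hn
    have : Nat.card {σ : Fin d → Equiv.Perm (Fin n) //
        (D + ε) * n ≤ (finrank K (LinearMap.ker (Q.onPts σ)) : ℝ)}
        ≤ Nat.card {σ : Fin d → Equiv.Perm (Fin n) //
        (D + ε) * n ≤ (finrank K' (LinearMap.ker (Q'.onPts σ)) : ℝ)} :=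
      card_sub_le fun σ hσ => hσ.trans (by exact_mod_cast hle n σ)
    exact_mod_cast this
  refine ⟨k - δ, ?_, ?_, ?_⟩
  · intro n σ
    have h1 := hLOW K d P δ hδ n σ
    have h2 := hP n σ
    have h3 : (k - δ) * n + δ * n = k * n := by
      rw [← add_mul, Nat.sub_add_cancel hδk]
    omega
  · intro ε hε
    obtain ⟨c, hc, h⟩ := key P δ hδ.1 ε hε
    refine ⟨c, hc, ?_⟩
    filter_upwards [h] with n hn
    refine le_trans ?_ hn
    have : Nat.card {σ : Fin d → Equiv.Perm (Fin n) //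
        ((mat A σ).rank : ℝ) ≤ (((k - δ : ℕ) : ℝ) - ε) * n}
        ≤ Nat.card {σ : Fin d → Equiv.Perm (Fin n) //
        (δ + ε) * n ≤ (finrank K (LinearMap.ker (P.onPts σ)) : ℝ)} := by
      refine card_sub_le fun σ h3 => ?_
      have h2 : (finrank K (LinearMap.ker (P.onPts σ)) : ℝ) + (mat A σ).rank = k * n := by
        exact_mod_cast hP n σ
      rw [Nat.cast_sub hδk] at h3
      nlinarith
    exact_mod_cast this
  · intro m hm τ ε hε
    obtain ⟨Q, hQ1, hQ2⟩ := hTWI K d P δ hδ.1 m τ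
    have hm' : (0 : ℝ) < m := by exact_mod_cast hm
    obtain ⟨c, hc, h⟩ := key Q (δ * m) hQ1 (ε * m) (by positivity)
    refine ⟨c, hc, ?_⟩
    filter_upwards [h] with n hn
    refine le_trans ?_ hn
    have : Nat.card {σ : Fin d → Equiv.Perm (Fin n) //
        ((mat A (prodPerm τ σ)).rank : ℝ) ≤ (((k - δ : ℕ) : ℝ) - ε) * (m * n : ℕ)}
        ≤ Nat.card {σ : Fin d → Equiv.Perm (Fin n) //
        (((δ * m : ℕ) : ℝ) + ε * m) * n ≤ (finrank K (LinearMap.ker (Q.onPts σ)) : ℝ)} := by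
      refine card_sub_le fun σ h3 => ?_
      have h2 : (finrank K (LinearMap.ker (P.onPts (prodPerm τ σ))) : ℝ)
            + (mat A (prodPerm τ σ)).rank = k * (m * n : ℕ) := by
        exact_mod_cast hP (m * n) (prodPerm τ σ)
      rw [Nat.cast_sub hδk] at h3
      rw [hQ2]
      push_cast at h2 h3 ⊢
      nlinarith
    exact_mod_cast this

theorem main1_of_main2 (h : Stmt_MAIN2) : Stmt_MAIN1 := by
  intro K _ d k l A
  obtain ⟨r, h1, h2, -⟩ := h K d k l A
  exact ⟨r, h1, h2⟩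

end Pool.Agent.SLR
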