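import Pool.Agent.SLR.Stmts

set_option autoImplicit false

/-!
# NST: Nullstellensatz with specialization
-/

namespace Pool.Agent.SLR

open Module

namespace NST_

theorem span_eq_top (K : Type) [Field K] (V ι : Type) [Finite V]
    (p : ι → MvPolynomial V K)
    (h : ∀ (K1 : Type) [Field K1] [Algebra K K1] [FiniteDimensional K K1] (x : V → K1),
      ∃ i, MvPolynomial.aeval x (p i) ≠ 0) : Ideal.span (Set.range p) = ⊤ := by
  by_contra hne
  obtain ⟨Mx, hMx, hle⟩ := Ideal.exists_le_maximal _ hne
  letI : Field (MvPolynomial V K ⧸ Mx) := Ideal.Quotient.field Mx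
  haveI : Algebra.FiniteType K (MvPolynomial V K ⧸ Mx) := inferInstance
  haveI : Module.Finite K (MvPolynomial V K ⧸ Mx) :=
    finite_of_finite_type_of_isJacobsonRing K (MvPolynomial V K ⧸ Mx)
  obtain ⟨i, hi⟩ := h (MvPolynomial V K ⧸ Mx) (fun v => Ideal.Quotient.mk Mx (MvPolynomial.X v))
  apply hi
  have h1 : MvPolynomial.aeval (fun v => Ideal.Quotient.mk Mx (MvPolynomial.X v)) (p i) =
      Ideal.Quotient.mkₐ K Mx (p i) := by
    have h2 : (MvPolynomial.aeval (fun v => Ideal.Quotient.mk Mx (MvPolynomial.X v)) :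
        MvPolynomial V K →ₐ[K] MvPolynomial V K ⧸ Mx) = Ideal.Quotient.mkₐ K Mx := by
      apply MvPolynomial.algHom_ext
      intro v
      simp
    rw [h2]
  rw [h1, Ideal.Quotient.mkₐ_eq_mk]
  exact Ideal.Quotient.eq_zero_iff_mem.2 (hle (Ideal.subset_span ⟨i, rfl⟩))

end NST_

open NST_ in
theorem nst_proof : Stmt_NST := by
  classical
  intro K _ V ι _ _ p h
  letI : Fintype ι := Fintype.ofFinite ι
  have h1 : (1 : MvPolynomial V K) ∈ Ideal.span (Set.range p) := by
    rw [span_eq_top K V ι p h]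
    trivial
  obtain ⟨g, hg⟩ := (Ideal.mem_span_range_iff_exists_fun).1 h1
  refine ⟨Finset.univ.biUnion fun i => (g i).support.image fun m => (g i).coeff m, ?_⟩
  intro R hS κ _ f pR hpR x
  by_contra hcon
  push Not at hcon
  have hlift : ∀ i, ∃ q : MvPolynomial V R, MvPolynomial.map (algebraMap R K) q = g i := by
    intro i
    have hmem : ∀ m, (g i).coeff m ∈ R := by
      intro m
      by_cases hm : m ∈ (g i).support
      · apply hS
        simp only [Finset.coe_biUnion, Set.mem_iUnion]
        exact ⟨i, Finset.mem_coe.2 (Finset.mem_univ i), by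
          exact Finset.mem_coe.2 (Finset.mem_image.2 ⟨m, hm, rfl⟩)⟩
      · rw [MvPolynomial.notMem_support_iff.1 hm]
        exact R.zero_mem
    refine ⟨∑ m ∈ (g i).support, MvPolynomial.monomial m ⟨(g i).coeff m, hmem m⟩, ?_⟩
    rw [map_sum]
    conv_rhs => rw [(g i).as_sum]
    refine Finset.sum_congr rfl fun m _ => ?_
    rw [MvPolynomial.map_monomial]
    rfl
  choose gR hgR using hlift
  have hinj : Function.Injective (algebraMap R K) := Subtype.val_injective
  have hsum : ∑ i, gR i * pR i = 1 := by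
    apply MvPolynomial.map_injective _ hinj
    rw [map_sum, map_one, ← hg]
    refine Finset.sum_congr rfl fun i _ => ?_
    rw [map_mul, hgR, hpR]
  have h2 := congrArg (MvPolynomial.eval₂Hom f x) hsum
  rw [map_sum, map_one] at h2
  have h3 : ∑ i, (MvPolynomial.eval₂Hom f x) (gR i * pR i) = 0 := by
    refine Finset.sum_eq_zero fun i _ => ?_
    rw [map_mul]
    have : (MvPolynomial.eval₂Hom f x) (pR i) = 0 := hcon i
    rw [this, mul_zero]
  rw [h3] at h2
  exact zero_ne_one h2

end Pool.Agent.SLR
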