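import Pool.Agent.SLR.Stmts

set_option autoImplicit false

namespace Pool.Agent.SLR

open Module

theorem pdm_proof : Stmt_PDM := by
  intro K _ n k V T
  classical
  let f : V →ₗ[K] (T → Fin k → K) :=
    (LinearMap.pi (fun t : T => LinearMap.proj (t : Fin n))).comp V.subtype
  have h1 := LinearMap.finrank_range_add_finrank_ker f
  have h2 : finrank K (LinearMap.range f) ≤ k * T.card := by
    refine (Submodule.finrank_le _).trans ?_
    rw [Module.finrank_pi_fintype]
    simp [mul_comm]
  have h3 : finrank K (LinearMap.ker f) ≤ finrank K (pin V T) := by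
    have h4 : (LinearMap.ker f).map V.subtype ≤ pin V T := by
      rintro x ⟨y, hy, rfl⟩
      refine ⟨y.2, ?_⟩
      intro t ht
      have := congrFun (LinearMap.mem_ker.1 hy) ⟨t, ht⟩
      exact this
    have h5 : finrank K ((LinearMap.ker f).map V.subtype) = finrank K (LinearMap.ker f) :=
      Submodule.finrank_map_subtype_eq V _
    rw [← h5]
    exact Submodule.finrank_mono h4
  omega

end Pool.Agent.SLR
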