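import Pool.Agent.SLR.Stmts

set_option autoImplicit false

namespace Pool.Agent.SLR

open Module

namespace PIN_

variable {K : Type} [Field K] {n k : ℕ}

theorem pin_pin (V : Submodule K (Fin n → Fin k → K)) (T : Finset (Fin n)) (w : Fin n) :
    pin (pin V T) {w} = pin V (insert w T) := by
  ext x
  change ((x ∈ V ∧ ∀ t ∈ T, x t = 0) ∧ ∀ t ∈ ({w} : Finset (Fin n)), x t = 0) ↔
    (x ∈ V ∧ ∀ t ∈ insert w T, x t = 0)
  constructor
  · rintro ⟨⟨h1, h2⟩, h3⟩
    refine ⟨h1, ?_⟩
    intro t ht
    rcases Finset.mem_insert.mp ht with rfl | ht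
    · exact h3 _ (Finset.mem_singleton_self _)
    · exact h2 t ht
  · rintro ⟨h1, h2⟩
    refine ⟨⟨h1, fun t ht => h2 t (Finset.mem_insert_of_mem ht)⟩, ?_⟩
    intro t ht
    rw [Finset.mem_singleton] at ht
    rw [ht]
    exact h2 w (Finset.mem_insert_self _ _)

theorem pin_le (V : Submodule K (Fin n → Fin k → K)) (T : Finset (Fin n)) : pin V T ≤ V :=
  fun _ hx => hx.1

theorem proj_mono {V W : Submodule K (Fin n → Fin k → K)} (h : V ≤ W) (v : Fin n) :
    proj V v ≤ proj W v := Submodule.map_mono h

/-- the potential -/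
noncomputable def f (V : Submodule K (Fin n → Fin k → K)) (T : Finset (Fin n)) : ℕ :=
  ∑ v, finrank K (proj (pin V T) v)

theorem f_le (V : Submodule K (Fin n → Fin k → K)) (T : Finset (Fin n)) : f V T ≤ k * n := by
  unfold f
  calc ∑ v, finrank K (proj (pin V T) v) ≤ ∑ _v : Fin n, k := by
        apply Finset.sum_le_sum
        intro v _
        calc finrank K (proj (pin V T) v) ≤ finrank K (Fin k → K) := Submodule.finrank_le _
          _ = k := by simp
    _ = k * n := by simp [mul_comm]

open Classical in
theorem pair (V : Submodule K (Fin n → Fin k → K)) (T : Finset (Fin n)) (v w : Fin n) :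
    (if (v, w) ∈ dep (pin V T) then 1 else 0) + finrank K (proj (pin V (insert w T)) v) ≤
      finrank K (proj (pin V T) v) := by
  have h1 : proj (pin V (insert w T)) v ≤ proj (pin V T) v := by
    rw [← pin_pin]
    exact proj_mono (pin_le _ _) v
  split_ifs with h
  · have h2 : ¬ proj (pin V T) v ≤ proj (pin (pin V T) {w}) v := by
      unfold dep at h
      simpa using h
    rw [pin_pin] at h2
    have h3 := Submodule.finrank_lt_finrank_of_lt (lt_of_le_not_ge h1 h2)
    omega
  · rw [zero_add]
    exact Submodule.finrank_mono h1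

open Classical in
theorem sum_le (V : Submodule K (Fin n → Fin k → K)) (T : Finset (Fin n)) :
    (dep (pin V T)).card + ∑ w, f V (insert w T) ≤ n * f V T := by
  have h1 : (dep (pin V T)).card = ∑ w : Fin n, ∑ v : Fin n,
      (if (v, w) ∈ dep (pin V T) then 1 else 0) := by
    rw [Finset.sum_comm, ← Finset.sum_product' (f := fun v w =>
      if (v, w) ∈ dep (pin V T) then 1 else 0), Finset.univ_product_univ]
    rw [Finset.sum_ite_mem, Finset.univ_inter, Finset.sum_const, smul_eq_mul, mul_one]
  rw [h1]
  unfold f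
  rw [← Finset.sum_add_distrib]
  calc ∑ w : Fin n, (∑ v : Fin n, (if (v, w) ∈ dep (pin V T) then 1 else 0) +
        ∑ v, finrank K (proj (pin V (insert w T)) v))
      ≤ ∑ _w : Fin n, ∑ v, finrank K (proj (pin V T) v) := by
        apply Finset.sum_le_sum
        intro w _
        rw [← Finset.sum_add_distrib]
        apply Finset.sum_le_sum
        intro v _
        exact pair V T v w
    _ = n * ∑ v, finrank K (proj (pin V T) v) := by simp

theorem step (V : Submodule K (Fin n → Fin k → K)) (m : ℕ) (T : Finset (Fin n))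
    (h : k * n * n < (dep (pin V T)).card * (m + 1)) :
    ∃ w, (m + 1) * f V (insert w T) + (k * n + 1) ≤ (m + 1) * f V T := by
  by_contra hc
  push Not at hc
  have h1 : ∀ w ∈ (Finset.univ : Finset (Fin n)),
      (m + 1) * f V T ≤ (m + 1) * f V (insert w T) + k * n := by
    intro w _
    have := hc w
    omega
  have h2 := Finset.sum_le_sum h1
  rw [Finset.sum_add_distrib, Finset.sum_const, Finset.sum_const,
    Finset.card_univ, Fintype.card_fin, smul_eq_mul, smul_eq_mul] at h2
  have h4 : ∑ w, (m + 1) * f V (insert w T) = (m + 1) * ∑ w, f V (insert w T) := by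
    rw [Finset.mul_sum]
  rw [h4] at h2
  have h3 := Nat.mul_le_mul_left (m + 1) (sum_le V T)
  generalize (∑ w, f V (insert w T)) = X at h2 h3
  generalize (dep (pin V T)).card = D at h3 h
  generalize f V T = F at h2 h3
  nlinarith [h2, h3, h]

end PIN_

open PIN_ in
theorem pin_proof : Stmt_PIN := by
  intro K _ n k m V
  by_contra hc
  push Not at hc
  have key : ∀ j, j ≤ m + 1 → ∃ T : Finset (Fin n), T.card ≤ j ∧
      (m + 1) * f V T + j * (k * n + 1) ≤ (m + 1) * f V ∅ := by
    intro j
    induction j with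
    | zero =>
      intro _
      exact ⟨∅, by simp, by simp⟩
    | succ j ih =>
      intro hj
      obtain ⟨T, hT, h1⟩ := ih (by omega)
      obtain ⟨w, hw⟩ := step V m T (hc T (by omega))
      refine ⟨insert w T, ?_, ?_⟩
      · exact le_trans (Finset.card_insert_le _ _) (by omega)
      · have : (j + 1) * (k * n + 1) = j * (k * n + 1) + (k * n + 1) := by ring
        rw [this]
        omega
  obtain ⟨T, _, h⟩ := key (m + 1) le_rfl
  have h1 := Nat.mul_le_mul_left (m + 1) (f_le V ∅)
  have h2 : (m + 1) * (k * n + 1) = (m + 1) * (k * n) + (m + 1) := by ring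
  rw [h2] at h
  omega

end Pool.Agent.SLR
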