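import Pool.Agent.SLR.Stmts

set_option autoImplicit false

/-! SLR, module RFN: free groups are residually finite. -/

namespace Pool.Agent.SLR

namespace RFN_

theorem conflict {α : Type} (L : List (α × Bool)) (h : FreeGroup.IsReduced L) (j : ℕ) (i : α)
    (b b' : Bool) (h1 : L[j]? = some (i, b)) (h2 : L[j + 1]? = some (i, b')) : b = b' := by
  unfold FreeGroup.IsReduced at h
  rw [List.isChain_iff_getElem] at h
  obtain ⟨k1, e1⟩ := List.getElem?_eq_some_iff.1 h1
  obtain ⟨k2, e2⟩ := List.getElem?_eq_some_iff.1 h2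
  have h3 := h j k2
  rw [e1, e2] at h3
  exact h3 rfl

/-- The permutation of the generator `i`. -/
theorem perm {α : Type} (L : List (α × Bool)) (h : FreeGroup.IsReduced L) (i : α) :
    ∃ g : Equiv.Perm (Fin (L.length + 1)), ∀ x y : Fin (L.length + 1),
      ((x : ℕ) = y + 1 ∧ L[(y : ℕ)]? = some (i, true) ∨
        (y : ℕ) = x + 1 ∧ L[(x : ℕ)]? = some (i, false)) → g x = y := by
  classical
  let R : Fin (L.length + 1) → Fin (L.length + 1) → Prop := fun x y =>
    (x : ℕ) = y + 1 ∧ L[(y : ℕ)]? = some (i, true) ∨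
      (y : ℕ) = x + 1 ∧ L[(x : ℕ)]? = some (i, false)
  have huniq : ∀ x y y', R x y → R x y' → y = y' := by
    rintro x y y' (⟨a1, a2⟩ | ⟨a1, a2⟩) (⟨b1, b2⟩ | ⟨b1, b2⟩)
    · apply Fin.ext; omega
    · exfalso
      rw [a1] at b2
      exact absurd (conflict L h _ i true false a2 b2) (by decide)
    · exfalso
      rw [b1] at a2
      exact absurd (conflict L h _ i true false b2 a2) (by decide)
    · apply Fin.ext; omega
  have hinj : ∀ x x' y, R x y → R x' y → x = x' := by
    rintro x x' y (⟨a1, a2⟩ | ⟨a1, a2⟩) (⟨b1, b2⟩ | ⟨b1, b2⟩)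
    · apply Fin.ext; omega
    · exfalso
      rw [b1] at a2
      exact absurd (conflict L h _ i false true b2 a2) (by decide)
    · exfalso
      rw [a1] at b2
      exact absurd (conflict L h _ i false true a2 b2) (by decide)
    · apply Fin.ext; omega
  let s : Set (Fin (L.length + 1)) := {x | ∃ y, R x y}
  let f : Fin (L.length + 1) → Fin (L.length + 1) := fun x =>
    if hx : ∃ y, R x y then hx.choose else x
  have hf : ∀ x y, R x y → f x = y := by
    intro x y hxy
    have hx : ∃ y, R x y := ⟨y, hxy⟩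
    have e : f x = hx.choose := dif_pos hx
    rw [e]
    exact huniq x _ _ hx.choose_spec hxy
  have hfs : Set.InjOn f s := by
    rintro x ⟨y, hy⟩ x' ⟨y', hy'⟩ hxx
    rw [hf x y hy, hf x' y' hy'] at hxx
    rw [← hxx] at hy'
    exact hinj x x' y hy hy'
  obtain ⟨g, hg⟩ := Set.MapsTo.exists_equiv_extend_of_card_eq
    (t := (Finset.univ : Finset (Fin (L.length + 1)))) (by simp) (s := s) (f := f)
    (fun x _ => by simp) hfs
  refine ⟨g.trans (Equiv.subtypeUnivEquiv fun x => Finset.mem_univ x), ?_⟩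
  intro x y hxy
  have h1 : ((g x : Fin (L.length + 1))) = f x := hg x ⟨y, hxy⟩
  calc (g.trans (Equiv.subtypeUnivEquiv fun x => Finset.mem_univ x)) x
      = ((g x : Fin (L.length + 1))) := rfl
    _ = y := by rw [h1, hf x y hxy]

theorem path {α : Type} (L : List (α × Bool)) (σ : α → Equiv.Perm (Fin (L.length + 1)))
    (hσ : ∀ i, ∀ x y : Fin (L.length + 1),
      ((x : ℕ) = y + 1 ∧ L[(y : ℕ)]? = some (i, true) ∨
        (y : ℕ) = x + 1 ∧ L[(x : ℕ)]? = some (i, false)) → σ i x = y) :
    ∀ (M P : List (α × Bool)), P ++ M = L → ∀ z : Fin (L.length + 1), (z : ℕ) = P.length →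
      (M.map fun x => cond x.2 (σ x.1) (σ x.1)⁻¹).prod (Fin.last _) = z := by
  intro M
  induction M with
  | nil =>
    intro P hP z hz
    simp only [List.map_nil, List.prod_nil, Equiv.Perm.coe_one, id_eq]
    apply Fin.ext
    rw [hz, ← hP]
    simp
  | cons a M ih =>
    intro P hP z hz
    obtain ⟨i, b⟩ := a
    have hlen : L.length = P.length + (M.length + 1) := by rw [← hP]; simp
    have hz' : (z : ℕ) + 1 < L.length + 1 := by omega
    have h1 := ih (P ++ [(i, b)]) (by rw [← hP]; simp) ⟨z + 1, hz'⟩ (by simp [hz])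
    rw [List.map_cons, List.prod_cons, Equiv.Perm.mul_apply, h1]
    have hget : L[(z : ℕ)]? = some (i, b) := by
      rw [hz, ← hP]
      simp
    cases b with
    | true =>
      simp only [cond_true]
      exact hσ i _ _ (Or.inl ⟨rfl, hget⟩)
    | false =>
      simp only [cond_false]
      rw [Equiv.Perm.inv_eq_iff_eq]
      exact (hσ i _ _ (Or.inr ⟨rfl, hget⟩)).symm

theorem lift_word {α G : Type} [DecidableEq α] [Group G] (σ : α → G) (w : FreeGroup α) :
    FreeGroup.lift σ w = (w.toWord.map fun x => cond x.2 (σ x.1) (σ x.1)⁻¹).prod := by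
  conv_lhs => rw [← FreeGroup.mk_toWord (x := w)]
  rw [FreeGroup.lift_mk]

end RFN_

theorem rfn_proof : Stmt_RFN := by
  intro d w hw
  have hred : FreeGroup.IsReduced w.toWord := FreeGroup.isReduced_toWord
  choose σ hσ using fun i => RFN_.perm w.toWord hred i
  refine ⟨w.toWord.length + 1, σ, ?_⟩
  intro h
  have h1 := RFN_.path w.toWord σ hσ w.toWord [] rfl 0 rfl
  have h2 := RFN_.lift_word σ w
  rw [← h2, h] at h1
  have h3 : (Fin.last w.toWord.length : Fin (w.toWord.length + 1)) = 0 := h1
  have h4 : w.toWord.length = 0 := by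
    have := congrArg Fin.val h3
    simpa using this
  apply hw
  rw [← FreeGroup.toWord_eq_nil_iff]
  exact List.eq_nil_of_length_eq_zero h4

end Pool.Agent.SLR
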