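import Pool.Agent.SLR.Stmts

set_option autoImplicit false

namespace Pool.Agent.SLR

open Module

namespace RKS_

/-- linearly independent columns -/
theorem cols {κ : Type} [Field κ] (m n r : ℕ) (A : Matrix (Fin m) (Fin n) κ) (h : A.rank = r) :
    ∃ c : Fin r → Fin n, LinearIndependent κ fun i => A.col (c i) := by
  subst h
  rw [Matrix.rank_eq_finrank_span_cols]
  obtain ⟨f, hf, -, hli⟩ := Submodule.exists_fun_fin_finrank_span_eq κ (Set.range A.col)
  choose c hc using hf
  refine ⟨c, ?_⟩
  have : (fun i => A.col (c i)) = f := by funext i; exact hc i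
  rw [this]
  exact hli

theorem minor {κ : Type} [Field κ] (m n : ℕ) (A : Matrix (Fin m) (Fin n) κ) :
    ∃ (r : Fin A.rank → Fin m) (c : Fin A.rank → Fin n), (A.submatrix r c).det ≠ 0 := by
  obtain ⟨c, hc⟩ := cols m n A.rank A rfl
  -- the submatrix of the columns
  set B : Matrix (Fin m) (Fin A.rank) κ := A.submatrix id c with hB
  have hBrank : B.rank = A.rank := by
    rw [Matrix.rank_eq_finrank_span_cols]
    have : B.col = fun i => A.col (c i) := by funext i; rfl
    rw [this, finrank_span_eq_card hc, Fintype.card_fin]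
  have hBt : B.transpose.rank = A.rank := by rw [Matrix.rank_transpose, hBrank]
  obtain ⟨r, hr⟩ := cols A.rank m A.rank B.transpose hBt
  refine ⟨r, c, ?_⟩
  have h2 : LinearIndependent κ (A.submatrix r c).row := by
    have : (A.submatrix r c).row = fun i => B.transpose.col (r i) := by funext i; rfl
    rw [this]
    exact hr
  rw [Matrix.linearIndependent_rows_iff_isUnit] at h2
  exact ((Matrix.isUnit_iff_isUnit_det _).mp h2).ne_zero

end RKS_

open RKS_ in
theorem rks_proof : Stmt_RKS := by
  intro R K κ _ _ _ _ hinj f m n M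
  obtain ⟨r, c, hd⟩ := minor m n (M.map f)
  have h1 : (M.submatrix r c).det ≠ 0 := by
    intro h0
    apply hd
    have : (M.map f).submatrix r c = (M.submatrix r c).map f := rfl
    rw [this]
    have h2 := f.map_det (M.submatrix r c)
    rw [RingHom.mapMatrix_apply] at h2
    rw [← h2, h0, map_zero]
  have h3 : ((M.map (algebraMap R K)).submatrix r c).det ≠ 0 := by
    have : (M.map (algebraMap R K)).submatrix r c = (M.submatrix r c).map (algebraMap R K) := rfl
    rw [this]
    have h2 := (algebraMap R K).map_det (M.submatrix r c)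
    rw [RingHom.mapMatrix_apply] at h2
    rw [← h2]
    exact fun h => h1 (hinj (by rw [h, map_zero]))
  have h4 : ((M.map (algebraMap R K)).submatrix r c).rank = (M.map f).rank := by
    rw [Matrix.rank_of_isUnit _ ((Matrix.isUnit_iff_isUnit_det _).mpr h3.isUnit), Fintype.card_fin]
  rw [← h4]
  exact Matrix.rank_submatrix_le _ _ _

end Pool.Agent.SLR
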