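import Pool.Agent.SLR.Stmts

set_option autoImplicit false

namespace Pool.Agent.SLR

open Module Finset Filter Topology

namespace SPM_

/-- The variables: `B, N, D, C0, C i`. -/
abbrev Var (d k l r t : ℕ) : Type :=
  (Fin r × Fin k) ⊕ (Fin k × Fin r) ⊕ (Fin t × Fin l) ⊕ (Fin r × Fin t) ⊕ (Fin d × Fin r × Fin t)

/-- The equations. -/
abbrev Eqn (d l r : ℕ) : Type :=
  (Fin r × Fin r) ⊕ (Fin r × Fin l) ⊕ (Fin d × Fin r × Fin l)

/-- The system `B N = 1`, `B M0 = C0 D`, `B M_i = C_i D`. -/
noncomputable def eqs {R : Type} [CommRing R] {d k l : ℕ} (r t : ℕ) (M0 : Matrix (Fin k) (Fin l) R)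
    (M : Fin d → Matrix (Fin k) (Fin l) R) : Eqn d l r → MvPolynomial (Var d k l r t) R :=
  Sum.elim
    (fun p => ∑ c, MvPolynomial.X (Sum.inl (p.1, c)) * MvPolynomial.X (Sum.inr (Sum.inl (c, p.2)))
      - MvPolynomial.C (if p.1 = p.2 then 1 else 0))
    (Sum.elim
      (fun p => ∑ c, MvPolynomial.X (Sum.inl (p.1, c)) * MvPolynomial.C (M0 c p.2) -
        ∑ s, MvPolynomial.X (Sum.inr (Sum.inr (Sum.inr (Sum.inl (p.1, s))))) *
          MvPolynomial.X (Sum.inr (Sum.inr (Sum.inl (s, p.2)))))
      (fun p => ∑ c, MvPolynomial.X (Sum.inl (p.2.1, c)) * MvPolynomial.C (M p.1 c p.2.2) -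
        ∑ s, MvPolynomial.X (Sum.inr (Sum.inr (Sum.inr (Sum.inr (p.1, p.2.1, s))))) *
          MvPolynomial.X (Sum.inr (Sum.inr (Sum.inl (s, p.2.2))))))

lemma map_eqs {R S : Type} [CommRing R] [CommRing S] (f : R →+* S) {d k l : ℕ} (r t : ℕ)
    (M0 : Matrix (Fin k) (Fin l) R) (M : Fin d → Matrix (Fin k) (Fin l) R) (j : Eqn d l r) :
    MvPolynomial.map f (eqs r t M0 M j) = eqs r t (M0.map f) (fun i => (M i).map f) j := by
  rcases j with j | j | j
  · simp only [eqs, Sum.elim_inl, map_sub, map_sum, map_mul, MvPolynomial.map_X,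
      MvPolynomial.map_C]
    congr 2
    split_ifs <;> simp
  · simp only [eqs, Sum.elim_inl, Sum.elim_inr, map_sub, map_sum, map_mul, MvPolynomial.map_X,
      MvPolynomial.map_C, Matrix.map_apply]
  · simp only [eqs, Sum.elim_inr, map_sub, map_sum, map_mul, MvPolynomial.map_X,
      MvPolynomial.map_C, Matrix.map_apply]

variable {κ : Type} [Field κ]

/-- Solutions give subspaces. -/
lemma sol_sub {d k l r t : ℕ} (M0 : Matrix (Fin k) (Fin l) κ)
    (M : Fin d → Matrix (Fin k) (Fin l) κ) (x : Var d k l r t → κ)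
    (hx : ∀ j, MvPolynomial.eval x (eqs r t M0 M j) = 0) :
    ∃ U : Submodule κ (Fin k → κ), finrank κ U = r ∧
      finrank κ ((penc M0 M).img U (fun _ => U)) ≤ t := by
  set B : Matrix (Fin r) (Fin k) κ := Matrix.of fun a c => x (Sum.inl (a, c)) with hB
  set N : Matrix (Fin k) (Fin r) κ := Matrix.of fun c a => x (Sum.inr (Sum.inl (c, a))) with hN
  set D : Matrix (Fin t) (Fin l) κ := Matrix.of fun s b => x (Sum.inr (Sum.inr (Sum.inl (s, b))))
    with hD
  set C0 : Matrix (Fin r) (Fin t) κ :=
    Matrix.of fun a s => x (Sum.inr (Sum.inr (Sum.inr (Sum.inl (a, s))))) with hC0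
  set C : Fin d → Matrix (Fin r) (Fin t) κ := fun i =>
    Matrix.of fun a s => x (Sum.inr (Sum.inr (Sum.inr (Sum.inr (i, a, s))))) with hC
  have hBN : B * N = 1 := by
    ext a b
    have h1 := hx (Sum.inl (a, b))
    simp only [eqs, Sum.elim_inl, map_sub, map_sum, map_mul, MvPolynomial.eval_X,
      MvPolynomial.eval_C] at h1
    rw [Matrix.mul_apply, Matrix.one_apply]
    exact sub_eq_zero.1 h1
  have hB0 : B * M0 = C0 * D := by
    ext a b
    have h1 := hx (Sum.inr (Sum.inl (a, b)))
    simp only [eqs, Sum.elim_inl, Sum.elim_inr, map_sub, map_sum, map_mul, MvPolynomial.eval_X,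
      MvPolynomial.eval_C] at h1
    rw [Matrix.mul_apply, Matrix.mul_apply]
    exact sub_eq_zero.1 h1
  have hBi : ∀ i, B * M i = C i * D := by
    intro i
    ext a b
    have h1 := hx (Sum.inr (Sum.inr (i, a, b)))
    simp only [eqs, Sum.elim_inr, map_sub, map_sum, map_mul, MvPolynomial.eval_X,
      MvPolynomial.eval_C] at h1
    rw [Matrix.mul_apply, Matrix.mul_apply]
    exact sub_eq_zero.1 h1
  refine ⟨LinearMap.range B.vecMulLinear, ?_, ?_⟩
  · have hinj : Function.Injective B.vecMulLinear := by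
      apply Function.LeftInverse.injective (g := N.vecMulLinear)
      intro v
      simp only [Matrix.vecMulLinear_apply]
      rw [Matrix.vecMul_vecMul, hBN, Matrix.vecMul_one]
    rw [LinearMap.finrank_range_of_inj hinj]
    simp
  · have key : ∀ (M' : Matrix (Fin k) (Fin l) κ) (C' : Matrix (Fin r) (Fin t) κ),
        B * M' = C' * D → (LinearMap.range B.vecMulLinear).map M'.vecMulLinear ≤
          LinearMap.range D.vecMulLinear := by
      rintro M' C' h _ ⟨_, ⟨v, rfl⟩, rfl⟩
      refine ⟨C'.vecMulLinear v, ?_⟩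
      simp only [Matrix.vecMulLinear_apply]
      rw [Matrix.vecMul_vecMul, Matrix.vecMul_vecMul, h]
    have hle : (penc M0 M).img (LinearMap.range B.vecMulLinear)
        (fun _ => LinearMap.range B.vecMulLinear) ≤ LinearMap.range D.vecMulLinear := by
      unfold Pencil.img
      exact sup_le (key M0 C0 hB0) (iSup_le fun i => key (M i) (C i) (hBi i))
    calc finrank κ ((penc M0 M).img (LinearMap.range B.vecMulLinear)
          (fun _ => LinearMap.range B.vecMulLinear))
        ≤ finrank κ (LinearMap.range D.vecMulLinear) := Submodule.finrank_mono hle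
      _ ≤ finrank κ (Fin t → κ) := LinearMap.finrank_range_le _
      _ = t := by simp

/-- Subspaces give solutions. -/
lemma sub_sol {d k l : ℕ} (M0 : Matrix (Fin k) (Fin l) κ)
    (M : Fin d → Matrix (Fin k) (Fin l) κ) (U : Submodule κ (Fin k → κ))
    (W : Submodule κ (Fin l → κ)) (h0 : U.map M0.vecMulLinear ≤ W)
    (hi : ∀ i, U.map (M i).vecMulLinear ≤ W) :
    ∃ x : Var d k l (finrank κ U) (finrank κ W) → κ,
      ∀ j, MvPolynomial.eval x (eqs (finrank κ U) (finrank κ W) M0 M j) = 0 := by
  set bU := Module.finBasis κ U with hbU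
  set bW := Module.finBasis κ W with hbW
  set B : Matrix (Fin (finrank κ U)) (Fin k) κ := Matrix.of fun a => (bU a : Fin k → κ) with hB
  set D : Matrix (Fin (finrank κ W)) (Fin l) κ := Matrix.of fun a => (bW a : Fin l → κ) with hD
  have hBm : ∀ a, B a ∈ U := fun a => (bU a).2
  have hBinj : Function.Injective B.vecMulLinear := by
    intro v w hvw
    simp only [Matrix.vecMulLinear_apply] at hvw
    have h1 : ∑ a, v a • bU a = ∑ a, w a • bU a := by
      apply Subtype.ext
      simp only [Submodule.coe_sum, Submodule.coe_smul]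
      funext c
      have h2 := congrFun hvw c
      simp only [Matrix.vecMul, dotProduct] at h2
      simp only [Finset.sum_apply, Pi.smul_apply, smul_eq_mul]
      exact h2
    have h3 := congrArg bU.repr h1
    funext a
    have h4 := congrArg (fun z => z a) h3
    simpa [map_sum, Finsupp.single_apply] using h4
  obtain ⟨g, hg⟩ := LinearMap.exists_leftInverse_of_injective B.vecMulLinear
    (LinearMap.ker_eq_bot.2 hBinj)
  set N : Matrix (Fin k) (Fin (finrank κ U)) κ := Matrix.of fun c => g (Pi.single c 1) with hN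
  have hNg : ∀ v : Fin k → κ, Matrix.vecMul v N = g v := by
    intro v
    have h1 : v = ∑ c, v c • (Pi.single c (1 : κ) : Fin k → κ) := by
      funext b
      simp [Finset.sum_apply, Pi.single_apply]
    conv_rhs => rw [h1]
    rw [map_sum]
    funext b
    simp only [map_smul, Finset.sum_apply, Pi.smul_apply, smul_eq_mul, Matrix.vecMul, dotProduct]
    rfl
  have hBN : B * N = 1 := by
    ext a b
    have h1 : Matrix.vecMul (Pi.single a (1 : κ)) (B * N) = Pi.single a 1 := by
      rw [← Matrix.vecMul_vecMul, hNg]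
      have := LinearMap.congr_fun hg (Pi.single a 1)
      simpa using this
    have h2 := congrFun h1 b
    rw [Matrix.single_one_vecMul] at h2
    rw [Matrix.one_apply]
    rw [Matrix.row_apply] at h2
    rw [h2, Pi.single_apply]
    by_cases hab : a = b
    · rw [if_pos hab, if_pos hab.symm]
    · rw [if_neg hab, if_neg (fun h => hab h.symm)]
  have hC : ∀ M' : Matrix (Fin k) (Fin l) κ, U.map M'.vecMulLinear ≤ W →
      ∃ C' : Matrix (Fin (finrank κ U)) (Fin (finrank κ W)) κ, B * M' = C' * D := by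
    intro M' hM'
    have h1 : ∀ a, Matrix.vecMul (B a) M' ∈ W := fun a => hM' ⟨B a, hBm a, rfl⟩
    refine ⟨Matrix.of fun a s => bW.repr ⟨_, h1 a⟩ s, ?_⟩
    ext a b
    have h2 := bW.sum_repr ⟨_, h1 a⟩
    have h3 := congrArg (fun z : W => (z : Fin l → κ) b) h2
    simp only [Submodule.coe_sum, Submodule.coe_smul, Finset.sum_apply, Pi.smul_apply,
      smul_eq_mul] at h3
    rw [Matrix.mul_apply, Matrix.mul_apply]
    exact h3.symm
  obtain ⟨C0, hC0⟩ := hC M0 h0
  choose C hCi using fun i => hC (M i) (hi i)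
  refine ⟨Sum.elim (fun p => B p.1 p.2) (Sum.elim (fun p => N p.1 p.2) (Sum.elim
    (fun p => D p.1 p.2) (Sum.elim (fun p => C0 p.1 p.2) (fun p => C p.1 p.2.1 p.2.2)))), ?_⟩
  rintro (⟨a, b⟩ | ⟨a, b⟩ | ⟨i, a, b⟩)
  · simp only [eqs, Sum.elim_inl, Sum.elim_inr, map_sub, map_sum, map_mul, MvPolynomial.eval_X,
      MvPolynomial.eval_C]
    have := congrFun (congrFun hBN a) b
    rw [Matrix.mul_apply, Matrix.one_apply] at this
    rw [this, sub_self]
  · simp only [eqs, Sum.elim_inl, Sum.elim_inr, map_sub, map_sum, map_mul, MvPolynomial.eval_X,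
      MvPolynomial.eval_C]
    have := congrFun (congrFun hC0 a) b
    rw [Matrix.mul_apply, Matrix.mul_apply] at this
    rw [this, sub_self]
  · simp only [eqs, Sum.elim_inl, Sum.elim_inr, map_sub, map_sum, map_mul, MvPolynomial.eval_X,
      MvPolynomial.eval_C]
    have := congrFun (congrFun (hCi i) a) b
    rw [Matrix.mul_apply, Matrix.mul_apply] at this
    rw [this, sub_self]

end SPM_

open SPM_ in
theorem spm_proof (hExt : Stmt_EXT) (hNst : Stmt_NST) : Stmt_SPM := by
  classical
  intro K _ d k l M0 M δ hdef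
  have hS : ∀ r t : ℕ, ∃ S : Finset K, t + δ + 1 ≤ r →
      ∀ (R : Subalgebra ℤ K), (S : Set K) ⊆ R → ∀ (κ : Type) [Field κ] (f : R →+* κ)
      (pR : Eqn d l r → MvPolynomial (Var d k l r t) R),
      (∀ i, MvPolynomial.map (algebraMap R K) (pR i) = eqs r t M0 M i) →
      ∀ x : Var d k l r t → κ, ∃ i, MvPolynomial.eval₂ f x (pR i) ≠ 0 := by
    intro r t
    by_cases hrt : t + δ + 1 ≤ r
    · have h1 := hNst K (Var d k l r t) (Eqn d l r) (eqs r t M0 M) (by
        intro K1 _ _ _ x
        by_contra hcon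
        push Not at hcon
        have h2 : ∀ j, MvPolynomial.eval x (eqs r t (M0.map (algebraMap K K1))
            (fun i => (M i).map (algebraMap K K1)) j) = 0 := by
          intro j
          rw [← map_eqs, MvPolynomial.eval_map, ← MvPolynomial.aeval_def]
          exact hcon j
        obtain ⟨U, hU1, hU2⟩ := sol_sub _ _ x h2
        have h3 := hExt K K1 d k l M0 M δ hdef U
        have h5 : r ≤ t + δ := by
          calc r = finrank K1 U := hU1.symm
            _ ≤ _ := h3
            _ ≤ t + δ := Nat.add_le_add_right hU2 δ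
        omega)
      obtain ⟨S, hS⟩ := h1
      exact ⟨S, fun _ => hS⟩
    · exact ⟨∅, fun h => absurd h hrt⟩
  choose S hS using hS
  refine ⟨(Finset.range (k + 1)).biUnion fun r => (Finset.range (l + 1)).biUnion fun t => S r t,
    ?_⟩
  intro R hR κ _ f N0 N hN0 hN U
  by_contra hcon
  push Not at hcon
  set W := (penc (N0.map f) (fun i => (N i).map f)).img U (fun _ => U) with hW
  have h0 : U.map (N0.map f).vecMulLinear ≤ W := by
    rw [hW]
    unfold Pencil.img
    exact le_sup_left
  have hi : ∀ i, U.map ((N i).map f).vecMulLinear ≤ W := by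
    intro i
    rw [hW]
    unfold Pencil.img
    refine le_trans ?_ le_sup_right
    exact le_iSup (fun i => U.map ((penc (N0.map f) (fun i => (N i).map f)).a i)) i
  obtain ⟨x, hx⟩ := sub_sol (N0.map f) (fun i => (N i).map f) U W h0 hi
  have hrk : finrank κ U ≤ k := by
    have h1 : finrank κ U ≤ finrank κ (Fin k → κ) := Submodule.finrank_le U
    simpa using h1
  have htl : finrank κ W ≤ l := by
    have h1 : finrank κ W ≤ finrank κ (Fin l → κ) := Submodule.finrank_le W
    simpa using h1
  have hsub : (S (finrank κ U) (finrank κ W) : Set K) ⊆ R := by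
    intro z hz
    apply hR
    simp only [Finset.coe_biUnion, Set.mem_iUnion, Finset.mem_coe, Finset.mem_range]
    exact ⟨finrank κ U, by omega, finrank κ W, by omega, hz⟩
  obtain ⟨j, hj⟩ := hS (finrank κ U) (finrank κ W) (by omega) R hsub κ f
    (eqs (finrank κ U) (finrank κ W) N0 N) (by
      intro j
      rw [map_eqs, hN0]
      congr 2
      funext i
      exact hN i) x
  apply hj
  rw [MvPolynomial.eval₂_eq_eval_map, map_eqs]
  exact hx j

end Pool.Agent.SLR
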