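import Pool.Agent.SLR.Stmts2

set_option autoImplicit false

namespace Pool.Agent.SLR

open Module Finset

namespace TWIaux

variable (K : Type) [Field K]

/-- `K^(m*k) = (K^k)^m` -/
noncomputable def ee (m k : ℕ) : (Fin (m * k) → K) ≃ₗ[K] (Fin m → Fin k → K) :=
  (LinearEquiv.funCongrLeft K K finProdFinEquiv).trans (LinearEquiv.curry K K (Fin m) (Fin k))

theorem ee_apply (m k : ℕ) (x : Fin (m * k) → K) (y : Fin m) (j : Fin k) :
    ee K m k x y j = x (finProdFinEquiv (y, j)) := rfl

/-- shift of the coordinates -/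
noncomputable def sh {m : ℕ} (k : ℕ) (g : Equiv.Perm (Fin m)) :
    (Fin m → Fin k → K) ≃ₗ[K] (Fin m → Fin k → K) :=
  LinearEquiv.funCongrLeft K (Fin k → K) g

theorem sh_apply {m : ℕ} (k : ℕ) (g : Equiv.Perm (Fin m)) (x : Fin m → Fin k → K) (y : Fin m) :
    sh K k g x y = x (g y) := rfl

/-- the `m`-fold direct sum of `f`, twisted by `g` -/
noncomputable def tw {m k l : ℕ} (f : (Fin k → K) →ₗ[K] (Fin l → K)) (g : Equiv.Perm (Fin m)) :
    (Fin (m * k) → K) →ₗ[K] (Fin (m * l) → K) :=
  (ee K m l).symm.toLinearMap ∘ₗ (f.compLeft (Fin m)) ∘ₗ (sh K k g).toLinearMap ∘ₗ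
    (ee K m k).toLinearMap

theorem ee_tw {m k l : ℕ} (f : (Fin k → K) →ₗ[K] (Fin l → K)) (g : Equiv.Perm (Fin m))
    (x : Fin (m * k) → K) (y : Fin m) :
    ee K m l (tw K f g x) y = f (ee K m k x (g y)) := by
  simp [tw, sh_apply]

/-- shift on `K^(m*k)` -/
noncomputable def rr {m : ℕ} (k : ℕ) (g : Equiv.Perm (Fin m)) :
    (Fin (m * k) → K) ≃ₗ[K] (Fin (m * k) → K) :=
  ((ee K m k).trans (sh K k g)).trans (ee K m k).symm

theorem ee_rr {m : ℕ} (k : ℕ) (g : Equiv.Perm (Fin m)) (x : Fin (m * k) → K) (y : Fin m) :
    ee K m k (rr K k g x) y = ee K m k x (g y) := by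
  simp [rr, sh_apply]

theorem ext_ee {m k : ℕ} {x x' : Fin (m * k) → K} (h : ∀ y, ee K m k x y = ee K m k x' y) :
    x = x' := (ee K m k).injective (funext h)

theorem tw_rr {m k l : ℕ} (f : (Fin k → K) →ₗ[K] (Fin l → K)) (g t : Equiv.Perm (Fin m)) :
    tw K f 1 ∘ₗ (rr K k (t * g)).toLinearMap = (rr K l g).toLinearMap ∘ₗ tw K f t := by
  ext1 x
  refine LinearMap.ext fun c => ext_ee K fun y => ?_
  simp only [LinearMap.comp_apply, LinearEquiv.coe_coe, ee_tw, ee_rr, Equiv.Perm.coe_one, id,
    Equiv.Perm.mul_apply]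

end TWIaux

open TWIaux in
theorem twi_proof (hL : Stmt_LING) (hF : Stmt_FLT) : Stmt_TWI := by
  intro K _ d P δ hP m τ
  set P' : Pencil K d := ⟨m * P.k, m * P.l, tw K P.a0 1, fun i => tw K (P.a i) (τ i)⟩ with hP'
  set Pm : Pencil K d := ⟨m * P.k, m * P.l, tw K P.a0 1, fun i => tw K (P.a i) 1⟩ with hPm
  refine ⟨P', ?_, ?_⟩
  · -- the direct sum
    have hm : Pm.DefLE (δ * m) := by
      intro U
      have h := hF K d P δ hP m (U.map (ee K m P.k).toLinearMap)
      have h1 : finrank K (U.map (ee K m P.k).toLinearMap) = finrank K U :=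
        LinearEquiv.finrank_map_eq (ee K m P.k) U
      have h2 : (Pm.img U fun _ => U).map (ee K m P.l).toLinearMap
          = ((U.map (ee K m P.k).toLinearMap).map (P.a0.compLeft (Fin m)) ⊔
            ⨆ i, (U.map (ee K m P.k).toLinearMap).map ((P.a i).compLeft (Fin m))) := by
        have key : ∀ f : (Fin P.k → K) →ₗ[K] (Fin P.l → K),
            (U.map (tw K f (1 : Equiv.Perm (Fin m)))).map (ee K m P.l).toLinearMap
            = (U.map (ee K m P.k).toLinearMap).map (f.compLeft (Fin m)) := by
          intro f
          rw [← Submodule.map_comp, ← Submodule.map_comp]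
          congr 1
          refine LinearMap.ext fun c => funext fun y => ?_
          simp only [LinearMap.comp_apply, LinearEquiv.coe_coe, ee_tw]
          rfl
        unfold Pencil.img
        simp only [hPm, Submodule.map_sup, Submodule.map_iSup]
        rw [key]
        congr 1
        exact iSup_congr fun i => key _
      have h3 : finrank K ((Pm.img U fun _ => U).map (ee K m P.l).toLinearMap)
          = finrank K (Pm.img U fun _ => U) := LinearEquiv.finrank_map_eq (ee K m P.l) _
      rw [← h2, h3, h1] at h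
      exact h
    intro U
    have h := hL K d Pm (δ * m) hm (Equiv.Perm (Fin m)) τ
      (fun g => U.map (rr K P.k g).toLinearMap)
    have h1 : ∀ g : Equiv.Perm (Fin m), finrank K (U.map (rr K P.k g).toLinearMap) = finrank K U :=
      fun g => LinearEquiv.finrank_map_eq (rr K P.k g) U
    have h2 : ∀ g : Equiv.Perm (Fin m),
        finrank K (Pm.img (U.map (rr K P.k g).toLinearMap)
          (fun i => U.map (rr K P.k (τ i * g)).toLinearMap))
        = finrank K (P'.img U fun _ => U) := by
      intro g
      have e : Pm.img (U.map (rr K P.k g).toLinearMap)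
          (fun i => U.map (rr K P.k (τ i * g)).toLinearMap)
          = (P'.img U fun _ => U).map (rr K P.l g).toLinearMap := by
        have key : ∀ (f : (Fin P.k → K) →ₗ[K] (Fin P.l → K)) (t : Equiv.Perm (Fin m)),
            (U.map (rr K P.k (t * g)).toLinearMap).map (tw K f 1)
            = (U.map (tw K f t)).map (rr K P.l g).toLinearMap := by
          intro f t
          rw [← Submodule.map_comp, ← Submodule.map_comp, tw_rr]
        unfold Pencil.img
        simp only [hPm, hP', Submodule.map_sup, Submodule.map_iSup]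
        congr 1
        · have := key P.a0 1
          rwa [one_mul] at this
        · exact iSup_congr fun i => key _ _
      rw [e]
      exact LinearEquiv.finrank_map_eq (rr K P.l g) _
    have e1 : ∑ g : Equiv.Perm (Fin m), finrank K (U.map (rr K P.k g).toLinearMap)
        = Fintype.card (Equiv.Perm (Fin m)) * finrank K U := by
      rw [Finset.sum_congr rfl fun g _ => h1 g]
      simp
    have e2 : ∑ g : Equiv.Perm (Fin m), finrank K (Pm.img (U.map (rr K P.k g).toLinearMap)
          (fun i => U.map (rr K P.k (τ i * g)).toLinearMap))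
        = Fintype.card (Equiv.Perm (Fin m)) * finrank K (P'.img U fun _ => U) := by
      rw [Finset.sum_congr rfl fun g _ => h2 g]
      simp
    have h : ∑ g : Equiv.Perm (Fin m), finrank K (U.map (rr K P.k g).toLinearMap)
        ≤ ∑ g : Equiv.Perm (Fin m), finrank K (Pm.img (U.map (rr K P.k g).toLinearMap)
          (fun i => U.map (rr K P.k (τ i * g)).toLinearMap))
        + δ * m * Fintype.card (Equiv.Perm (Fin m)) := h
    rw [e1, e2] at h
    have hpos : 0 < Fintype.card (Equiv.Perm (Fin m)) := Fintype.card_pos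
    refine Nat.le_of_mul_le_mul_left ?_ hpos
    refine h.trans (le_of_eq ?_)
    ring
  · intro n σ
    -- linear equivalences
    let Ψ : ∀ k : ℕ, (Fin n → Fin (m * k) → K) ≃ₗ[K] (Fin (m * n) → Fin k → K) := fun k =>
      { toFun := fun x p => ee K m k (x (finProdFinEquiv.symm p).2) (finProdFinEquiv.symm p).1
        map_add' := fun x y => by
          funext p
          simp
        map_smul' := fun c x => by
          funext p
          simp
        invFun := fun z v => (ee K m k).symm fun y => z (finProdFinEquiv (y, v))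
        left_inv := fun x => by
          funext v
          refine ext_ee K fun y => ?_
          simp
        right_inv := fun z => by
          funext p
          simp only [LinearEquiv.apply_symm_apply]
          exact congrArg z (finProdFinEquiv.apply_symm_apply p) }
    have hΨ : ∀ (k : ℕ) (x : Fin n → Fin (m * k) → K) (y : Fin m) (v : Fin n),
        Ψ k x (finProdFinEquiv (y, v)) = ee K m k (x v) y := by
      intro k x y v
      change ee K m k (x (finProdFinEquiv.symm (finProdFinEquiv (y, v))).2)
        (finProdFinEquiv.symm (finProdFinEquiv (y, v))).1 = _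
      rw [Equiv.symm_apply_apply]
    have hcomm : ∀ x : Fin n → Fin (m * P.k) → K,
        P.onPts (prodPerm τ σ) (Ψ P.k x) = Ψ P.l (P'.onPts σ x) := by
      intro x
      funext p
      obtain ⟨⟨y, v⟩, rfl⟩ := finProdFinEquiv.surjective p
      rw [hΨ]
      change P.a0 (Ψ P.k x (finProdFinEquiv (y, v)))
        + ∑ i, P.a i (Ψ P.k x (prodPerm τ σ i (finProdFinEquiv (y, v))))
        = ee K m P.l (tw K P.a0 1 (x v) + ∑ i, tw K (P.a i) (τ i) (x (σ i v))) y
      have h1 : ∀ i, prodPerm τ σ i (finProdFinEquiv (y, v))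
          = finProdFinEquiv (τ i y, σ i v) := by
        intro i
        simp [prodPerm]
      simp only [h1, hΨ, map_add, map_sum, Pi.add_apply, Finset.sum_apply, ee_tw,
        Equiv.Perm.coe_one, id]
    have hker : (LinearMap.ker (P'.onPts σ)).map (Ψ P.k).toLinearMap
        = LinearMap.ker (P.onPts (prodPerm τ σ)) := by
      ext z
      constructor
      · rintro ⟨x, hx, rfl⟩
        have hx' : P'.onPts σ x = 0 := hx
        change P.onPts (prodPerm τ σ) (Ψ P.k x) = 0
        rw [hcomm, hx', map_zero]
      · intro hz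
        have hz' : P.onPts (prodPerm τ σ) z = 0 := hz
        refine ⟨(Ψ P.k).symm z, ?_, by simp⟩
        change P'.onPts σ ((Ψ P.k).symm z) = 0
        apply (Ψ P.l).injective
        rw [← hcomm, LinearEquiv.apply_symm_apply, hz', map_zero]
    rw [← hker]
    exact (LinearEquiv.finrank_map_eq (Ψ P.k) _).symm

end Pool.Agent.SLR
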