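import Pool.Agent.SLR.Stmts

set_option autoImplicit false

namespace Pool.Agent.SLR

open Module Finset Filter Topology
open scoped Nat

namespace TYP_

theorem finite_sub (K : Type) [Field K] [Finite K] (k : ℕ) :
    Finite (Submodule K (Fin k → K)) :=
  Finite.of_injective (fun U : Submodule K (Fin k → K) => (U : Set (Fin k → K)))
    SetLike.coe_injective

/-- The bad event. -/
def Bad {K : Type} [Field K] {n k : ℕ} (V : Submodule K (Fin n → Fin k → K)) (b M : ℕ)
    (t : Submodule K (Fin k → K) × (Fin M → Fin k → K)) : Set (Fin M → V) :=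
  {x | b < Nat.card {v // proj V v = t.1} ∧ 2 * Nat.card {v // proj V v = t.1} <
    Nat.card {v // proj V v = t.1 ∧ ∀ j, (x j : Fin n → Fin k → K) v = t.2 j} *
      Nat.card t.1 ^ M}

theorem bad_le (hC : Stmt_CHB) (K : Type) [Field K] [Finite K] (n k M b : ℕ)
    (V : Submodule K (Fin n → Fin k → K))
    (t : Submodule K (Fin k → K) × (Fin M → Fin k → K)) :
    Nat.card (Bad V b M t) * b ^ 2 ≤ (dep V).card * Nat.card V ^ M * Nat.card K ^ (2 * k * M) := by
  classical
  haveI := finite_sub K k
  by_cases hb : b < Nat.card {v // proj V v = t.1}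
  · have h := hC K n k M V t.1 (Finset.univ.filter fun v => proj V v = t.1)
      (by intro v hv; exact (Finset.mem_filter.1 hv).2) t.2
    have hcard : (Finset.univ.filter fun v => proj V v = t.1).card =
        Nat.card {v // proj V v = t.1} := by
      rw [Nat.card_eq_fintype_card, Fintype.card_subtype]
    rw [hcard] at h
    simp only [Finset.mem_filter, Finset.mem_univ, true_and] at h
    have h1 : Nat.card (Bad V b M t) ≤ Nat.card {x : Fin M → V //
        2 * Nat.card {v // proj V v = t.1} <
          Nat.card {v : Fin n // proj V v = t.1 ∧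
            ∀ j, (x j : Fin n → Fin k → K) v = t.2 j} * Nat.card t.1 ^ M} := by
      refine Nat.card_le_card_of_injective
        (fun x : Bad V b M t => ⟨x.1, x.2.2⟩) ?_
      intro x y hxy
      simpa [Subtype.ext_iff] using hxy
    have h2 : Nat.card t.1 ≤ Nat.card K ^ k := by
      have h3 : Nat.card t.1 ≤ Nat.card (Fin k → K) :=
        Nat.card_le_card_of_injective (fun x : t.1 => (x : Fin k → K)) Subtype.val_injective
      rwa [Nat.card_fun, Nat.card_eq_fintype_card (α := Fin k), Fintype.card_fin] at h3
    calc Nat.card (Bad V b M t) * b ^ 2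
        ≤ Nat.card {x : Fin M → V //
        2 * Nat.card {v // proj V v = t.1} <
          Nat.card {v : Fin n // proj V v = t.1 ∧
            ∀ j, (x j : Fin n → Fin k → K) v = t.2 j} * Nat.card t.1 ^ M} *
          Nat.card {v // proj V v = t.1} ^ 2 :=
          Nat.mul_le_mul h1 (Nat.pow_le_pow_left hb.le 2)
      _ ≤ (dep V).card * Nat.card V ^ M * Nat.card t.1 ^ (2 * M) := h
      _ ≤ (dep V).card * Nat.card V ^ M * Nat.card K ^ (2 * k * M) := by
          refine Nat.mul_le_mul_left _ ?_
          calc Nat.card t.1 ^ (2 * M) ≤ (Nat.card K ^ k) ^ (2 * M) := Nat.pow_le_pow_left h2 _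
            _ = Nat.card K ^ (2 * k * M) := by rw [← pow_mul]; congr 1; ring
  · have h0 : Bad V b M t = ∅ := by
      ext x
      simp only [Bad, Set.mem_setOf_eq, Set.mem_empty_iff_false, iff_false, not_and]
      intro h; exact absurd h hb
    rw [h0]
    simp

end TYP_

open TYP_ in
theorem typ_proof (hC : Stmt_CHB) : Stmt_TYP := by
  classical
  intro K _ _ n k M b V hb hdep
  haveI := finite_sub K k
  haveI : Fintype K := Fintype.ofFinite K
  haveI : Fintype V := Fintype.ofFinite V
  haveI : Fintype (Submodule K (Fin k → K)) := Fintype.ofFinite _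
  -- typical tuples of elements of `V`
  let P : (Fin M → V) → Prop := fun x =>
    Typ (fun v => proj V v) b M (fun j => (x j : Fin n → Fin k → K))
  have hcard : Nat.card V ^ M = Nat.card {x : Fin M → V // P x} +
      Nat.card {x : Fin M → V // ¬ P x} := by
    have h1 : Nat.card (Fin M → V) = Nat.card V ^ M := by
      rw [Nat.card_fun, Nat.card_eq_fintype_card (α := Fin M), Fintype.card_fin]
    rw [← h1, ← Nat.card_sum]
    exact Nat.card_congr (Equiv.sumCompl P).symm
  have htyp : Nat.card {x : Fin M → V // P x} ≤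
      Nat.card {x : Fin M → Fin n → Fin k → K //
      (∀ j, x j ∈ V) ∧ Typ (fun v => proj V v) b M x} := by
    refine Nat.card_le_card_of_injective (fun x : {x : Fin M → V // P x} =>
      (⟨fun j => (x.1 j : Fin n → Fin k → K), fun j => (x.1 j).2, x.2⟩ :
        {x : Fin M → Fin n → Fin k → K // (∀ j, x j ∈ V) ∧ Typ (fun v => proj V v) b M x})) ?_
    intro x y hxy
    apply Subtype.ext
    funext j
    apply Subtype.ext
    have := congrArg (fun z => z.1 j) hxy
    exact this
  -- atypical tuples are bad
  have hat : Nat.card {x : Fin M → V // ¬ P x} ≤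
      ∑ t : Submodule K (Fin k → K) × (Fin M → Fin k → K), Nat.card (Bad V b M t) := by
    have h1 : Nat.card {x : Fin M → V // ¬ P x} ≤
        Nat.card (Σ t : Submodule K (Fin k → K) × (Fin M → Fin k → K), (Bad V b M t)) := by
      have hex : ∀ x : {x : Fin M → V // ¬ P x},
          ∃ t : Submodule K (Fin k → K) × (Fin M → Fin k → K), x.1 ∈ Bad V b M t := by
        rintro ⟨x, hx⟩
        by_contra hcon
        push Not at hcon
        apply hx
        refine ⟨?_, ?_⟩
        · intro j v
          exact ⟨x j, (x j).2, rfl⟩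
        · intro U hU c
          have h2 := hcon (U, c)
          simp only [Bad, Set.mem_setOf_eq, not_and, not_lt] at h2
          exact h2 hU
      choose t ht using hex
      refine Nat.card_le_card_of_injective (fun x => ⟨t x, x.1, ht x⟩) ?_
      intro x y hxy
      simp only [Sigma.mk.injEq] at hxy
      obtain ⟨h1, h2⟩ := hxy
      apply Subtype.ext
      have : ∀ (t₁ t₂ : Submodule K (Fin k → K) × (Fin M → Fin k → K)) (a : Bad V b M t₁)
          (a' : Bad V b M t₂), t₁ = t₂ → HEq a a' → a.1 = a'.1 := by
        rintro t₁ t₂ a a' rfl h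
        rw [eq_of_heq h]
      exact this _ _ _ _ h1 h2
    refine h1.trans (le_of_eq ?_)
    rw [Nat.card_sigma]
  -- the union bound
  have hb2 : Nat.card {x : Fin M → V // ¬ P x} * b ^ 2 ≤
      Nat.card (Submodule K (Fin k → K)) * Nat.card K ^ (k * M) *
        ((dep V).card * Nat.card V ^ M * Nat.card K ^ (2 * k * M)) := by
    calc Nat.card {x : Fin M → V // ¬ P x} * b ^ 2
        ≤ (∑ t : Submodule K (Fin k → K) × (Fin M → Fin k → K), Nat.card (Bad V b M t)) * b ^ 2 :=
          Nat.mul_le_mul_right _ hat
      _ = ∑ t : Submodule K (Fin k → K) × (Fin M → Fin k → K),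
          Nat.card (Bad V b M t) * b ^ 2 := by rw [Finset.sum_mul]
      _ ≤ ∑ _t : Submodule K (Fin k → K) × (Fin M → Fin k → K),
          ((dep V).card * Nat.card V ^ M * Nat.card K ^ (2 * k * M)) :=
          Finset.sum_le_sum fun t _ => bad_le hC K n k M b V t
      _ = Nat.card (Submodule K (Fin k → K)) * Nat.card K ^ (k * M) *
        ((dep V).card * Nat.card V ^ M * Nat.card K ^ (2 * k * M)) := by
          rw [Finset.sum_const, Finset.card_univ, smul_eq_mul, Fintype.card_prod,
            ← Nat.card_eq_fintype_card, ← Nat.card_eq_fintype_card, Nat.card_fun, Nat.card_fun,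
            Nat.card_eq_fintype_card (α := Fin M), Nat.card_eq_fintype_card (α := Fin k),
            Fintype.card_fin, Fintype.card_fin, ← pow_mul]
  have h3 : 2 * Nat.card {x : Fin M → V // ¬ P x} ≤ Nat.card V ^ M := by
    have hbpos : 0 < b ^ 2 := by positivity
    refine Nat.le_of_mul_le_mul_right ?_ hbpos
    calc 2 * Nat.card {x : Fin M → V // ¬ P x} * b ^ 2
        = 2 * (Nat.card {x : Fin M → V // ¬ P x} * b ^ 2) := by ring
      _ ≤ 2 * (Nat.card (Submodule K (Fin k → K)) * Nat.card K ^ (k * M) *
        ((dep V).card * Nat.card V ^ M * Nat.card K ^ (2 * k * M))) :=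
          Nat.mul_le_mul_left _ hb2
      _ = (2 * Nat.card (Submodule K (Fin k → K)) * Nat.card K ^ (3 * k * M) * (dep V).card) *
          Nat.card V ^ M := by
          have : Nat.card K ^ (3 * k * M) = Nat.card K ^ (k * M) * Nat.card K ^ (2 * k * M) := by
            rw [← pow_add]; congr 1; ring
          rw [this]; ring
      _ ≤ b ^ 2 * Nat.card V ^ M := Nat.mul_le_mul_right _ hdep
      _ = Nat.card V ^ M * b ^ 2 := by ring
  have h4 := Nat.mul_le_mul_left 2 htyp
  omega

end Pool.Agent.SLR
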