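import Pool.Agent.SLR.LING
import Pool.Agent.SLR.LIN
import Pool.Agent.SLR.PIN
import Pool.Agent.SLR.PDM
import Pool.Agent.SLR.CHB
import Pool.Agent.SLR.TYP
import Pool.Agent.SLR.FIB
import Pool.Agent.SLR.FAC
import Pool.Agent.SLR.CXY
import Pool.Agent.SLR.CNT
import Pool.Agent.SLR.BAD
import Pool.Agent.SLR.ASY
import Pool.Agent.SLR.FIN
import Pool.Agent.SLR.FLT
import Pool.Agent.SLR.EXT
import Pool.Agent.SLR.NST
import Pool.Agent.SLR.SPM
import Pool.Agent.SLR.FRF
import Pool.Agent.SLR.RKS
import Pool.Agent.SLR.SPC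
import Pool.Agent.SLR.LOW
import Pool.Agent.SLR.EXD
import Pool.Agent.SLR.LNZ
import Pool.Agent.SLR.RFN
import Pool.Agent.SLR.FIX
import Pool.Agent.SLR.BCL
import Pool.Agent.SLR.TWI
import Pool.Agent.SLR.MAIN2
import Pool.Agent.SLR.COV
import Pool.Agent.SLR.Final

set_option autoImplicit false

namespace Pool.Agent.SLR

theorem all_lin : Stmt_LIN := lin_proof ling_proof

theorem all_cnt : Stmt_CNT := cnt_proof all_lin fib_proof fac_proof cxy_proof

theorem all_typ : Stmt_TYP := typ_proof chb_proof

theorem all_bad : Stmt_BAD := bad_proof pin_proof pdm_proof all_typ all_cnt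

theorem all_fin : Stmt_FIN := fin_proof all_bad asy_proof

theorem all_ext : Stmt_EXT := ext_proof flt_proof

theorem all_spm : Stmt_SPM := spm_proof all_ext nst_proof

theorem all_spc : Stmt_SPC := spc_proof all_spm frf_proof rks_proof

theorem all_twi : Stmt_TWI := twi_proof ling_proof flt_proof

theorem all_main2 : Stmt_MAIN2 :=
  main2_proof lnz exd_proof low_proof all_spc all_fin all_twi

theorem all_main1 : Stmt_MAIN1 := main1_of_main2 all_main2

theorem all_fix : Stmt_FIX := fix_proof all_main1 rfn_proof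

end Pool.Agent.SLR
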