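import Mathlib

set_option autoImplicit false

namespace Pool.Agent.SLR

open Module

/-- A linear pencil over `K` in `d` (group) variables: linear maps `a0, a 0, …, a (d-1)` from `K^k` to `K^l`. -/
structure Pencil (K : Type) [Field K] (d : ℕ) where
  k : ℕ
  l : ℕ
  a0 : (Fin k → K) →ₗ[K] (Fin l → K)
  a : Fin d → ((Fin k → K) →ₗ[K] (Fin l → K))

variable {K : Type} [Field K] {d : ℕ}

/-- `a0 U0 + ∑ i, a i (U i)`. -/
def Pencil.img (P : Pencil K d) (U0 : Submodule K (Fin P.k → K))
    (U : Fin d → Submodule K (Fin P.k → K)) : Submodule K (Fin P.l → K) :=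
  U0.map P.a0 ⊔ ⨆ i, (U i).map (P.a i)

/-- The linear map defined by the pencil on `n` points with permutations `σ`:
`(x_v)_v ↦ (a0 x_v + ∑ i, a i x_{σ i v})_v`. -/
def Pencil.onPts (P : Pencil K d) {n : ℕ} (σ : Fin d → Equiv.Perm (Fin n)) :
    (Fin n → Fin P.k → K) →ₗ[K] (Fin n → Fin P.l → K) where
  toFun x v := P.a0 (x v) + ∑ i, P.a i (x (σ i v))
  map_add' x y := by
    funext v
    simp only [Pi.add_apply, map_add, Finset.sum_add_distrib]
    abel
  map_smul' c x := by
    funext v
    simp only [Pi.smul_apply, map_smul, RingHom.id_apply, smul_add, Finset.smul_sum]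

/-- Every subspace `U` satisfies `dim U ≤ dim (a0 U + ∑ a i U) + δ`. -/
def Pencil.DefLE (P : Pencil K d) (δ : ℕ) : Prop :=
  ∀ U : Submodule K (Fin P.k → K), finrank K U ≤ finrank K (P.img U (fun _ => U)) + δ

/-- `δ` is the defect of the pencil: the maximum of `dim U - dim (a0 U + ∑ a i U)`. -/
def Pencil.IsDefect (P : Pencil K d) (δ : ℕ) : Prop :=
  P.DefLE δ ∧ ∃ U : Submodule K (Fin P.k → K), finrank K (P.img U (fun _ => U)) + δ = finrank K U

/-- elements of `V` vanishing on `T` -/
def pin {n k : ℕ} (V : Submodule K (Fin n → Fin k → K)) (T : Finset (Fin n)) :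
    Submodule K (Fin n → Fin k → K) where
  carrier := {x | x ∈ V ∧ ∀ t ∈ T, x t = 0}
  add_mem' := by
    rintro x y ⟨hx, hx'⟩ ⟨hy, hy'⟩
    exact ⟨V.add_mem hx hy, fun t ht => by simp [hx' t ht, hy' t ht]⟩
  zero_mem' := ⟨V.zero_mem, fun _ _ => rfl⟩
  smul_mem' := by
    rintro c x ⟨hx, hx'⟩
    exact ⟨V.smul_mem c hx, fun t ht => by simp [hx' t ht]⟩

/-- the projection of `V` to the coordinate `v` -/
def proj {n k : ℕ} (V : Submodule K (Fin n → Fin k → K)) (v : Fin n) :
    Submodule K (Fin k → K) :=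
  V.map (LinearMap.proj v)

open Classical in
/-- the dependent pairs of `V`: pairs `(v, w)` such that the elements of `V` vanishing at `w` do not
project onto the projection of `V` at `v` -/
noncomputable def dep {n k : ℕ} (V : Submodule K (Fin n → Fin k → K)) :
    Finset (Fin n × Fin n) :=
  Finset.univ.filter fun p => ¬ proj V p.1 ≤ proj (pin V {p.2}) p.1

/-- The matrix of the map `K[X]^k → K[X]^l`, `x ↦ x A`, for the `F`-set `X = Fin n` given by the
permutations `σ` (exactly the matrix of the frozen statement S02801). -/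
noncomputable def mat {k l : ℕ} (A : Matrix (Fin k) (Fin l) (FreeGroup (Fin d) →₀ K)) {n : ℕ}
    (σ : Fin d → Equiv.Perm (Fin n)) : Matrix (Fin k × Fin n) (Fin l × Fin n) K :=
  Matrix.of fun p q => (A p.1 q.1).sum fun w c =>
    if FreeGroup.lift σ w q.2 = p.2 then c else 0

end Pool.Agent.SLR
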