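import Pool.Agent.SLR.INRc

/-!
# SLR, module INR: the sofic rank of a matrix over the group algebra of a free group is its stable
inner rank
-/

set_option autoImplicit false

namespace Pool.Agent.SLR

open Module Finset Filter Topology Matrix
open scoped Nat

/-- INR: a number `r` with the property of the main theorem is the stable inner rank of `A`. -/
def Stmt_INR : Prop := ∀ (K : Type) [Field K] (d k l : ℕ)
  (A : Matrix (Fin k) (Fin l) (FreeGroup (Fin d) →₀ K)) (r : ℕ),
    (∀ (n : ℕ) (σ : Fin d → Equiv.Perm (Fin n)), (mat A σ).rank ≤ r * n) →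
    (∀ ε : ℝ, 0 < ε → ∃ c : ℝ, 0 < c ∧ ∀ᶠ n : ℕ in atTop,
      (Nat.card {σ : Fin d → Equiv.Perm (Fin n) // ((mat A σ).rank : ℝ) ≤ (r - ε) * n} : ℝ)
        ≤ (n : ℝ) ^ (-(c * n)) * ((n ! : ℕ) : ℝ) ^ d) →
    IsLeast {r' : ℕ | StabFactor A r'} r

namespace INR

theorem exists_not {d n : ℕ} (hn : 2 ≤ n) (c : ℝ) (hc : 0 < c)
    (p : (Fin d → Equiv.Perm (Fin n)) → Prop)
    (h : (Nat.card {σ : Fin d → Equiv.Perm (Fin n) // p σ} : ℝ)
        ≤ (n : ℝ) ^ (-(c * n)) * ((n ! : ℕ) : ℝ) ^ d) : ∃ σ, ¬ p σ := by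
  by_contra hcon
  push Not at hcon
  have h1 : Nat.card {σ : Fin d → Equiv.Perm (Fin n) // p σ} = (n !) ^ d := by
    have h2 : Nat.card {σ : Fin d → Equiv.Perm (Fin n) // p σ} =
        Nat.card (Fin d → Equiv.Perm (Fin n)) :=
      Nat.card_congr (Equiv.subtypeUnivEquiv hcon)
    rw [h2, Nat.card_fun]
    simp [Nat.card_eq_fintype_card, Fintype.card_perm]
  rw [h1] at h
  have h3 : (n : ℝ) ^ (-(c * n)) < 1 := by
    apply Real.rpow_lt_one_of_one_lt_of_neg
    · exact_mod_cast hn
    · have : (0 : ℝ) < n := by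
        have : 0 < n := by omega
        exact_mod_cast this
      have := mul_pos hc this
      linarith
  have h4 : (0 : ℝ) < ((n ! : ℕ) : ℝ) ^ d := by positivity
  push_cast at h
  nlinarith

theorem inr_proof (hEXD : Stmt_EXD) (hLOW : Stmt_LOW) (hSPC : Stmt_SPC) (hFIN : Stmt_FIN) :
    Stmt_INR := by
  intro K _ d k l A r h1 h2
  obtain ⟨c, hc, hev⟩ := h2 (1 / 2) (by norm_num)
  obtain ⟨n, hn, hn2⟩ := (hev.and (eventually_ge_atTop 2)).exists
  obtain ⟨σ, hσ⟩ := exists_not hn2 c hc _ hn
  push Not at hσ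
  have hn0 : (0 : ℝ) < n := by
    have : 0 < n := by omega
    exact_mod_cast this
  constructor
  · obtain ⟨μ, _, _, L, P, P', Q, Q', hL, hP, hQ, hLA⟩ := higman (toGA A)
    set m : ℕ := Fintype.card μ with hm
    let eμ : μ ≃ Fin m := Fintype.equivFin μ
    let e1 : Fin k ⊕ μ ≃ Fin (k + m) := (Equiv.sumCongr (Equiv.refl _) eμ).trans finSumFinEquiv
    let e2 : Fin l ⊕ μ ≃ Fin (l + m) := (Equiv.sumCongr (Equiv.refl _) eμ).trans finSumFinEquiv
    have hL' : LinM (L.submatrix e1.symm e2.symm) := fun a b => hL _ _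
    obtain ⟨M0, M, hM⟩ := hL'.exists_lin
    obtain ⟨δ, hδ⟩ := hEXD K d (penc M0 M)
    have hrk : ∀ (n : ℕ) (σ : Fin d → Equiv.Perm (Fin n)),
        finrank K (LinearMap.ker ((penc M0 M).onPts σ)) + (mat A σ).rank = k * n := by
      intro n σ
      have e3 := ker_add_rank M0 M σ
      have e4 : (matR (lin M0 M) σ).rank = (mat A σ).rank + m * n := by
        rw [← hM]
        have e5 : matR (L.submatrix e1.symm e2.symm) σ =
            (matR L σ).submatrix (Equiv.prodCongr e1.symm (Equiv.refl _))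
              (Equiv.prodCongr e2.symm (Equiv.refl _)) := rfl
        rw [e5, Matrix.rank_submatrix, hLA, rank_matR_equiv _ P P' Q Q' hP hQ,
          rank_matR_fromBlocks_one, matR_toGA]
      rw [e4] at e3
      have e6 : (k + m) * n = k * n + m * n := by ring
      omega
    have hδ1 : r + δ ≤ k := by
      have e3 := hrk n σ
      have e4 := hLOW K d (penc M0 M) δ hδ n σ
      have e5 : ((mat A σ).rank : ℝ) + δ * n ≤ k * n := by
        have : (mat A σ).rank + δ * n ≤ k * n := by omega
        exact_mod_cast this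
      have e6 : ((r : ℝ) - 1 / 2 + δ) * n < k * n := by linarith
      have e7 : (r : ℝ) - 1 / 2 + δ < k := lt_of_mul_lt_mul_right e6 hn0.le
      have e8 : ((r + δ : ℕ) : ℝ) < ((k + 1 : ℕ) : ℝ) := by
        push_cast
        linarith
      have e9 : r + δ < k + 1 := by exact_mod_cast e8
      omega
    have hδ2 : k ≤ r + δ := by
      obtain ⟨K', _, _, Pc, hPc, hle⟩ := hSPC K d (penc M0 M) δ hδ.1
      obtain ⟨c', hc', hev'⟩ := hFIN K' d Pc δ hPc (1 / 2) (by norm_num)
      obtain ⟨n', hn', hn2'⟩ := (hev'.and (eventually_ge_atTop 2)).exists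
      obtain ⟨σ', hσ'⟩ := exists_not hn2' c' hc' _ hn'
      push Not at hσ'
      have hn0' : (0 : ℝ) < n' := by
        have : 0 < n' := by omega
        exact_mod_cast this
      have e3 : (finrank K (LinearMap.ker ((penc M0 M).onPts σ')) : ℝ) +
          ((mat A σ').rank : ℝ) = k * n' := by exact_mod_cast hrk n' σ'
      have e4 : (finrank K (LinearMap.ker ((penc M0 M).onPts σ')) : ℝ) ≤
          (finrank K' (LinearMap.ker (Pc.onPts σ')) : ℝ) := by exact_mod_cast hle n' σ'
      have e5 : ((mat A σ').rank : ℝ) ≤ r * n' := by exact_mod_cast h1 n' σ'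
      have e6 : (k : ℝ) * n' < (r + δ + 1 / 2) * n' := by linarith
      have e7 : (k : ℝ) < r + δ + 1 / 2 := lt_of_mul_lt_mul_right e6 hn0'.le
      have e8 : ((k : ℕ) : ℝ) < ((r + δ + 1 : ℕ) : ℝ) := by
        push_cast
        linarith
      have e9 : k < r + δ + 1 := by exact_mod_cast e8
      omega
    obtain ⟨X, Y, hXY⟩ := factor M0 M δ hδ (r + m) (by omega)
    have hL2 : L = X.submatrix e1 id * Y.submatrix id e2 := by
      have e3 : L = (L.submatrix e1.symm e2.symm).submatrix e1 e2 := by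
        apply Matrix.ext
        intro a b
        simp
      rw [e3, hM, hXY]
      rfl
    have hA2 : Matrix.fromBlocks (toGA A) 0 0
        (1 : Matrix μ μ (MonoidAlgebra K (FreeGroup (Fin d)))) =
        (P' * X.submatrix e1 id) * (Y.submatrix id e2 * Q') := by
      have e3 : P' * L * Q' = Matrix.fromBlocks (toGA A) 0 0
          (1 : Matrix μ μ (MonoidAlgebra K (FreeGroup (Fin d)))) := by
        rw [hLA]
        calc P' * (P * Matrix.fromBlocks (toGA A) 0 0
              (1 : Matrix μ μ (MonoidAlgebra K (FreeGroup (Fin d)))) * Q) * Q'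
            = (P' * P) * Matrix.fromBlocks (toGA A) 0 0
              (1 : Matrix μ μ (MonoidAlgebra K (FreeGroup (Fin d)))) * (Q * Q') := by
              simp only [Matrix.mul_assoc]
          _ = _ := by rw [hP, hQ, Matrix.one_mul, Matrix.mul_one]
      rw [← e3, hL2]
      simp only [Matrix.mul_assoc]
    refine ⟨m, (P' * X.submatrix e1 id).submatrix (Equiv.sumCongr (Equiv.refl _) eμ.symm) id,
      (Y.submatrix id e2 * Q').submatrix id (Equiv.sumCongr (Equiv.refl _) eμ.symm), ?_⟩
    have e3 : (P' * X.submatrix e1 id).submatrix (Equiv.sumCongr (Equiv.refl _) eμ.symm) id *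
        (Y.submatrix id e2 * Q').submatrix id (Equiv.sumCongr (Equiv.refl _) eμ.symm) =
        ((P' * X.submatrix e1 id) * (Y.submatrix id e2 * Q')).submatrix
          (Equiv.sumCongr (Equiv.refl _) eμ.symm) (Equiv.sumCongr (Equiv.refl _) eμ.symm) := rfl
    rw [e3, ← hA2]
    apply Matrix.ext
    intro a b
    cases a with
    | inl a =>
      cases b with
      | inl b => rfl
      | inr b => rfl
    | inr a =>
      cases b with
      | inl b => rfl
      | inr b =>
        simp [Matrix.one_apply]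
  · rintro r' ⟨t, B, C, hBC⟩
    have e1 := rank_matR_mul_le B C σ
    rw [← hBC, rank_matR_fromBlocks_one, matR_toGA] at e1
    simp only [Fintype.card_fin] at e1
    have e2 : (mat A σ).rank ≤ r' * n := by
      have : (r' + t) * n = r' * n + t * n := by ring
      omega
    have e3 : ((mat A σ).rank : ℝ) ≤ r' * n := by exact_mod_cast e2
    have e4 : ((r : ℝ) - 1 / 2) * n < r' * n := lt_of_lt_of_le hσ e3
    have e5 : (r : ℝ) - 1 / 2 < r' := lt_of_mul_lt_mul_right e4 hn0.le
    have e6 : ((r : ℕ) : ℝ) < ((r' + 1 : ℕ) : ℝ) := by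
      push_cast
      linarith
    have e7 : r < r' + 1 := by exact_mod_cast e6
    omega

end INR

theorem inr_proof (hEXD : Stmt_EXD) (hLOW : Stmt_LOW) (hSPC : Stmt_SPC) (hFIN : Stmt_FIN) :
    Stmt_INR := INR.inr_proof hEXD hLOW hSPC hFIN

end Pool.Agent.SLR
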