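import Pool.Agent.SLR.Stmts2

/-!
# SLR, module INR, part a: matrices over the group algebra evaluated at a finite `F`-set
-/

set_option autoImplicit false

namespace Pool.Agent.SLR

open Module Finset
open scoped Nat

/-- Matrices over the group algebra of the free group (the entries of the frozen statement are
finitely supported functions; `ofCoeff` turns them into elements of the group algebra). -/
def toGA {K : Type} [Field K] {d k l : ℕ}
    (A : Matrix (Fin k) (Fin l) (FreeGroup (Fin d) →₀ K)) :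
    Matrix (Fin k) (Fin l) (MonoidAlgebra K (FreeGroup (Fin d))) :=
  A.map MonoidAlgebra.ofCoeff

/-- For some `t`, the matrix `A ⊕ 1_t` over the group algebra is a product of a matrix with `r + t` columns
and a matrix with `r + t` rows. The least such `r` is the stable inner rank of `A`. -/
def StabFactor {K : Type} [Field K] {d k l : ℕ}
    (A : Matrix (Fin k) (Fin l) (FreeGroup (Fin d) →₀ K)) (r : ℕ) : Prop :=
  ∃ (t : ℕ) (B : Matrix (Fin k ⊕ Fin t) (Fin (r + t)) (MonoidAlgebra K (FreeGroup (Fin d))))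
    (C : Matrix (Fin (r + t)) (Fin l ⊕ Fin t) (MonoidAlgebra K (FreeGroup (Fin d)))),
    Matrix.fromBlocks (toGA A) 0 0 1 = B * C

namespace INR

variable {K : Type} [Field K] {d : ℕ}

/-- the permutation representation on matrices -/
def permRep (n : ℕ) (σ : Fin d → Equiv.Perm (Fin n)) :
    FreeGroup (Fin d) →* Matrix (Fin n) (Fin n) K where
  toFun w := Matrix.of fun p q => if FreeGroup.lift σ w q = p then 1 else 0
  map_one' := by
    ext p q
    simp [Matrix.one_apply, eq_comm]
  map_mul' v w := by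
    ext p q
    rw [Matrix.mul_apply]
    simp only [Matrix.of_apply, map_mul, Equiv.Perm.mul_apply]
    rw [Finset.sum_eq_single (FreeGroup.lift σ w q)]
    · simp
    · intro r _ hr
      rw [if_neg (Ne.symm hr), mul_zero]
    · simp

/-- its extension to the group algebra -/
noncomputable def rep {n : ℕ} (σ : Fin d → Equiv.Perm (Fin n)) :
    MonoidAlgebra K (FreeGroup (Fin d)) →ₐ[K] Matrix (Fin n) (Fin n) K :=
  MonoidAlgebra.lift K (Matrix (Fin n) (Fin n) K) (FreeGroup (Fin d)) (permRep n σ)

/-- the matrix over `K` obtained from a matrix over the group algebra -/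
noncomputable def matR {ι κ : Type} (M : Matrix ι κ (MonoidAlgebra K (FreeGroup (Fin d)))) {n : ℕ}
    (σ : Fin d → Equiv.Perm (Fin n)) : Matrix (ι × Fin n) (κ × Fin n) K :=
  Matrix.of fun p q => rep σ (M p.1 q.1) p.2 q.2

theorem matR_mul {ι κ μ : Type} [Fintype κ]
    (M : Matrix ι κ (MonoidAlgebra K (FreeGroup (Fin d))))
    (N : Matrix κ μ (MonoidAlgebra K (FreeGroup (Fin d)))) {n : ℕ}
    (σ : Fin d → Equiv.Perm (Fin n)) : matR (M * N) σ = matR M σ * matR N σ := by
  ext p q
  simp only [matR, Matrix.of_apply, Matrix.mul_apply, map_sum, map_mul, Matrix.sum_apply]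
  rw [Fintype.sum_prod_type]

theorem matR_one {ι : Type} [DecidableEq ι] {n : ℕ} (σ : Fin d → Equiv.Perm (Fin n)) :
    matR (1 : Matrix ι ι (MonoidAlgebra K (FreeGroup (Fin d)))) σ = 1 := by
  ext p q
  obtain ⟨p1, p2⟩ := p
  obtain ⟨q1, q2⟩ := q
  simp only [matR, Matrix.of_apply, Matrix.one_apply, Prod.mk.injEq]
  by_cases h : p1 = q1
  · simp [h, Matrix.one_apply]
  · simp [h]

theorem rep_apply {n : ℕ} (σ : Fin d → Equiv.Perm (Fin n))
    (x : MonoidAlgebra K (FreeGroup (Fin d))) (p q : Fin n) :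
    rep σ x p q = x.coeff.sum fun w c => if FreeGroup.lift σ w q = p then c else 0 := by
  unfold rep
  rw [MonoidAlgebra.lift_apply, Finsupp.sum, Matrix.sum_apply, Finsupp.sum]
  refine Finset.sum_congr rfl fun w _ => ?_
  simp [permRep]

theorem matR_toGA {k l : ℕ} (A : Matrix (Fin k) (Fin l) (FreeGroup (Fin d) →₀ K)) {n : ℕ}
    (σ : Fin d → Equiv.Perm (Fin n)) : matR (toGA A) σ = mat A σ := by
  ext p q
  simp only [matR, mat, toGA, Matrix.of_apply, Matrix.map_apply]
  rw [rep_apply]

theorem matR_fromBlocks {ι κ ι' κ' : Type} (A : Matrix ι κ (MonoidAlgebra K (FreeGroup (Fin d))))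
    (B : Matrix ι κ' (MonoidAlgebra K (FreeGroup (Fin d))))
    (C : Matrix ι' κ (MonoidAlgebra K (FreeGroup (Fin d))))
    (D : Matrix ι' κ' (MonoidAlgebra K (FreeGroup (Fin d)))) {n : ℕ}
    (σ : Fin d → Equiv.Perm (Fin n)) :
    (matR (Matrix.fromBlocks A B C D) σ).submatrix (Equiv.sumProdDistrib ι ι' (Fin n)).symm
      (Equiv.sumProdDistrib κ κ' (Fin n)).symm =
    Matrix.fromBlocks (matR A σ) (matR B σ) (matR C σ) (matR D σ) := by
  ext p q
  rcases p with ⟨p1, p2⟩ | ⟨p1, p2⟩ <;> rcases q with ⟨q1, q2⟩ | ⟨q1, q2⟩ <;> rfl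

theorem rank_fromBlocks_one {ι κ μ : Type} [Fintype ι] [Fintype κ] [Fintype μ] [DecidableEq ι]
    [DecidableEq κ] [DecidableEq μ] (A : Matrix ι κ K) :
    (Matrix.fromBlocks A 0 0 (1 : Matrix μ μ K)).rank = A.rank + Fintype.card μ := by
  have hmem : ∀ x : κ ⊕ μ → K,
      x ∈ LinearMap.ker (Matrix.fromBlocks A 0 0 (1 : Matrix μ μ K)).mulVecLin ↔
        A.mulVec (x ∘ Sum.inl) = 0 ∧ x ∘ Sum.inr = 0 := by
    intro x
    rw [LinearMap.mem_ker, Matrix.mulVecLin_apply, Matrix.fromBlocks_mulVec]
    constructor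
    · intro h
      refine ⟨funext fun i => ?_, funext fun i => ?_⟩
      · have := congrFun h (Sum.inl i)
        simpa using this
      · have := congrFun h (Sum.inr i)
        simpa using this
    · rintro ⟨h1, h2⟩
      funext i
      cases i with
      | inl i => simp [h1]
      | inr i => simp [h2]
  let e : LinearMap.ker (Matrix.fromBlocks A 0 0 (1 : Matrix μ μ K)).mulVecLin ≃ₗ[K]
      LinearMap.ker A.mulVecLin :=
    { toFun := fun x => ⟨x.1 ∘ Sum.inl, by
        rw [LinearMap.mem_ker, Matrix.mulVecLin_apply]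
        exact ((hmem x.1).1 x.2).1⟩
      map_add' := fun x y => rfl
      map_smul' := fun c x => rfl
      invFun := fun y => ⟨Sum.elim y.1 0, by
        rw [hmem]
        have := y.2
        rw [LinearMap.mem_ker, Matrix.mulVecLin_apply] at this
        exact ⟨this, rfl⟩⟩
      left_inv := fun x => by
        apply Subtype.ext
        funext i
        cases i with
        | inl i => rfl
        | inr i => exact (congrFun ((hmem x.1).1 x.2).2 i).symm
      right_inv := fun y => rfl }
  have h1 := LinearMap.finrank_range_add_finrank_ker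
    (Matrix.fromBlocks A 0 0 (1 : Matrix μ μ K)).mulVecLin
  have h2 := LinearMap.finrank_range_add_finrank_ker A.mulVecLin
  rw [e.finrank_eq] at h1
  simp only [Module.finrank_fintype_fun_eq_card, Fintype.card_sum] at h1 h2
  unfold Matrix.rank
  omega

/-- the rank of `A ⊕ 1` at a finite `F`-set -/
theorem rank_matR_fromBlocks_one {ι κ μ : Type} [Fintype ι] [Fintype κ] [Fintype μ] [DecidableEq ι]
    [DecidableEq κ] [DecidableEq μ] (A : Matrix ι κ (MonoidAlgebra K (FreeGroup (Fin d)))) {n : ℕ}
    (σ : Fin d → Equiv.Perm (Fin n)) :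
    (matR (Matrix.fromBlocks A 0 0 (1 : Matrix μ μ (MonoidAlgebra K (FreeGroup (Fin d))))) σ).rank =
      (matR A σ).rank + Fintype.card μ * n := by
  rw [← Matrix.rank_submatrix _ (Equiv.sumProdDistrib ι μ (Fin n)).symm
    (Equiv.sumProdDistrib κ μ (Fin n)).symm, matR_fromBlocks, matR_one]
  have h1 : matR (0 : Matrix ι μ (MonoidAlgebra K (FreeGroup (Fin d)))) σ = 0 := by
    ext p q
    simp [matR]
  have h2 : matR (0 : Matrix μ κ (MonoidAlgebra K (FreeGroup (Fin d)))) σ = 0 := by
    ext p q
    simp [matR]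
  rw [h1, h2, rank_fromBlocks_one]
  simp

/-- a product through `m` has rank at most `m n` -/
theorem rank_matR_mul_le {ι κ μ : Type} [Fintype ι] [Fintype κ] [Fintype μ] [DecidableEq ι]
    [DecidableEq κ] [DecidableEq μ] (B : Matrix ι κ (MonoidAlgebra K (FreeGroup (Fin d))))
    (C : Matrix κ μ (MonoidAlgebra K (FreeGroup (Fin d)))) {n : ℕ}
    (σ : Fin d → Equiv.Perm (Fin n)) :
    (matR (B * C) σ).rank ≤ Fintype.card κ * n := by
  rw [matR_mul]
  refine (Matrix.rank_mul_le_left _ _).trans ((Matrix.rank_le_card_width _).trans ?_)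
  simp

/-- multiplication by invertible matrices does not change the rank -/
theorem rank_matR_equiv {ι κ : Type} [Fintype ι] [Fintype κ] [DecidableEq ι]
    [DecidableEq κ] (A : Matrix ι κ (MonoidAlgebra K (FreeGroup (Fin d))))
    (P P' : Matrix ι ι (MonoidAlgebra K (FreeGroup (Fin d))))
    (Q Q' : Matrix κ κ (MonoidAlgebra K (FreeGroup (Fin d)))) (hP : P' * P = 1)
    (hQ : Q * Q' = 1) {n : ℕ} (σ : Fin d → Equiv.Perm (Fin n)) :
    (matR (P * A * Q) σ).rank = (matR A σ).rank := by
  apply le_antisymm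
  · rw [matR_mul, matR_mul]
    exact (Matrix.rank_mul_le_left _ _).trans (Matrix.rank_mul_le_right _ _)
  · have h : A = P' * (P * A * Q) * Q' := by
      calc A = (P' * P) * A * (Q * Q') := by rw [hP, hQ]; simp
        _ = P' * (P * A * Q) * Q' := by simp only [Matrix.mul_assoc]
    have h2 : matR A σ = matR P' σ * matR (P * A * Q) σ * matR Q' σ := by
      rw [← matR_mul, ← matR_mul, ← h]
    rw [h2]
    exact (Matrix.rank_mul_le_left _ _).trans (Matrix.rank_mul_le_right _ _)

end INR

end Pool.Agent.SLR
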