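import Pool.Agent.SLR.INRa

/-!
# SLR, module INR, part b: Higman's linearization over the group algebra of a free group
-/

set_option autoImplicit false

namespace Pool.Agent.SLR

open Module Finset Matrix

namespace INR

variable {K : Type} [Field K] {d : ℕ}

/-- linear elements of the group algebra -/
def LinE (x : MonoidAlgebra K (FreeGroup (Fin d))) : Prop :=
  ∃ (c0 : K) (c : Fin d → K),
    x = MonoidAlgebra.single 1 c0 + ∑ i, MonoidAlgebra.single (FreeGroup.of i) (c i)

theorem LinE.add {x y : MonoidAlgebra K (FreeGroup (Fin d))} (hx : LinE x) (hy : LinE y) :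
    LinE (x + y) := by
  obtain ⟨a0, a, rfl⟩ := hx
  obtain ⟨b0, b, rfl⟩ := hy
  refine ⟨a0 + b0, fun i => a i + b i, ?_⟩
  simp only [MonoidAlgebra.single_add, Finset.sum_add_distrib]
  abel

theorem LinE.neg {x : MonoidAlgebra K (FreeGroup (Fin d))} (hx : LinE x) : LinE (-x) := by
  obtain ⟨a0, a, rfl⟩ := hx
  refine ⟨-a0, fun i => -a i, ?_⟩
  simp only [MonoidAlgebra.single_neg, Finset.sum_neg_distrib]
  abel

theorem LinE.const (c : K) : LinE (MonoidAlgebra.single (1 : FreeGroup (Fin d)) c) :=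
  ⟨c, 0, by simp⟩

theorem LinE.zero : LinE (0 : MonoidAlgebra K (FreeGroup (Fin d))) :=
  ⟨0, 0, by simp⟩

theorem LinE.one : LinE (1 : MonoidAlgebra K (FreeGroup (Fin d))) := by
  rw [MonoidAlgebra.one_def]
  exact LinE.const 1

theorem LinE.of (i : Fin d) (c : K) : LinE (MonoidAlgebra.single (FreeGroup.of i) c) := by
  refine ⟨0, Pi.single i c, ?_⟩
  rw [Finset.sum_eq_single i]
  · simp
  · intro j _ hj
    simp [hj]
  · simp

/-- linear matrices over the group algebra -/
def LinM {ι κ : Type} (M : Matrix ι κ (MonoidAlgebra K (FreeGroup (Fin d)))) : Prop :=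
  ∀ a b, LinE (M a b)

section
variable {ι κ ι' κ' : Type}

theorem LinM.zero : LinM (0 : Matrix ι κ (MonoidAlgebra K (FreeGroup (Fin d)))) :=
  fun _ _ => LinE.zero

theorem LinM.one [DecidableEq ι] : LinM (1 : Matrix ι ι (MonoidAlgebra K (FreeGroup (Fin d)))) := by
  intro a b
  rw [Matrix.one_apply]
  split_ifs
  · exact LinE.one
  · exact LinE.zero

theorem LinM.add {A B : Matrix ι κ (MonoidAlgebra K (FreeGroup (Fin d)))} (hA : LinM A)
    (hB : LinM B) : LinM (A + B) := fun a b => (hA a b).add (hB a b)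

theorem LinM.neg {A : Matrix ι κ (MonoidAlgebra K (FreeGroup (Fin d)))} (hA : LinM A) :
    LinM (-A) := fun a b => (hA a b).neg

theorem LinM.single [DecidableEq ι] [DecidableEq κ] (i : ι) (j : κ)
    {x : MonoidAlgebra K (FreeGroup (Fin d))} (hx : LinE x) : LinM (Matrix.single i j x) := by
  intro a b
  rw [Matrix.single_apply]
  split_ifs
  · exact hx
  · exact LinE.zero

theorem LinM.fromCols {A : Matrix ι κ (MonoidAlgebra K (FreeGroup (Fin d)))}
    {B : Matrix ι κ' (MonoidAlgebra K (FreeGroup (Fin d)))} (hA : LinM A) (hB : LinM B) :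
    LinM (Matrix.fromCols A B) := by
  intro a b
  cases b with
  | inl b => exact hA a b
  | inr b => exact hB a b

theorem LinM.fromRows {A : Matrix ι κ (MonoidAlgebra K (FreeGroup (Fin d)))}
    {B : Matrix ι' κ (MonoidAlgebra K (FreeGroup (Fin d)))} (hA : LinM A) (hB : LinM B) :
    LinM (Matrix.fromRows A B) := by
  intro a b
  cases a with
  | inl a => exact hA a b
  | inr a => exact hB a b

theorem LinM.fromBlocks {A : Matrix ι κ (MonoidAlgebra K (FreeGroup (Fin d)))}
    {B : Matrix ι κ' (MonoidAlgebra K (FreeGroup (Fin d)))}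
    {C : Matrix ι' κ (MonoidAlgebra K (FreeGroup (Fin d)))}
    {D : Matrix ι' κ' (MonoidAlgebra K (FreeGroup (Fin d)))} (hA : LinM A) (hB : LinM B)
    (hC : LinM C) (hD : LinM D) :
    LinM (Matrix.fromBlocks A B C D) := by
  intro a b
  cases a with
  | inl a =>
    cases b with
    | inl b => exact hA a b
    | inr b => exact hB a b
  | inr a =>
    cases b with
    | inl b => exact hC a b
    | inr b => exact hD a b

end

/-- A realization `A = A1 + B D⁻¹ C` with linear matrices `A1, B, C, D` and `D` invertible. -/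
def Rlz {ι κ : Type} (A : Matrix ι κ (MonoidAlgebra K (FreeGroup (Fin d)))) : Prop :=
  ∃ (μ : Type) (_ : Fintype μ) (_ : DecidableEq μ)
    (A1 : Matrix ι κ (MonoidAlgebra K (FreeGroup (Fin d))))
    (B : Matrix ι μ (MonoidAlgebra K (FreeGroup (Fin d))))
    (C : Matrix μ κ (MonoidAlgebra K (FreeGroup (Fin d))))
    (D D' : Matrix μ μ (MonoidAlgebra K (FreeGroup (Fin d)))),
    LinM A1 ∧ LinM B ∧ LinM C ∧ LinM D ∧ D * D' = 1 ∧ D' * D = 1 ∧ A = A1 + B * D' * C

section
variable {ι κ ι' κ' : Type}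

theorem Rlz.of_lin {A : Matrix ι κ (MonoidAlgebra K (FreeGroup (Fin d)))} (hA : LinM A) : Rlz A :=
  ⟨Empty, inferInstance, inferInstance, A, 0, 0, 0, 0, hA, LinM.zero, LinM.zero, LinM.zero,
    Subsingleton.elim _ _, Subsingleton.elim _ _, by simp⟩

theorem Rlz.add {A A' : Matrix ι κ (MonoidAlgebra K (FreeGroup (Fin d)))} (hA : Rlz A)
    (hA' : Rlz A') : Rlz (A + A') := by
  obtain ⟨μ, _, _, A1, B, C, D, D', h1, h2, h3, h4, h5, h6, rfl⟩ := hA
  obtain ⟨ν, _, _, A2, F, G, E, E', k1, k2, k3, k4, k5, k6, rfl⟩ := hA'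
  refine ⟨μ ⊕ ν, inferInstance, inferInstance, A1 + A2, Matrix.fromCols B F, Matrix.fromRows C G,
    Matrix.fromBlocks D 0 0 E, Matrix.fromBlocks D' 0 0 E', h1.add k1, h2.fromCols k2,
    h3.fromRows k3, h4.fromBlocks LinM.zero LinM.zero k4, ?_, ?_, ?_⟩
  · rw [Matrix.fromBlocks_multiply]
    simp [h5, k5]
  · rw [Matrix.fromBlocks_multiply]
    simp [h6, k6]
  · rw [Matrix.fromCols_mul_fromBlocks, Matrix.fromCols_mul_fromRows]
    simp only [Matrix.mul_zero, add_zero, zero_add]
    abel

theorem Rlz.mul {τ : Type} [Fintype κ] [DecidableEq κ]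
    {A : Matrix ι κ (MonoidAlgebra K (FreeGroup (Fin d)))}
    {A' : Matrix κ τ (MonoidAlgebra K (FreeGroup (Fin d)))} (hA : Rlz A)
    (hA' : Rlz A') : Rlz (A * A') := by
  obtain ⟨μ, _, _, A1, B, C, D, D', h1, h2, h3, h4, h5, h6, rfl⟩ := hA
  obtain ⟨ν, _, _, A2, F, G, E, E', k1, k2, k3, k4, k5, k6, rfl⟩ := hA'
  refine ⟨μ ⊕ (κ ⊕ ν), inferInstance, inferInstance, 0,
    Matrix.fromCols B (Matrix.fromCols A1 0), Matrix.fromRows 0 (Matrix.fromRows A2 G),
    Matrix.fromBlocks D (Matrix.fromCols (-C) 0) 0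
      (Matrix.fromBlocks (1 : Matrix κ κ (MonoidAlgebra K (FreeGroup (Fin d)))) (-F) 0 E),
    Matrix.fromBlocks D' (Matrix.fromCols (D' * C) (D' * C * F * E')) 0
      (Matrix.fromBlocks (1 : Matrix κ κ (MonoidAlgebra K (FreeGroup (Fin d)))) (F * E') 0 E'),
    LinM.zero, h2.fromCols (h1.fromCols LinM.zero),
    LinM.zero.fromRows (k1.fromRows k3),
    h4.fromBlocks (h3.neg.fromCols LinM.zero) LinM.zero
      (LinM.one.fromBlocks k2.neg LinM.zero k4), ?_, ?_, ?_⟩
  · rw [Matrix.fromBlocks_multiply]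
    have e1 : Matrix.fromBlocks (1 : Matrix κ κ (MonoidAlgebra K (FreeGroup (Fin d)))) (-F) 0 E *
        Matrix.fromBlocks (1 : Matrix κ κ (MonoidAlgebra K (FreeGroup (Fin d)))) (F * E') 0 E' =
          1 := by
      rw [Matrix.fromBlocks_multiply]
      simp [k5]
    have e2 : D * Matrix.fromCols (D' * C) (D' * C * F * E') +
        Matrix.fromCols (-C) (0 : Matrix μ ν (MonoidAlgebra K (FreeGroup (Fin d)))) *
          Matrix.fromBlocks (1 : Matrix κ κ (MonoidAlgebra K (FreeGroup (Fin d)))) (F * E') 0 E' =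
        0 := by
      rw [Matrix.mul_fromCols, Matrix.fromCols_mul_fromBlocks]
      have e3 : D * (D' * C) = C := by rw [← Matrix.mul_assoc, h5, Matrix.one_mul]
      have e4 : D * (D' * C * F * E') = C * (F * E') := by
        rw [← Matrix.mul_assoc, ← Matrix.mul_assoc, e3, Matrix.mul_assoc]
      rw [e3, e4]
      ext a b
      cases b <;> simp
    rw [e1, e2]
    simp [h5]
  · rw [Matrix.fromBlocks_multiply]
    have e1 : Matrix.fromBlocks (1 : Matrix κ κ (MonoidAlgebra K (FreeGroup (Fin d)))) (F * E') 0 E' *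
        Matrix.fromBlocks (1 : Matrix κ κ (MonoidAlgebra K (FreeGroup (Fin d)))) (-F) 0 E =
          1 := by
      rw [Matrix.fromBlocks_multiply]
      simp [k6, Matrix.mul_assoc]
    have e2 : D' * Matrix.fromCols (-C) 0 + Matrix.fromCols (D' * C) (D' * C * F * E') *
        Matrix.fromBlocks (1 : Matrix κ κ (MonoidAlgebra K (FreeGroup (Fin d)))) (-F) 0 E =
        0 := by
      rw [Matrix.mul_fromCols, Matrix.fromCols_mul_fromBlocks]
      have e4 : D' * C * F * E' * E = D' * C * F := by
        rw [Matrix.mul_assoc, k6, Matrix.mul_one]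
      rw [e4]
      ext a b
      cases b <;> simp
    rw [e1, e2]
    simp [h6]
  · rw [Matrix.fromCols_mul_fromBlocks, Matrix.fromCols_mul_fromRows, Matrix.mul_fromCols,
      Matrix.fromCols_mul_fromBlocks]
    have e5 : Matrix.fromCols (B * (D' * C)) (B * (D' * C * F * E')) +
        Matrix.fromCols (A1 * (1 : Matrix κ κ (MonoidAlgebra K (FreeGroup (Fin d)))) +
            (0 : Matrix ι ν (MonoidAlgebra K (FreeGroup (Fin d)))) *
              (0 : Matrix ν κ (MonoidAlgebra K (FreeGroup (Fin d)))))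
          (A1 * (F * E') + (0 : Matrix ι ν (MonoidAlgebra K (FreeGroup (Fin d)))) * E') =
        Matrix.fromCols (B * (D' * C) + A1) (B * (D' * C * F * E') + A1 * (F * E')) := by
      rw [Matrix.mul_one, Matrix.mul_zero, Matrix.zero_mul, add_zero, add_zero]
      apply Matrix.ext
      intro a b
      cases b with
      | inl b => rfl
      | inr b => rfl
    rw [e5, Matrix.fromCols_mul_fromRows]
    simp only [Matrix.mul_zero, zero_add, Matrix.add_mul, Matrix.mul_add, Matrix.mul_assoc]
    abel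

end

theorem Rlz.word {ι κ : Type} [DecidableEq ι] [DecidableEq κ] (w : FreeGroup (Fin d)) :
    ∀ (ι κ : Type) [DecidableEq ι] [DecidableEq κ] (i : ι) (j : κ),
      Rlz (Matrix.single i j (MonoidAlgebra.single w (1 : K))) := by
  induction w using FreeGroup.induction_on with
  | C1 => exact fun ι κ _ _ i j => Rlz.of_lin (LinM.single i j (LinE.const 1))
  | of g => exact fun ι κ _ _ i j => Rlz.of_lin (LinM.single i j (LinE.of g 1))
  | inv_of g _ =>
    intro ι κ _ _ i j
    refine ⟨Unit, inferInstance, inferInstance, 0, Matrix.single i () 1, Matrix.single () j 1,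
      Matrix.of fun _ _ => MonoidAlgebra.single (FreeGroup.of g) 1,
      Matrix.of fun _ _ => MonoidAlgebra.single (FreeGroup.of g)⁻¹ 1, LinM.zero,
      LinM.single i () LinE.one, LinM.single () j LinE.one, fun _ _ => LinE.of g 1, ?_, ?_, ?_⟩
    · ext a b
      simp [Matrix.mul_apply, MonoidAlgebra.single_mul_single, MonoidAlgebra.one_def]
    · ext a b
      simp [Matrix.mul_apply, MonoidAlgebra.single_mul_single, MonoidAlgebra.one_def]
    · have e1 : (Matrix.of fun _ _ => MonoidAlgebra.single (FreeGroup.of g)⁻¹ (1 : K) :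
          Matrix Unit Unit (MonoidAlgebra K (FreeGroup (Fin d)))) =
          Matrix.single () () (MonoidAlgebra.single (FreeGroup.of g)⁻¹ (1 : K)) := by
        ext a b
        simp
      rw [e1, Matrix.single_mul_single_same, Matrix.single_mul_single_same]
      simp
  | mul x y hx hy =>
    intro ι κ _ _ i j
    have e : (Matrix.single i j (MonoidAlgebra.single (x * y) (1 : K))) =
        Matrix.single i () (MonoidAlgebra.single x (1 : K)) *
          Matrix.single () j (MonoidAlgebra.single y (1 : K)) := by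
      rw [Matrix.single_mul_single_same, MonoidAlgebra.single_mul_single, mul_one]
    rw [e]
    exact (hx ι Unit i ()).mul (hy Unit κ () j)

theorem Rlz.single {ι κ : Type} [DecidableEq ι] [DecidableEq κ] (i : ι) (j : κ)
    (x : MonoidAlgebra K (FreeGroup (Fin d))) : Rlz (Matrix.single i j x) := by
  induction x using MonoidAlgebra.induction_linear with
  | zero =>
    rw [Matrix.single_zero]
    exact Rlz.of_lin LinM.zero
  | add x y hx hy =>
    rw [Matrix.single_add]
    exact hx.add hy
  | single w c =>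
    have e : (Matrix.single i j (MonoidAlgebra.single w c)) =
        Matrix.single i () (MonoidAlgebra.single (1 : FreeGroup (Fin d)) c) *
          Matrix.single () j (MonoidAlgebra.single w (1 : K)) := by
      rw [Matrix.single_mul_single_same, MonoidAlgebra.single_mul_single, mul_one, one_mul]
    rw [e]
    exact (Rlz.of_lin (LinM.single i () (LinE.const c))).mul (Rlz.word (ι := ι) (κ := κ) w Unit κ () j)

/-- Every matrix over the group algebra has a linear realization. -/
theorem rlz {k l : ℕ} (A : Matrix (Fin k) (Fin l) (MonoidAlgebra K (FreeGroup (Fin d)))) :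
    Rlz A := by
  classical
  rw [Matrix.matrix_eq_sum_single A]
  have h : ∀ (s : Finset (Fin k)), Rlz (∑ i ∈ s, ∑ j, Matrix.single i j (A i j)) := by
    intro s
    induction s using Finset.induction_on with
    | empty =>
      rw [Finset.sum_empty]
      exact Rlz.of_lin LinM.zero
    | insert i s hi ih =>
      rw [Finset.sum_insert hi]
      refine Rlz.add ?_ ih
      have h2 : ∀ (t : Finset (Fin l)), Rlz (∑ j ∈ t, Matrix.single i j (A i j)) := by
        intro t
        induction t using Finset.induction_on with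
        | empty =>
          rw [Finset.sum_empty]
          exact Rlz.of_lin LinM.zero
        | insert j t hj ih =>
          rw [Finset.sum_insert hj]
          exact (Rlz.single i j (A i j)).add ih
      exact h2 _
  exact h _

/-- A linear matrix `L` equivalent to `A ⊕ 1`. -/
theorem higman {k l : ℕ} (A : Matrix (Fin k) (Fin l) (MonoidAlgebra K (FreeGroup (Fin d)))) :
    ∃ (μ : Type) (_ : Fintype μ) (_ : DecidableEq μ)
      (L : Matrix (Fin k ⊕ μ) (Fin l ⊕ μ) (MonoidAlgebra K (FreeGroup (Fin d))))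
      (P P' : Matrix (Fin k ⊕ μ) (Fin k ⊕ μ) (MonoidAlgebra K (FreeGroup (Fin d))))
      (Q Q' : Matrix (Fin l ⊕ μ) (Fin l ⊕ μ) (MonoidAlgebra K (FreeGroup (Fin d)))),
      LinM L ∧ P' * P = 1 ∧ Q * Q' = 1 ∧
        L = P * Matrix.fromBlocks A 0 0 (1 : Matrix μ μ (MonoidAlgebra K (FreeGroup (Fin d)))) * Q := by
  obtain ⟨μ, _, _, A1, B, C, D, D', h1, h2, h3, h4, h5, h6, h7⟩ := rlz A
  refine ⟨μ, inferInstance, inferInstance, Matrix.fromBlocks A1 B (-C) D,
    Matrix.fromBlocks 1 B 0 D, Matrix.fromBlocks 1 (-(B * D')) 0 D',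
    Matrix.fromBlocks 1 0 (-(D' * C)) 1, Matrix.fromBlocks 1 0 (D' * C) 1,
    h1.fromBlocks h2 h3.neg h4, ?_, ?_, ?_⟩
  · rw [Matrix.fromBlocks_multiply]
    simp [h6, Matrix.mul_assoc]
  · rw [Matrix.fromBlocks_multiply]
    simp
  · rw [Matrix.fromBlocks_multiply, Matrix.fromBlocks_multiply, h7]
    have e : D * (D' * C) = C := by rw [← Matrix.mul_assoc, h5, Matrix.one_mul]
    simp [Matrix.mul_assoc, e]

end INR

end Pool.Agent.SLR
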