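import Pool.Agent.SLR.INRb

/-!
# SLR, module INR, part c: linear matrices, pencils, and factorizations through `k - δ`
-/

set_option autoImplicit false

namespace Pool.Agent.SLR

open Module Finset Matrix

namespace INR

variable {K : Type} [Field K] {d : ℕ}

/-- the linear matrix over the group algebra given by matrices over `K` -/
noncomputable def lin {ι κ : Type} (M0 : Matrix ι κ K) (M : Fin d → Matrix ι κ K) :
    Matrix ι κ (MonoidAlgebra K (FreeGroup (Fin d))) :=
  Matrix.of fun a b => MonoidAlgebra.single 1 (M0 a b) +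
    ∑ i, MonoidAlgebra.single (FreeGroup.of i) (M i a b)

/-- a constant matrix -/
noncomputable def cst {ι κ : Type} (d : ℕ) (M0 : Matrix ι κ K) :
    Matrix ι κ (MonoidAlgebra K (FreeGroup (Fin d))) :=
  Matrix.of fun a b => MonoidAlgebra.single 1 (M0 a b)

theorem LinM.exists_lin {ι κ : Type} {L : Matrix ι κ (MonoidAlgebra K (FreeGroup (Fin d)))}
    (hL : LinM L) : ∃ (M0 : Matrix ι κ K) (M : Fin d → Matrix ι κ K), L = lin M0 M := by
  choose c0 c h using hL
  exact ⟨Matrix.of c0, fun i => Matrix.of fun a b => c a b i, by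
    apply Matrix.ext
    intro a b
    exact h a b⟩

theorem single_sum' {ι : Type} (s : Finset ι) (g : FreeGroup (Fin d)) (f : ι → K) :
    MonoidAlgebra.single g (∑ j ∈ s, f j) = ∑ j ∈ s, MonoidAlgebra.single g (f j) := by
  have := map_sum (MonoidAlgebra.singleAddHom (R := K) g) f s
  exact this

theorem lin_mul_cst {ι κ μ : Type} [Fintype κ] (M0 : Matrix ι κ K) (M : Fin d → Matrix ι κ K)
    (Z : Matrix κ μ K) : lin M0 M * cst d Z = lin (M0 * Z) (fun i => M i * Z) := by
  apply Matrix.ext
  intro a b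
  simp only [lin, cst, Matrix.mul_apply, Matrix.of_apply, add_mul, Finset.sum_mul,
    MonoidAlgebra.single_mul_single, mul_one, Finset.sum_add_distrib, single_sum']
  rw [Finset.sum_comm]

theorem cst_mul_lin {ι κ μ : Type} [Fintype κ] (Q : Matrix ι κ K) (M0 : Matrix κ μ K)
    (M : Fin d → Matrix κ μ K) : cst d Q * lin M0 M = lin (Q * M0) (fun i => Q * M i) := by
  apply Matrix.ext
  intro a b
  simp only [lin, cst, Matrix.mul_apply, Matrix.of_apply, mul_add, Finset.mul_sum,
    MonoidAlgebra.single_mul_single, one_mul, Finset.sum_add_distrib, single_sum']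
  rw [Finset.sum_comm]

theorem lin_add {ι κ : Type} (M0 N0 : Matrix ι κ K) (M N : Fin d → Matrix ι κ K) :
    lin M0 M + lin N0 N = lin (M0 + N0) (fun i => M i + N i) := by
  apply Matrix.ext
  intro a b
  simp only [lin, Matrix.add_apply, Matrix.of_apply, MonoidAlgebra.single_add,
    Finset.sum_add_distrib]
  abel

/-- the linear map of the pencil is given by the matrix -/
theorem vecMul_lin {k l : ℕ} (M0 : Matrix (Fin k) (Fin l) K) (M : Fin d → Matrix (Fin k) (Fin l) K)
    {n : ℕ} (σ : Fin d → Equiv.Perm (Fin n)) (x : Fin n → Fin k → K) (b : Fin l) (q : Fin n) :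
    Matrix.vecMul (fun p : Fin k × Fin n => x p.2 p.1) (matR (lin M0 M) σ) (b, q) =
      (penc M0 M).onPts σ x q b := by
  rw [Matrix.vecMul, dotProduct, Fintype.sum_prod_type]
  have h1 : ∀ a : Fin k, ∑ p : Fin n, x p a * matR (lin M0 M) σ (a, p) (b, q) =
      x q a * M0 a b + ∑ i, x (σ i q) a * M i a b := by
    intro a
    have h2 : ∀ p : Fin n, matR (lin M0 M) σ (a, p) (b, q) =
        (if q = p then M0 a b else 0) + ∑ i, if σ i q = p then M i a b else 0 := by
      intro p
      simp only [matR, lin, Matrix.of_apply, map_add, map_sum, Matrix.add_apply, Matrix.sum_apply]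
      have h3 : ∀ (g : FreeGroup (Fin d)) (c : K),
          (rep σ (MonoidAlgebra.single g c)) p q =
            if FreeGroup.lift σ g q = p then c else 0 := by
        intro g c
        rw [rep_apply, MonoidAlgebra.coeff_single, Finsupp.sum_single_index]
        simp
      simp only [h3, map_one, FreeGroup.lift_apply_of, Equiv.Perm.one_apply]
    simp only [h2, mul_add, Finset.sum_add_distrib, Finset.mul_sum]
    rw [Finset.sum_comm]
    simp
  have h4 : (penc M0 M).onPts σ x q b = (∑ a, x q a * M0 a b) +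
      ∑ i, ∑ a, x (σ i q) a * M i a b := by
    show ((M0.vecMulLinear (x q)) + ∑ i, (M i).vecMulLinear (x (σ i q))) b = _
    rw [Pi.add_apply, Finset.sum_apply]
    rfl
  rw [h4]
  refine (Finset.sum_congr rfl fun a _ => h1 a).trans ?_
  rw [Finset.sum_add_distrib]
  congr 1
  rw [Finset.sum_comm]

theorem ker_add_rank_aux {k l n : ℕ} (A : Matrix (Fin k × Fin n) (Fin l × Fin n) K)
    (f : (Fin n → Fin k → K) →ₗ[K] (Fin n → Fin l → K))
    (hf : ∀ x b q, Matrix.vecMul (fun p : Fin k × Fin n => x p.2 p.1) A (b, q) = f x q b) :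
    finrank K (LinearMap.ker f) + A.rank = k * n := by
  let e : (Fin n → Fin k → K) ≃ₗ[K] (Fin k × Fin n → K) :=
    { toFun := fun x p => x p.2 p.1
      map_add' := fun x y => rfl
      map_smul' := fun c x => rfl
      invFun := fun y q a => y (a, q)
      left_inv := fun x => rfl
      right_inv := fun y => rfl }
  have h1 : LinearMap.ker f = (LinearMap.ker A.vecMulLinear).comap e.toLinearMap := by
    ext x
    rw [Submodule.mem_comap, LinearMap.mem_ker, LinearMap.mem_ker]
    have h2 := hf x
    constructor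
    · intro h
      funext p
      refine (h2 p.1 p.2).trans ?_
      rw [h]
      rfl
    · intro h
      funext q
      funext b
      refine (h2 b q).symm.trans ?_
      exact congrFun h (b, q)
  have h3 : finrank K (LinearMap.ker f) = finrank K (LinearMap.ker A.vecMulLinear) := by
    rw [h1]
    exact (e.ofSubmodule' _).finrank_eq
  have e2 : A.rank = finrank K (LinearMap.range A.vecMulLinear) := by
    rw [← Matrix.rank_transpose, Matrix.rank, Matrix.mulVecLin_transpose]
  have e3 := LinearMap.finrank_range_add_finrank_ker A.vecMulLinear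
  rw [h3, e2, add_comm, e3]
  simp

theorem ker_add_rank {k l : ℕ} (M0 : Matrix (Fin k) (Fin l) K)
    (M : Fin d → Matrix (Fin k) (Fin l) K) {n : ℕ} (σ : Fin d → Equiv.Perm (Fin n)) :
    finrank K (LinearMap.ker ((penc M0 M).onPts σ)) + (matR (lin M0 M) σ).rank = k * n :=
  ker_add_rank_aux (matR (lin M0 M) σ) ((penc M0 M).onPts σ) (vecMul_lin M0 M σ)

/-- a pencil with a subspace of defect `δ` factors through `k - δ` -/
theorem factor_aux {k l : ℕ} (M0 : Matrix (Fin k) (Fin l) K) (M : Fin d → Matrix (Fin k) (Fin l) K)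
    (δ : ℕ) (U : Submodule K (Fin k → K)) (W : Submodule K (Fin l → K))
    (hW0 : ∀ u : U, M0.vecMulLinear (u : Fin k → K) ∈ W)
    (hWi : ∀ i, ∀ u : U, (M i).vecMulLinear (u : Fin k → K) ∈ W)
    (hU : finrank K W + δ = finrank K U) (s : ℕ) (hs : s + δ = k) :
    ∃ (X : Matrix (Fin k) (Fin s) (MonoidAlgebra K (FreeGroup (Fin d))))
      (Y : Matrix (Fin s) (Fin l) (MonoidAlgebra K (FreeGroup (Fin d)))), lin M0 M = X * Y := by
  obtain ⟨U', hUU'⟩ := Submodule.exists_isCompl U
  let pU : (Fin k → K) →ₗ[K] U := U.projectionOnto U' hUU'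
  let pU' : (Fin k → K) →ₗ[K] U' := U'.projectionOnto U hUU'.symm
  have hp : ∀ x, (pU x : Fin k → K) + (pU' x : Fin k → K) = x := by
    intro x
    have := congrArg (fun f => f x) (Submodule.projection_add_projection_eq_id hUU')
    exact this
  let b := finBasis K W
  let b' := finBasis K U'
  let Φ0 : Matrix (Fin k) (Fin (finrank K W)) K := Matrix.of fun i j =>
    b.repr ⟨_, hW0 (pU (Pi.single i 1))⟩ j
  let Φ : Fin d → Matrix (Fin k) (Fin (finrank K W)) K := fun g => Matrix.of fun i j =>
    b.repr ⟨_, hWi g (pU (Pi.single i 1))⟩ j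
  let Z : Matrix (Fin (finrank K W)) (Fin l) K := Matrix.of fun j t => (b j : Fin l → K) t
  let Q1 : Matrix (Fin k) (Fin (finrank K U')) K := Matrix.of fun i j =>
    b'.repr (pU' (Pi.single i 1)) j
  let Q2 : Matrix (Fin (finrank K U')) (Fin k) K := Matrix.of fun j a => (b' j : Fin k → K) a
  have key : ∀ (N : Matrix (Fin k) (Fin l) K) (hN : ∀ u : U, N.vecMulLinear (u : Fin k → K) ∈ W),
      N = (Matrix.of fun (i : Fin k) (j : Fin (finrank K W)) =>
        b.repr ⟨_, hN (pU (Pi.single i 1))⟩ j) * Z + Q1 * (Q2 * N) := by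
    intro N hN
    apply Matrix.ext
    intro i t
    rw [Matrix.add_apply, ← Matrix.mul_assoc]
    have e1 : ((Matrix.of fun (i : Fin k) (j : Fin (finrank K W)) =>
        b.repr ⟨_, hN (pU (Pi.single i 1))⟩ j) * Z) i t =
        N.vecMulLinear (pU (Pi.single i 1) : Fin k → K) t := by
      rw [Matrix.mul_apply]
      have e2 := b.sum_repr ⟨_, hN (pU (Pi.single i 1))⟩
      have e3 := congrFun (congrArg Subtype.val e2) t
      refine Eq.trans ?_ e3
      rw [AddSubmonoidClass.coe_finsetSum, Finset.sum_apply]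
      rfl
    have e4 : ∀ a, (Q1 * Q2) i a = (pU' (Pi.single i 1) : Fin k → K) a := by
      intro a
      rw [Matrix.mul_apply]
      have e2 := b'.sum_repr (pU' (Pi.single i 1))
      have e3 := congrFun (congrArg Subtype.val e2) a
      refine Eq.trans ?_ e3
      rw [AddSubmonoidClass.coe_finsetSum, Finset.sum_apply]
      rfl
    have e5 : ((Q1 * Q2) * N) i t = N.vecMulLinear (pU' (Pi.single i 1) : Fin k → K) t := by
      rw [Matrix.mul_apply]
      simp only [e4]
      rfl
    rw [e1, e5, ← Pi.add_apply, ← map_add, hp]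
    simp
  have hdim : finrank K W + finrank K U' = s := by
    have := Submodule.finrank_add_eq_of_isCompl hUU'
    simp only [Module.finrank_fintype_fun_eq_card, Fintype.card_fin] at this
    omega
  let e : Fin (finrank K W) ⊕ Fin (finrank K U') ≃ Fin s :=
    finSumFinEquiv.trans (finCongr hdim)
  refine ⟨(Matrix.fromCols (lin Φ0 Φ) (cst d Q1)).submatrix id e.symm,
    (Matrix.fromRows (cst d Z) (cst d Q2 * lin M0 M)).submatrix e.symm id, ?_⟩
  rw [Matrix.submatrix_mul_equiv, Matrix.fromCols_mul_fromRows, lin_mul_cst, cst_mul_lin,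
    cst_mul_lin, lin_add, Matrix.submatrix_id_id]
  congr 1
  · exact key M0 hW0
  · funext g
    exact key (M g) (hWi g)

theorem a0_mem_img (P : Pencil K d) (U : Submodule K (Fin P.k → K)) (u : Fin P.k → K)
    (hu : u ∈ U) : P.a0 u ∈ P.img U (fun _ => U) :=
  Submodule.mem_sup_left (Submodule.mem_map_of_mem hu)

theorem a_mem_img (P : Pencil K d) (U : Submodule K (Fin P.k → K)) (u : Fin P.k → K)
    (hu : u ∈ U) (i : Fin d) : P.a i u ∈ P.img U (fun _ => U) :=
  Submodule.mem_sup_right (Submodule.mem_iSup_of_mem i (Submodule.mem_map_of_mem hu))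

/-- a pencil with a subspace of defect `δ` factors through `k - δ` -/
theorem factor {k l : ℕ} (M0 : Matrix (Fin k) (Fin l) K) (M : Fin d → Matrix (Fin k) (Fin l) K)
    (δ : ℕ) (hδ : (penc M0 M).IsDefect δ) (s : ℕ) (hs : s + δ = k) :
    ∃ (X : Matrix (Fin k) (Fin s) (MonoidAlgebra K (FreeGroup (Fin d))))
      (Y : Matrix (Fin s) (Fin l) (MonoidAlgebra K (FreeGroup (Fin d)))), lin M0 M = X * Y := by
  obtain ⟨-, U, hU⟩ := hδ
  refine factor_aux M0 M δ U ((penc M0 M).img U (fun _ => U)) ?_ ?_ hU s hs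
  · exact fun u => a0_mem_img (penc M0 M) U u.1 u.2
  · exact fun i u => a_mem_img (penc M0 M) U u.1 u.2 i

end INR

end Pool.Agent.SLR
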