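import Pool.Agent.SLR.Stmts

set_option autoImplicit false

namespace Pool.Agent.SLR

open Module Finset

namespace LINGaux

variable {K : Type} [Field K] {d : ℕ} (P : Pencil K d) {G : Type} [Group G] [Fintype G]
  (s : Fin d → G)

/-- total dimension -/
noncomputable def dimS (U : G → Submodule K (Fin P.k → K)) : ℕ := ∑ g, finrank K (U g)

/-- total image dimension -/
noncomputable def imgS (U : G → Submodule K (Fin P.k → K)) : ℕ :=
  ∑ g, finrank K (P.img (U g) (fun i => U (s i * g)))

theorem img_sup (U0 V0 : Submodule K (Fin P.k → K)) (U V : Fin d → Submodule K (Fin P.k → K)) :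
    P.img (U0 ⊔ V0) (fun i => U i ⊔ V i) = P.img U0 U ⊔ P.img V0 V := by
  unfold Pencil.img
  simp only [Submodule.map_sup, iSup_sup_eq]
  rw [sup_sup_sup_comm]

theorem img_mono {U0 V0 : Submodule K (Fin P.k → K)} {U V : Fin d → Submodule K (Fin P.k → K)}
    (h0 : U0 ≤ V0) (h : ∀ i, U i ≤ V i) : P.img U0 U ≤ P.img V0 V := by
  unfold Pencil.img
  exact sup_le_sup (Submodule.map_mono h0) (iSup_mono fun i => Submodule.map_mono (h i))

theorem dimS_add (U V : G → Submodule K (Fin P.k → K)) :
    dimS P (fun g => U g ⊔ V g) + dimS P (fun g => U g ⊓ V g) = dimS P U + dimS P V := by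
  unfold dimS
  rw [← Finset.sum_add_distrib, ← Finset.sum_add_distrib]
  exact Finset.sum_congr rfl fun g _ => Submodule.finrank_sup_add_finrank_inf_eq _ _

theorem imgS_add (U V : G → Submodule K (Fin P.k → K)) :
    imgS P s (fun g => U g ⊔ V g) + imgS P s (fun g => U g ⊓ V g) ≤ imgS P s U + imgS P s V := by
  unfold imgS
  rw [← Finset.sum_add_distrib, ← Finset.sum_add_distrib]
  refine Finset.sum_le_sum fun g _ => ?_
  rw [img_sup P (U g) (V g) (fun i => U (s i * g)) (fun i => V (s i * g)),
    ← Submodule.finrank_sup_add_finrank_inf_eq (P.img (U g) (fun i => U (s i * g)))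
      (P.img (V g) (fun i => V (s i * g)))]
  refine Nat.add_le_add_left (Submodule.finrank_mono ?_) _
  exact le_inf (img_mono P inf_le_left fun i => inf_le_left)
    (img_mono P inf_le_right fun i => inf_le_right)

theorem dimS_shift (U : G → Submodule K (Fin P.k → K)) (h : G) :
    dimS P (fun g => U (g * h)) = dimS P U := by
  unfold dimS
  exact Equiv.sum_comp (Equiv.mulRight h) fun g => finrank K (U g)

theorem imgS_shift (U : G → Submodule K (Fin P.k → K)) (h : G) :
    imgS P s (fun g => U (g * h)) = imgS P s U := by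
  unfold imgS
  have := Equiv.sum_comp (Equiv.mulRight h)
    fun g => finrank K (P.img (U g) (fun i => U (s i * g)))
  rw [← this]
  refine Finset.sum_congr rfl fun g _ => ?_
  have e : (fun i => U (s i * g * h)) = fun i => U (s i * (g * h)) := by
    funext i
    rw [mul_assoc]
  exact congrArg (fun f => finrank K (P.img (U (g * h)) f)) e

theorem dimS_le (U : G → Submodule K (Fin P.k → K)) : dimS P U ≤ Fintype.card G * P.k := by
  unfold dimS
  calc ∑ g, finrank K (U g) ≤ ∑ _g : G, P.k := by
        refine Finset.sum_le_sum fun g _ => ?_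
        have := Submodule.finrank_le (U g)
        rwa [Module.finrank_fin_fun] at this
    _ = Fintype.card G * P.k := by simp

/-- the objective function (scaled) -/
noncomputable def obj (U : G → Submodule K (Fin P.k → K)) : ℤ :=
  ((dimS P U : ℤ) - imgS P s U) * (Fintype.card G * P.k + 1) + dimS P U

theorem obj_le (U : G → Submodule K (Fin P.k → K)) :
    obj P s U ≤ (Fintype.card G * P.k : ℤ) * (Fintype.card G * P.k + 1) + Fintype.card G * P.k := by
  unfold obj
  have h1 : (dimS P U : ℤ) ≤ Fintype.card G * P.k := by exact_mod_cast dimS_le P U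
  have h2 : (0 : ℤ) ≤ imgS P s U := by positivity
  have h3 : (0 : ℤ) ≤ (Fintype.card G * P.k : ℤ) := by positivity
  nlinarith

theorem exists_max : ∃ U : G → Submodule K (Fin P.k → K), ∀ V : G → Submodule K (Fin P.k → K),
    obj P s V ≤ obj P s U := by
  have h := Int.exists_greatest_of_bdd (P := fun z => ∃ U : G → Submodule K (Fin P.k → K),
    obj P s U = z) ⟨_, fun z hz => by
      obtain ⟨U, rfl⟩ := hz
      exact obj_le P s U⟩ ⟨_, fun _ => ⊥, rfl⟩
  obtain ⟨z, ⟨U, rfl⟩, h⟩ := h
  exact ⟨U, fun V => h _ ⟨V, rfl⟩⟩

end LINGaux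

open LINGaux in
theorem ling_proof : Stmt_LING := by
  intro K _ d P δ hP G _ _ s U
  obtain ⟨W, hW⟩ := exists_max P s
  have hk : (0 : ℤ) ≤ (Fintype.card G * P.k : ℤ) := by positivity
  -- W maximizes φ
  have hφ : ∀ V : G → Submodule K (Fin P.k → K),
      (dimS P V : ℤ) - imgS P s V ≤ (dimS P W : ℤ) - imgS P s W := by
    intro V
    by_contra hlt
    push Not at hlt
    have h1 := hW V
    unfold obj at h1
    have h2 : (dimS P W : ℤ) ≤ Fintype.card G * P.k := by exact_mod_cast dimS_le P W
    have h3 : (0 : ℤ) ≤ dimS P V := by positivity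
    nlinarith
  -- W is invariant
  have hinv : ∀ g h : G, W (g * h) ≤ W g := by
    intro g h
    set V : G → Submodule K (Fin P.k → K) := fun g => W (g * h) with hV
    have a1 := dimS_add P W V
    have a2 := imgS_add P s W V
    have a3 : dimS P V = dimS P W := dimS_shift P W h
    have a4 : imgS P s V = imgS P s W := imgS_shift P s W h
    have a5 := hφ (fun g => W g ⊓ V g)
    have a6 := hφ (fun g => W g ⊔ V g)
    have a7 := hW (fun g => W g ⊔ V g)
    unfold obj at a7
    have a8 : (dimS P (fun g => W g ⊔ V g) : ℤ) ≤ dimS P W := by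
      have b1 : (dimS P (fun g => W g ⊔ V g) : ℤ) - imgS P s (fun g => W g ⊔ V g)
          = (dimS P W : ℤ) - imgS P s W := by omega
      rw [b1] at a7
      linarith
    have a9 : dimS P (fun g => W g ⊔ V g) ≤ dimS P W := by exact_mod_cast a8
    have a10 : ∀ x ∈ (Finset.univ : Finset G), finrank K (W x) = finrank K (W x ⊔ V x : Submodule K (Fin P.k → K)) := by
      rw [← Finset.sum_eq_sum_iff_of_le]
      · refine le_antisymm ?_ a9
        exact Finset.sum_le_sum fun x _ => Submodule.finrank_mono le_sup_left
      · intro x _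
        exact Submodule.finrank_mono le_sup_left
    have a11 := Submodule.eq_of_le_of_finrank_eq (le_sup_left : W g ≤ W g ⊔ V g)
      (a10 g (Finset.mem_univ _))
    have a12 : V g ≤ W g := by
      rw [a11]
      exact le_sup_right
    exact a12
  have hconst : ∀ g : G, W g = W 1 := by
    intro g
    refine le_antisymm ?_ ?_
    · have := hinv 1 g
      simpa using this
    · have := hinv g g⁻¹
      simpa using this
  have h1 : dimS P W = Fintype.card G * finrank K (W 1) := by
    unfold dimS
    have : ∀ g : G, finrank K (W g) = finrank K (W 1) := fun g => by rw [hconst g]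
    simp_rw [this]
    simp
  have h2 : imgS P s W = Fintype.card G * finrank K (P.img (W 1) fun _ => W 1) := by
    unfold imgS
    have : ∀ g : G, finrank K (P.img (W g) (fun i => W (s i * g)))
        = finrank K (P.img (W 1) fun _ => W 1) := by
      intro g
      have e : (fun i => W (s i * g)) = fun _ => W 1 := by
        funext i
        exact hconst _
      rw [e, hconst g]
    simp_rw [this]
    simp
  have h3 := hφ U
  have h4 := hP (W 1)
  have h5 : dimS P W ≤ imgS P s W + δ * Fintype.card G := by
    rw [h1, h2]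
    nlinarith
  change dimS P U ≤ imgS P s U + δ * Fintype.card G
  omega

end Pool.Agent.SLR
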