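import Pool.Agent.SLR.Stmts

set_option autoImplicit false

namespace Pool.Agent.SLR

open Module Finset Filter Topology
open scoped Nat

theorem main1_proof (hLNZ : Stmt_LNZ) (hEXD : Stmt_EXD) (hLOW : Stmt_LOW) (hSPC : Stmt_SPC)
    (hFIN : Stmt_FIN) : Stmt_MAIN1 := by
  intro K _ d k l A
  obtain ⟨P, hP⟩ := hLNZ K d k l A
  obtain ⟨δ, hδ⟩ := hEXD K d P
  have hδk : δ ≤ k := by
    have h1 := hLOW K d P δ hδ 1 (fun _ => 1)
    have h2 := hP 1 (fun _ => 1)
    omega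
  refine ⟨k - δ, ?_, ?_⟩
  · intro n σ
    have h1 := hLOW K d P δ hδ n σ
    have h2 := hP n σ
    rw [Nat.sub_mul]
    omega
  · intro ε hε
    obtain ⟨K', i1, i2, P', hP', hle⟩ := hSPC K d P δ hδ.1
    obtain ⟨c, hc, hev⟩ := hFIN K' d P' δ hP' ε hε
    refine ⟨c, hc, hev.mono ?_⟩
    intro n hn
    refine le_trans ?_ hn
    have hsub : Nat.card {σ : Fin d → Equiv.Perm (Fin n) //
        ((mat A σ).rank : ℝ) ≤ (((k - δ : ℕ) : ℝ) - ε) * n}
        ≤ Nat.card {σ : Fin d → Equiv.Perm (Fin n) //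
          (δ + ε) * n ≤ (finrank K' (LinearMap.ker (P'.onPts σ)) : ℝ)} := by
      have himp : ∀ σ : Fin d → Equiv.Perm (Fin n),
          ((mat A σ).rank : ℝ) ≤ (((k - δ : ℕ) : ℝ) - ε) * n →
          (δ + ε) * n ≤ (finrank K' (LinearMap.ker (P'.onPts σ)) : ℝ) := by
        intro σ h3
        have h4 : (finrank K (LinearMap.ker (P.onPts σ)) : ℝ) + ((mat A σ).rank : ℝ)
            = (k : ℝ) * n := by exact_mod_cast hP n σ
        have h5 : (finrank K (LinearMap.ker (P.onPts σ)) : ℝ)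
            ≤ (finrank K' (LinearMap.ker (P'.onPts σ)) : ℝ) := by exact_mod_cast hle n σ
        have h6 : (((k - δ : ℕ) : ℝ)) = (k : ℝ) - δ := by
          rw [Nat.cast_sub hδk]
        rw [h6] at h3
        nlinarith
      exact Nat.card_le_card_of_injective
        (fun σ : {σ : Fin d → Equiv.Perm (Fin n) //
          ((mat A σ).rank : ℝ) ≤ (((k - δ : ℕ) : ℝ) - ε) * n} =>
          (⟨σ.1, himp σ.1 σ.2⟩ : {σ : Fin d → Equiv.Perm (Fin n) //
            (δ + ε) * n ≤ (finrank K' (LinearMap.ker (P'.onPts σ)) : ℝ)}))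
        (fun a b hab => Subtype.ext (congrArg (fun z => z.1) hab))
    exact_mod_cast hsub

end Pool.Agent.SLR
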