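import Pool.Agent.SLR.All
import Pool.Agent.SLR.INR

set_option autoImplicit false

namespace Pool.Agent.SLR

open Module Finset Filter Topology
open scoped Nat

/-- The stable inner rank of a matrix `A` over the group algebra `K[F]` of the free group: the least
`r` such that for some `t` the matrix `A ⊕ 1_t` is a product of two matrices over `K[F]`, the first one
having `r + t` columns. -/
noncomputable def stableInnerRank {K : Type} [Field K] {d k l : ℕ}
    (A : Matrix (Fin k) (Fin l) (FreeGroup (Fin d) →₀ K)) : ℕ :=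
  sInf {r : ℕ | StabFactor A r}

theorem all_inr : Stmt_INR := inr_proof exd_proof low_proof all_spc all_fin

theorem main_sir (K : Type) [Field K] (d : ℕ) :
      (∀ (k l : ℕ) (A : Matrix (Fin k) (Fin l) (FreeGroup (Fin d) →₀ K)) (n : ℕ)
        (σ : Fin d → Equiv.Perm (Fin n)), (mat A σ).rank ≤ stableInnerRank A * n) ∧
      (∀ (k l : ℕ) (A : Matrix (Fin k) (Fin l) (FreeGroup (Fin d) →₀ K)) (ε : ℝ), 0 < ε →
        ∃ c : ℝ, 0 < c ∧ ∀ᶠ n : ℕ in atTop,
        (Nat.card {σ : Fin d → Equiv.Perm (Fin n) //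
            ((mat A σ).rank : ℝ) ≤ (stableInnerRank A - ε) * n} : ℝ)
          ≤ (n : ℝ) ^ (-(c * n)) * ((n ! : ℕ) : ℝ) ^ d) ∧
      (∀ (k l : ℕ) (A : Matrix (Fin k) (Fin l) (FreeGroup (Fin d) →₀ K)) (m : ℕ), 0 < m →
        ∀ (τ : Fin d → Equiv.Perm (Fin m)) (ε : ℝ), 0 < ε → ∃ c : ℝ, 0 < c ∧
        ∀ᶠ n : ℕ in atTop,
        (Nat.card {σ : Fin d → Equiv.Perm (Fin n) //
            ((mat A (prodPerm τ σ)).rank : ℝ) ≤ (stableInnerRank A - ε) * (m * n : ℕ)} : ℝ)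
          ≤ (n : ℝ) ^ (-(c * n)) * ((n ! : ℕ) : ℝ) ^ d) ∧
      (∀ (k l : ℕ) (A : Matrix (Fin k) (Fin l) (FreeGroup (Fin d) →₀ K)),
        ∀ᵐ ω ∂(law d), IsSofic ω ∧
          Tendsto (fun n : ℕ => ((mat A (ω n)).rank : ℝ) / n) atTop
            (𝓝 (stableInnerRank A : ℝ))) ∧
      (Countable K → ∀ᵐ ω ∂(law d), IsSofic ω ∧
        ∀ (k l : ℕ) (A : Matrix (Fin k) (Fin l) (FreeGroup (Fin d) →₀ K)),
          Tendsto (fun n : ℕ => ((mat A (ω n)).rank : ℝ) / n) atTop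
            (𝓝 (stableInnerRank A : ℝ))) := by
  obtain ⟨r, h1, h2, h3, h4, h5⟩ := main_of bcl_proof all_fix all_main2 K d
  have hr : ∀ (k l : ℕ) (A : Matrix (Fin k) (Fin l) (FreeGroup (Fin d) →₀ K)),
      r k l A = stableInnerRank A := fun k l A =>
    (all_inr K d k l A (r k l A) (h1 k l A) (h2 k l A)).csInf_eq.symm
  simp only [hr] at h1 h2 h3 h4 h5
  exact ⟨h1, h2, h3, h4, h5⟩

end Pool.Agent.SLR
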