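import Pool.Agent.SLR.Stmts

set_option autoImplicit false

namespace Pool.Agent.SLR

open Module Finset

namespace SPC_

theorem surj {F : Type} [Field F] {k l : ℕ} (f : (Fin k → F) →ₗ[F] (Fin l → F)) :
    ∃ M : Matrix (Fin k) (Fin l) F, M.vecMulLinear = f := by
  refine ⟨Matrix.of fun i j => f (Pi.single i 1) j, ?_⟩
  apply LinearMap.pi_ext'
  intro i
  apply LinearMap.ext_ring
  funext j
  simp [Matrix.vecMulLinear_apply]

/-- The matrix of the map on `n` points, acting on column vectors. -/
def TT {R : Type} [CommRing R] {d k l n : ℕ} (N0 : Matrix (Fin k) (Fin l) R)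
    (N : Fin d → Matrix (Fin k) (Fin l) R) (σ : Fin d → Equiv.Perm (Fin n)) :
    Matrix (Fin (n * l)) (Fin (n * k)) R :=
  Matrix.of fun q p =>
    (if (finProdFinEquiv.symm p).1 = (finProdFinEquiv.symm q).1 then
      N0 (finProdFinEquiv.symm p).2 (finProdFinEquiv.symm q).2 else 0) +
    ∑ i, if (finProdFinEquiv.symm p).1 = σ i (finProdFinEquiv.symm q).1 then
      N i (finProdFinEquiv.symm p).2 (finProdFinEquiv.symm q).2 else 0

/-- Functions of two variables as functions on a product. -/
def EE (F : Type) [Field F] (n k : ℕ) : (Fin n → Fin k → F) ≃ₗ[F] (Fin (n * k) → F) where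
  toFun x p := x (finProdFinEquiv.symm p).1 (finProdFinEquiv.symm p).2
  invFun y a b := y (finProdFinEquiv (a, b))
  map_add' x y := rfl
  map_smul' c x := rfl
  left_inv x := by
    funext a b
    simp
  right_inv y := by
    funext p
    show y (finProdFinEquiv (finProdFinEquiv.symm p)) = y p
    rw [Equiv.apply_symm_apply]

theorem key {R F : Type} [CommRing R] [Field F] (g : R →+* F) {d k l n : ℕ}
    (N0 : Matrix (Fin k) (Fin l) R)
    (N : Fin d → Matrix (Fin k) (Fin l) R) (σ : Fin d → Equiv.Perm (Fin n))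
    (x : Fin n → Fin k → F) :
    EE F n l ((penc (N0.map g) (fun i => (N i).map g)).onPts σ x) =
      ((TT N0 N σ).map g).mulVecLin (EE F n k x) := by
  funext q
  obtain ⟨⟨v, b⟩, rfl⟩ := finProdFinEquiv.surjective q
  rw [Matrix.mulVecLin_apply, Matrix.mulVec, dotProduct]
  rw [← finProdFinEquiv.sum_comp]
  rw [Fintype.sum_prod_type]
  simp only [EE, LinearEquiv.coe_mk, LinearMap.coe_mk, AddHom.coe_mk, Equiv.symm_apply_apply,
    Matrix.map_apply, TT, Matrix.of_apply]
  have e : ∀ (a : Fin n) (c : Fin k), g ((if a = v then N0 c b else 0) +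
      ∑ i, if a = σ i v then N i c b else 0) * x a c =
      (if a = v then x a c * g (N0 c b) else 0) +
      ∑ i, if a = σ i v then x a c * g (N i c b) else 0 := by
    intro a c
    rw [map_add, map_sum, add_mul, Finset.sum_mul]
    congr 1
    · split_ifs <;> simp [mul_comm]
    · refine Finset.sum_congr rfl fun i _ => ?_
      split_ifs <;> simp [mul_comm]
  simp_rw [e, Finset.sum_add_distrib]
  show ((N0.map g).vecMulLinear (x v) + ∑ i, ((N i).map g).vecMulLinear (x (σ i v))) b = _
  rw [Pi.add_apply, Finset.sum_apply]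
  congr 1
  · rw [Finset.sum_comm]
    rw [Matrix.vecMulLinear_apply, Matrix.vecMul, dotProduct]
    refine Finset.sum_congr rfl fun c _ => ?_
    simp
  · have e2 : ∀ a : Fin n, ∑ c : Fin k, ∑ i, (if a = σ i v then x a c * g (N i c b) else 0) =
        ∑ i, ∑ c : Fin k, (if a = σ i v then x a c * g (N i c b) else 0) := by
      intro a
      rw [Finset.sum_comm]
    simp_rw [e2]
    rw [Finset.sum_comm]
    refine Finset.sum_congr rfl fun i _ => ?_
    rw [Finset.sum_comm]
    rw [Matrix.vecMulLinear_apply, Matrix.vecMul, dotProduct]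
    refine Finset.sum_congr rfl fun c _ => ?_
    simp

theorem main_aux {F : Type} [Field F] {k l n : ℕ}
    (L : (Fin n → Fin k → F) →ₗ[F] (Fin n → Fin l → F))
    (T : Matrix (Fin (n * l)) (Fin (n * k)) F)
    (h : ∀ x, EE F n l (L x) = T.mulVecLin (EE F n k x)) :
    finrank F (LinearMap.ker L) + T.rank = n * k := by
  have h1 := LinearMap.finrank_range_add_finrank_ker L
  have h2 : finrank F (Fin n → Fin k → F) = n * k := by
    rw [LinearEquiv.finrank_eq (EE F n k)]
    simp
  have h3 : finrank F (LinearMap.range L) = T.rank := by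
    have e0 : finrank F (LinearMap.range L) =
        finrank F (LinearMap.range ((EE F n l).toLinearMap ∘ₗ L)) := by
      rw [LinearMap.range_comp]
      exact (LinearEquiv.finrank_map_eq (EE F n l) _).symm
    rw [Matrix.rank, e0]
    have e : (EE F n l).toLinearMap ∘ₗ L = T.mulVecLin ∘ₗ (EE F n k).toLinearMap := by
      refine LinearMap.ext fun x => ?_
      exact h x
    have e2 : LinearMap.range ((EE F n l).toLinearMap ∘ₗ L) = LinearMap.range T.mulVecLin := by
      rw [e, LinearMap.range_comp, LinearEquiv.range, Submodule.map_top]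
    rw [← e2]
  omega

theorem main {R F : Type} [CommRing R] [Field F] (g : R →+* F) {d k l n : ℕ}
    (N0 : Matrix (Fin k) (Fin l) R)
    (N : Fin d → Matrix (Fin k) (Fin l) R) (σ : Fin d → Equiv.Perm (Fin n)) :
    finrank F (LinearMap.ker ((penc (N0.map g) (fun i => (N i).map g)).onPts σ)) +
      ((TT N0 N σ).map g).rank = n * k :=
  main_aux (k := k) (l := l) ((penc (N0.map g) (fun i => (N i).map g)).onPts σ) _
    (key g N0 N σ)

end SPC_

theorem spc_proof (hSPM : Stmt_SPM) (hFRF : Stmt_FRF) (hRKS : Stmt_RKS) : Stmt_SPC := by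
  intro K _ d P δ hP
  obtain ⟨k, l, a0, a⟩ := P
  obtain ⟨M0, rfl⟩ := SPC_.surj a0
  obtain ⟨M, hM⟩ : ∃ M : Fin d → Matrix (Fin k) (Fin l) K, a = fun i => (M i).vecMulLinear := by
    choose M hM using fun i => SPC_.surj (a i)
    exact ⟨M, funext fun i => (hM i).symm⟩
  subst hM
  obtain ⟨S, hS⟩ := hSPM K d k l M0 M δ hP
  classical
  set S' : Finset K := S ∪ (Finset.univ.image fun p : Fin k × Fin l => M0 p.1 p.2) ∪
    (Finset.univ.image fun p : Fin d × Fin k × Fin l => M p.1 p.2.1 p.2.2) with hS'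
  obtain ⟨κ, _, _, ⟨f⟩⟩ := hFRF K S'
  have hsub : (S' : Set K) ⊆ Algebra.adjoin ℤ (S' : Set K) := Algebra.subset_adjoin
  have h0 : ∀ i j, M0 i j ∈ Algebra.adjoin ℤ (S' : Set K) := by
    intro i j
    apply hsub
    rw [hS']
    simp only [Finset.coe_union, Set.mem_union]
    left
    right
    simp only [Finset.coe_image, Finset.coe_univ, Set.image_univ, Set.mem_range]
    exact ⟨(i, j), rfl⟩
  have h1 : ∀ e i j, M e i j ∈ Algebra.adjoin ℤ (S' : Set K) := by
    intro e i j
    apply hsub
    rw [hS']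
    simp only [Finset.coe_union, Set.mem_union]
    right
    simp only [Finset.coe_image, Finset.coe_univ, Set.image_univ, Set.mem_range]
    exact ⟨(e, i, j), rfl⟩
  let N0 : Matrix (Fin k) (Fin l) (Algebra.adjoin ℤ (S' : Set K)) :=
    Matrix.of fun i j => ⟨M0 i j, h0 i j⟩
  let N : Fin d → Matrix (Fin k) (Fin l) (Algebra.adjoin ℤ (S' : Set K)) :=
    fun e => Matrix.of fun i j => ⟨M e i j, h1 e i j⟩
  have hN0 : N0.map (algebraMap (Algebra.adjoin ℤ (S' : Set K)) K) = M0 := by
    ext i j
    rfl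
  have hN : ∀ e, (N e).map (algebraMap (Algebra.adjoin ℤ (S' : Set K)) K) = M e := by
    intro e
    ext i j
    rfl
  have hSS : (S : Set K) ⊆ (Algebra.adjoin ℤ (S' : Set K) : Subalgebra ℤ K) := by
    intro x hx
    apply hsub
    rw [hS']
    simp only [Finset.coe_union, Set.mem_union]
    left
    left
    exact hx
  refine ⟨κ, inferInstance, inferInstance, penc (N0.map f) (fun i => (N i).map f),
    hS _ hSS κ f N0 N hN0 hN, ?_⟩
  intro n σ
  have e1 := SPC_.main (algebraMap (Algebra.adjoin ℤ (S' : Set K)) K) N0 N σ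
  have e2 := SPC_.main f N0 N σ
  have e3 := hRKS (Algebra.adjoin ℤ (S' : Set K)) K κ
    (FaithfulSMul.algebraMap_injective _ _) f _ _ (SPC_.TT N0 N σ)
  rw [hN0] at e1
  have e4 : (fun i => (N i).map (algebraMap (Algebra.adjoin ℤ (S' : Set K)) K)) = M :=
    funext hN
  rw [e4] at e1
  have e5 : finrank K (LinearMap.ker ((penc M0 M).onPts σ)) ≤
      finrank κ (LinearMap.ker ((penc (N0.map f) (fun i => (N i).map f)).onPts σ)) := by
    omega
  exact e5

end Pool.Agent.SLR
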