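import Pool.Agent.SLR.Defs

set_option autoImplicit false

namespace Pool.Agent.SLR

open Module Finset Filter Topology
open scoped Nat

variable {K : Type} [Field K]

/-- LING: the inequality for fields of subspaces on a finite group. -/
def Stmt_LING : Prop := ∀ (K : Type) [Field K] (d : ℕ) (P : Pencil K d) (δ : ℕ), P.DefLE δ →
  ∀ (G : Type) [Group G] [Fintype G] (s : Fin d → G) (U : G → Submodule K (Fin P.k → K)),
    ∑ g, finrank K (U g) ≤ ∑ g, finrank K (P.img (U g) (fun i => U (s i * g))) + δ * Fintype.card G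

/-- LIN: the inequality for fields of subspaces on `n` points. -/
def Stmt_LIN : Prop := ∀ (K : Type) [Field K] (d : ℕ) (P : Pencil K d) (δ : ℕ), P.DefLE δ →
  ∀ (n : ℕ) (σ : Fin d → Equiv.Perm (Fin n)) (U : Fin n → Submodule K (Fin P.k → K)),
    ∑ v, finrank K (U v) ≤ ∑ v, finrank K (P.img (U v) (fun i => U (σ i v))) + δ * n

/-- PIN: pinning. -/
def Stmt_PIN : Prop := ∀ (K : Type) [Field K] (n k m : ℕ) (V : Submodule K (Fin n → Fin k → K)),
  ∃ T : Finset (Fin n), T.card ≤ m ∧ (dep (pin V T)).card * (m + 1) ≤ k * n * n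

/-- PDM: pinning `T` costs at most `k * |T|` dimensions. -/
def Stmt_PDM : Prop := ∀ (K : Type) [Field K] (n k : ℕ) (V : Submodule K (Fin n → Fin k → K))
  (T : Finset (Fin n)), finrank K V ≤ finrank K (pin V T) + k * T.card

/-- CHB: Chebyshev's inequality for the number of occurrences of a value `c` in a class `C`. -/
def Stmt_CHB : Prop := ∀ (K : Type) [Field K] [Finite K] (n k M : ℕ)
  (V : Submodule K (Fin n → Fin k → K)) (U : Submodule K (Fin k → K)) (C : Finset (Fin n)),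
  (∀ v ∈ C, proj V v = U) → ∀ c : Fin M → Fin k → K,
    Nat.card {x : Fin M → V // 2 * C.card <
        Nat.card {v : Fin n // v ∈ C ∧ ∀ j, (x j : Fin n → Fin k → K) v = c j} * Nat.card U ^ M}
      * C.card ^ 2 ≤ (dep V).card * Nat.card V ^ M * Nat.card U ^ (2 * M)

/-- `x` is an `M`-tuple of elements of `∏ v, Uf v` in which no value occurs more than twice as often
as expected in any class `{v | Uf v = U}` with more than `b` elements. -/
def Typ {n k : ℕ} (Uf : Fin n → Submodule K (Fin k → K)) (b M : ℕ)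
    (x : Fin M → Fin n → Fin k → K) : Prop :=
  (∀ j v, x j v ∈ Uf v) ∧
  ∀ U : Submodule K (Fin k → K), b < Nat.card {v // Uf v = U} → ∀ c : Fin M → Fin k → K,
    Nat.card {v // Uf v = U ∧ ∀ j, x j v = c j} * Nat.card U ^ M ≤ 2 * Nat.card {v // Uf v = U}

/-- TYP: at least half of the `M`-tuples of elements of `V` are typical. -/
def Stmt_TYP : Prop := ∀ (K : Type) [Field K] [Finite K] (n k M b : ℕ)
  (V : Submodule K (Fin n → Fin k → K)), 0 < b →
  2 * Nat.card (Submodule K (Fin k → K)) * Nat.card K ^ (3 * k * M) * (dep V).card ≤ b ^ 2 →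
    Nat.card V ^ M ≤ 2 * Nat.card {x : Fin M → Fin n → Fin k → K //
      (∀ j, x j ∈ V) ∧ Typ (fun v => proj V v) b M x}

/-- FIB: the number of permutations compatible with labels. -/
def Stmt_FIB : Prop := ∀ (n : ℕ) (Λ : Type) [Finite Λ] (f g : Fin n → Λ),
  Nat.card {σ : Equiv.Perm (Fin n) // ∀ v, f (σ v) = g v} ≤ ∏ᶠ t : Λ, (Nat.card {v // f v = t})!

/-- FAC: the product of the factorials of the class sizes of a typical tuple. -/
def Stmt_FAC : Prop := ∀ (K : Type) [Field K] [Finite K] (n k M b : ℕ)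
  (Uf : Fin n → Submodule K (Fin k → K)) (x : Fin M → Fin n → Fin k → K), Typ Uf b M x →
    (∏ᶠ t : Submodule K (Fin k → K) × (Fin M → Fin k → K),
        (Nat.card {v // Uf v = t.1 ∧ ∀ j, x j v = t.2 j})!)
      * Nat.card K ^ (M * ∑ v, finrank K (Uf v))
      ≤ 6 ^ n * n ! * Nat.card K ^ (k * M * b * Nat.card (Submodule K (Fin k → K)))

/-- CXY: the number of solutions with values in given subspaces. -/
def Stmt_CXY : Prop := ∀ (K : Type) [Field K] [Finite K] (d : ℕ) (P : Pencil K d) (n M : ℕ)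
  (Uf : Fin n → Submodule K (Fin P.k → K)) (u : Fin d → Fin n → Submodule K (Fin P.k → K)),
    Nat.card {p : (Fin M → Fin n → Fin P.k → K) × (Fin d → Fin M → Fin n → Fin P.k → K) //
      (∀ j v, p.1 j v ∈ Uf v) ∧ (∀ i j v, p.2 i j v ∈ u i v) ∧
      ∀ j v, P.a0 (p.1 j v) + ∑ i, P.a i (p.2 i j v) = 0}
      * Nat.card K ^ (M * ∑ v, finrank K (P.img (Uf v) (fun i => u i v)))
    = Nat.card K ^ (M * ∑ v, (finrank K (Uf v) + ∑ i, finrank K (u i v)))

/-- CNT: the number of pairs (permutations, typical tuple in the kernel). -/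
def Stmt_CNT : Prop := ∀ (K : Type) [Field K] [Finite K] (d : ℕ) (P : Pencil K d) (δ : ℕ),
  P.DefLE δ → ∀ (n M b : ℕ) (Uf : Fin n → Submodule K (Fin P.k → K)),
    Nat.card {p : (Fin d → Equiv.Perm (Fin n)) × (Fin M → Fin n → Fin P.k → K) //
        Typ Uf b M p.2 ∧ ∀ j, P.onPts p.1 (p.2 j) = 0}
      ≤ (6 * Nat.card (Submodule K (Fin P.k → K))) ^ (d * n) * (n !) ^ d
        * Nat.card K ^ (M * (δ * n + d * P.k * Nat.card (Submodule K (Fin P.k → K)) * b))

/-- BAD: the number of `σ` with a large kernel. -/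
def Stmt_BAD : Prop := ∀ (K : Type) [Field K] [Finite K] (d : ℕ) (P : Pencil K d) (δ : ℕ),
  P.DefLE δ → ∀ (n M b m s : ℕ), 0 < b →
    2 * Nat.card (Submodule K (Fin P.k → K)) * Nat.card K ^ (3 * P.k * M) * (P.k * n * n)
      ≤ b ^ 2 * (m + 1) →
    Nat.card {σ : Fin d → Equiv.Perm (Fin n) //
        δ * n + s ≤ finrank K (LinearMap.ker (P.onPts σ))} * Nat.card K ^ (M * s)
      ≤ 2 * (6 * Nat.card (Submodule K (Fin P.k → K))) ^ ((d + 1) * n) * (n !) ^ d
        * Nat.card K ^ (M * (P.k * m + d * P.k * Nat.card (Submodule K (Fin P.k → K)) * b))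

/-- ASY: optimisation of the parameters (pure analysis). -/
def Stmt_ASY : Prop := ∀ (q G k d : ℕ), 2 ≤ q → 1 ≤ G → ∀ ε : ℝ, 0 < ε → ∃ c : ℝ, 0 < c ∧
  ∀ᶠ n : ℕ in atTop, ∀ B : ℕ,
    (∀ M b m s : ℕ, 0 < b → 2 * G * q ^ (3 * k * M) * (k * n * n) ≤ b ^ 2 * (m + 1) →
      (s : ℝ) ≤ ε * n →
      B * q ^ (M * s) ≤ 2 * (6 * G) ^ ((d + 1) * n) * (n !) ^ d * q ^ (M * (k * m + d * k * G * b))) →
    (B : ℝ) ≤ (n : ℝ) ^ (-(c * n)) * ((n ! : ℕ) : ℝ) ^ d

/-- FIN: the theorem for pencils over finite fields. -/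
def Stmt_FIN : Prop := ∀ (K : Type) [Field K] [Finite K] (d : ℕ) (P : Pencil K d) (δ : ℕ),
  P.DefLE δ → ∀ ε : ℝ, 0 < ε → ∃ c : ℝ, 0 < c ∧ ∀ᶠ n : ℕ in atTop,
    (Nat.card {σ : Fin d → Equiv.Perm (Fin n) //
      (δ + ε) * n ≤ (finrank K (LinearMap.ker (P.onPts σ)) : ℝ)} : ℝ)
      ≤ (n : ℝ) ^ (-(c * n)) * ((n ! : ℕ) : ℝ) ^ d

/-- SPC: specialization to a finite field. -/
def Stmt_SPC : Prop := ∀ (K : Type) [Field K] (d : ℕ) (P : Pencil K d) (δ : ℕ), P.DefLE δ →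
  ∃ (K' : Type) (_ : Field K') (_ : Finite K') (P' : Pencil K' d), P'.DefLE δ ∧
    ∀ (n : ℕ) (σ : Fin d → Equiv.Perm (Fin n)),
      finrank K (LinearMap.ker (P.onPts σ)) ≤ finrank K' (LinearMap.ker (P'.onPts σ))

/-- LOW: the kernel has dimension at least `δ n`. -/
def Stmt_LOW : Prop := ∀ (K : Type) [Field K] (d : ℕ) (P : Pencil K d) (δ : ℕ), P.IsDefect δ →
  ∀ (n : ℕ) (σ : Fin d → Equiv.Perm (Fin n)), δ * n ≤ finrank K (LinearMap.ker (P.onPts σ))

/-- EXD: the defect exists. -/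
def Stmt_EXD : Prop := ∀ (K : Type) [Field K] (d : ℕ) (P : Pencil K d), ∃ δ : ℕ, P.IsDefect δ

/-- LNZ: linearization. -/
def Stmt_LNZ : Prop := ∀ (K : Type) [Field K] (d k l : ℕ)
  (A : Matrix (Fin k) (Fin l) (FreeGroup (Fin d) →₀ K)),
  ∃ P : Pencil K d, ∀ (n : ℕ) (σ : Fin d → Equiv.Perm (Fin n)),
    finrank K (LinearMap.ker (P.onPts σ)) + (mat A σ).rank = k * n

/-- MAIN1: the main theorem for a single matrix. -/
def Stmt_MAIN1 : Prop := ∀ (K : Type) [Field K] (d k l : ℕ)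
  (A : Matrix (Fin k) (Fin l) (FreeGroup (Fin d) →₀ K)), ∃ r : ℕ,
    (∀ (n : ℕ) (σ : Fin d → Equiv.Perm (Fin n)), (mat A σ).rank ≤ r * n) ∧
    ∀ ε : ℝ, 0 < ε → ∃ c : ℝ, 0 < c ∧ ∀ᶠ n : ℕ in atTop,
      (Nat.card {σ : Fin d → Equiv.Perm (Fin n) // ((mat A σ).rank : ℝ) ≤ (r - ε) * n} : ℝ)
        ≤ (n : ℝ) ^ (-(c * n)) * ((n ! : ℕ) : ℝ) ^ d

/-- RFN: free groups are residually finite. -/
def Stmt_RFN : Prop := ∀ (d : ℕ) (w : FreeGroup (Fin d)), w ≠ 1 →
  ∃ (n : ℕ) (σ : Fin d → Equiv.Perm (Fin n)), FreeGroup.lift σ w ≠ 1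

/-- FIX: a nontrivial word has few fixed points. -/
def Stmt_FIX : Prop := ∀ (d : ℕ) (w : FreeGroup (Fin d)), w ≠ 1 → ∀ ε : ℝ, 0 < ε →
  ∃ c : ℝ, 0 < c ∧ ∀ᶠ n : ℕ in atTop,
    (Nat.card {σ : Fin d → Equiv.Perm (Fin n) //
      ε * n ≤ (Nat.card {v : Fin n // FreeGroup.lift σ w v = v} : ℝ)} : ℝ)
      ≤ (n : ℝ) ^ (-(c * n)) * ((n ! : ℕ) : ℝ) ^ d

/-- The pencil given by matrices acting on row vectors. -/
def penc {K : Type} [Field K] {d k l : ℕ} (M0 : Matrix (Fin k) (Fin l) K)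
    (M : Fin d → Matrix (Fin k) (Fin l) K) : Pencil K d :=
  ⟨k, l, M0.vecMulLinear, fun i => (M i).vecMulLinear⟩

/-- FLT: the defect of the `m`-fold direct sum of a pencil. -/
def Stmt_FLT : Prop := ∀ (K : Type) [Field K] (d : ℕ) (P : Pencil K d) (δ : ℕ), P.DefLE δ →
  ∀ (m : ℕ) (W : Submodule K (Fin m → Fin P.k → K)),
    finrank K W ≤ finrank K (W.map (P.a0.compLeft (Fin m)) ⊔
      ⨆ i, W.map ((P.a i).compLeft (Fin m)) : Submodule K (Fin m → Fin P.l → K)) + δ * m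

/-- EXT: the defect does not grow under finite field extensions. -/
def Stmt_EXT : Prop := ∀ (K K1 : Type) [Field K] [Field K1] [Algebra K K1]
  [FiniteDimensional K K1] (d k l : ℕ) (M0 : Matrix (Fin k) (Fin l) K)
  (M : Fin d → Matrix (Fin k) (Fin l) K) (δ : ℕ), (penc M0 M).DefLE δ →
    (penc (M0.map (algebraMap K K1)) (fun i => (M i).map (algebraMap K K1))).DefLE δ

/-- NST: a system of polynomial equations without solutions in finite extensions of `K` has no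
solutions in any specialization. -/
def Stmt_NST : Prop := ∀ (K : Type) [Field K] (V ι : Type) [Finite V] [Finite ι]
  (p : ι → MvPolynomial V K),
  (∀ (K1 : Type) [Field K1] [Algebra K K1] [FiniteDimensional K K1] (x : V → K1),
    ∃ i, MvPolynomial.aeval x (p i) ≠ 0) →
  ∃ S : Finset K, ∀ (R : Subalgebra ℤ K), (S : Set K) ⊆ R → ∀ (κ : Type) [Field κ] (f : R →+* κ)
    (pR : ι → MvPolynomial V R), (∀ i, MvPolynomial.map (algebraMap R K) (pR i) = p i) →
    ∀ x : V → κ, ∃ i, MvPolynomial.eval₂ f x (pR i) ≠ 0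

/-- SPM: the defect does not grow under generic specialization. -/
def Stmt_SPM : Prop := ∀ (K : Type) [Field K] (d k l : ℕ) (M0 : Matrix (Fin k) (Fin l) K)
  (M : Fin d → Matrix (Fin k) (Fin l) K) (δ : ℕ), (penc M0 M).DefLE δ →
  ∃ S : Finset K, ∀ (R : Subalgebra ℤ K), (S : Set K) ⊆ R → ∀ (κ : Type) [Field κ] (f : R →+* κ)
    (N0 : Matrix (Fin k) (Fin l) R) (N : Fin d → Matrix (Fin k) (Fin l) R),
    N0.map (algebraMap R K) = M0 → (∀ i, (N i).map (algebraMap R K) = M i) →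
    (penc (N0.map f) (fun i => (N i).map f)).DefLE δ

/-- FRF: a finitely generated subring of a field has a homomorphism to a finite field. -/
def Stmt_FRF : Prop := ∀ (K : Type) [Field K] (S : Finset K),
  ∃ (κ : Type) (_ : Field κ) (_ : Finite κ), Nonempty ((Algebra.adjoin ℤ (S : Set K)) →+* κ)

/-- RKS: the rank does not grow under specialization. -/
def Stmt_RKS : Prop := ∀ (R K κ : Type) [CommRing R] [Field K] [Algebra R K] [Field κ],
  Function.Injective (algebraMap R K) → ∀ (f : R →+* κ) (m n : ℕ) (M : Matrix (Fin m) (Fin n) R),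
    (M.map f).rank ≤ (M.map (algebraMap R K)).rank

/-- The finite set of `d`-tuples of permutations of `Fin n`, with the discrete sigma-algebra. -/
def Om (d n : ℕ) : Type := Fin d → Equiv.Perm (Fin n)

instance (d n : ℕ) : MeasurableSpace (Om d n) := ⊤
instance (d n : ℕ) : DiscreteMeasurableSpace (Om d n) := ⟨fun _ => trivial⟩
noncomputable instance (d n : ℕ) : Fintype (Om d n) :=
  inferInstanceAs (Fintype (Fin d → Equiv.Perm (Fin n)))
instance (d n : ℕ) : Nonempty (Om d n) :=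
  inferInstanceAs (Nonempty (Fin d → Equiv.Perm (Fin n)))

/-- The law of a sequence of independent uniformly random `d`-tuples of permutations of
`Fin 0, Fin 1, Fin 2, …`. -/
noncomputable def law (d : ℕ) : MeasureTheory.Measure (∀ n : ℕ, Om d n) :=
  MeasureTheory.Measure.infinitePi fun n => (PMF.uniformOfFintype (Om d n)).toMeasure

/-- BCL: Borel-Cantelli. -/
def Stmt_BCL : Prop := ∀ (d : ℕ) (S : ∀ n : ℕ, Set (Om d n)) (c : ℝ), 0 < c →
  (∀ᶠ n : ℕ in atTop, (Nat.card (S n) : ℝ) ≤ (n : ℝ) ^ (-(c * n)) * ((n ! : ℕ) : ℝ) ^ d) →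
  ∀ᵐ ω ∂(law d), ∀ᶠ n : ℕ in atTop, ω n ∉ S n

end Pool.Agent.SLR
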