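import Pool.Agent.SLR.Stmts

set_option autoImplicit false

namespace Pool.Agent.SLR

open Module Finset Filter Topology
open scoped Nat

/-- The product of the `F`-sets `Fin m` (given by `τ`) and `Fin n` (given by `σ`), as an `F`-set
structure on `Fin (m * n)`. -/
def prodPerm {d m n : ℕ} (τ : Fin d → Equiv.Perm (Fin m)) (σ : Fin d → Equiv.Perm (Fin n)) :
    Fin d → Equiv.Perm (Fin (m * n)) :=
  fun i => (finProdFinEquiv.symm.trans ((τ i).prodCongr (σ i))).trans finProdFinEquiv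

/-- TWI: the pencil twisted by a finite `F`-set. -/
def Stmt_TWI : Prop := ∀ (K : Type) [Field K] (d : ℕ) (P : Pencil K d) (δ : ℕ), P.DefLE δ →
  ∀ (m : ℕ) (τ : Fin d → Equiv.Perm (Fin m)), ∃ P' : Pencil K d, P'.DefLE (δ * m) ∧
    ∀ (n : ℕ) (σ : Fin d → Equiv.Perm (Fin n)),
      finrank K (LinearMap.ker (P'.onPts σ)) = finrank K (LinearMap.ker (P.onPts (prodPerm τ σ)))

/-- MAIN2: the main theorem, including products with a fixed finite `F`-set. -/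
def Stmt_MAIN2 : Prop := ∀ (K : Type) [Field K] (d k l : ℕ)
  (A : Matrix (Fin k) (Fin l) (FreeGroup (Fin d) →₀ K)), ∃ r : ℕ,
    (∀ (n : ℕ) (σ : Fin d → Equiv.Perm (Fin n)), (mat A σ).rank ≤ r * n) ∧
    (∀ ε : ℝ, 0 < ε → ∃ c : ℝ, 0 < c ∧ ∀ᶠ n : ℕ in atTop,
      (Nat.card {σ : Fin d → Equiv.Perm (Fin n) // ((mat A σ).rank : ℝ) ≤ (r - ε) * n} : ℝ)
        ≤ (n : ℝ) ^ (-(c * n)) * ((n ! : ℕ) : ℝ) ^ d) ∧
    ∀ (m : ℕ), 0 < m → ∀ (τ : Fin d → Equiv.Perm (Fin m)) (ε : ℝ), 0 < ε → ∃ c : ℝ, 0 < c ∧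
      ∀ᶠ n : ℕ in atTop,
        (Nat.card {σ : Fin d → Equiv.Perm (Fin n) //
          ((mat A (prodPerm τ σ)).rank : ℝ) ≤ (r - ε) * (m * n : ℕ)} : ℝ)
          ≤ (n : ℝ) ^ (-(c * n)) * ((n ! : ℕ) : ℝ) ^ d

end Pool.Agent.SLR
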